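import Pool.Agent.L5helper84.UV.Simp

set_option autoImplicit false

/-! # The third moment of the multiplicities -/

namespace Pool.Agent.L5helper84.UV

open Complex Filter Topology MeasureTheory Set
open Pool.Agent.Q97.UM (SS ZD mz)
open H370 (mult Zf zset mem_Zf good_zeta zz NN NN_add NN_mono)

/-- the mean cube of `SS` -/
theorem SS_cube : ∃ δ C : ℝ, 0 < δ ∧ δ ≤ 1 ∧ 0 < C ∧ ∀ᶠ T : ℝ in atTop,
    ∫ t in (T / 4)..(8 * T), SS δ T t ^ 3 ≤ C * T := by
  obtain ⟨θ, c, C, hθ, hθ1, hc, hC, hT⟩ := Pool.Agent.Q97.UM.b_TAIL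
  have hS := Pool.Agent.Q257.UM.ST.t_STM Pool.Agent.Q84.UM.t_DPM Pool.Agent.Q84.UM.t_MVL
    Pool.Agent.Q178.UM.ZF2.t_ZF2
  have hδ : 0 < min 1 (c / 64) := lt_min one_pos (by positivity)
  obtain ⟨C', hC', h⟩ := hS θ c C hθ hθ1 hc hC hT 3 (min 1 (c / 64)) hδ (by
    have := min_le_right 1 (c / 64)
    push_cast
    linarith)
  refine ⟨min 1 (c / 64), C' + 1, hδ, min_le_left _ _, by linarith, ?_⟩
  filter_upwards [h, eventually_ge_atTop 1] with T hT1 hT0
  have h1 := hT1 1 (by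
    rw [Nat.cast_one]
    exact Real.one_le_rpow hT0 (by positivity)) (fun _ => 1)
  have e1 : ∀ t : ℝ, ‖Pool.Agent.Q97.UM.dp 1 (fun _ => 1) t‖ ^ 2 = 1 := by
    intro t
    unfold Pool.Agent.Q97.UM.dp
    simp
  have e2 : Pool.Agent.Q97.UM.N2 1 (fun _ => 1) = 1 := by
    unfold Pool.Agent.Q97.UM.N2
    simp
  simp_rw [e1, e2, mul_one] at h1
  refine h1.trans ?_
  nlinarith

/-- the total multiplicity at the ordinate of `s` -/
noncomputable def MM (Z : Finset ℂ) (s : ℂ) : ℝ :=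
  ∑ s' ∈ Z, (mult riemannZeta s' : ℝ) * kp (s.im - s'.im) 0

lemma MM_nonneg (Z : Finset ℂ) (s : ℂ) : 0 ≤ MM Z s :=
  Finset.sum_nonneg fun _ _ => mul_nonneg (Nat.cast_nonneg _) (kp_nonneg _ _)

lemma Pn_zero_MM (Z : Finset ℂ) : Pn Z 0 = ∑ s ∈ Z, (mult riemannZeta s : ℝ) * MM Z s := by
  unfold Pn MM
  refine Finset.sum_congr rfl fun s _ => ?_
  rw [Finset.mul_sum]
  refine Finset.sum_congr rfl fun s' _ => ?_
  ring

lemma SS_nonneg {δ T : ℝ} (t : ℝ) : 0 ≤ SS δ T t := by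
  unfold Pool.Agent.Q97.UM.SS
  exact Finset.sum_nonneg fun s _ => mul_nonneg (Nat.cast_nonneg _) (by positivity)

/-- sums over zeros near `t` -/
lemma near_SS {δ T : ℝ} (hδ : 0 < δ) (hT : 10 ≤ T) {S : Finset ℂ} {t : ℝ}
    (hS : ∀ s ∈ S, s ∈ ZD T ∧ |s.im - t| ≤ 1 / Real.log T) : tw S ≤ 4 * SS δ T t := by
  have hL : 0 < Real.log T := Real.log_pos (by linarith)
  unfold tw Pool.Agent.Q97.UM.SS
  rw [Finset.mul_sum]
  refine le_trans ?_ (Finset.sum_le_sum_of_subset_of_nonneg (s := S) (fun s hs => (hS s hs).1)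
    fun s _ _ => by
      have : 0 ≤ (mz s : ℝ) * (Real.exp (2 * δ * (Real.log T * |s.re - 1 / 2|)) /
        (1 + Real.log T * |s.im - t|) ^ 2) := mul_nonneg (Nat.cast_nonneg _) (by positivity)
      linarith)
  refine Finset.sum_le_sum fun s hs => ?_
  have h1 := (hS s hs).2
  have h2 : Real.log T * |s.im - t| ≤ 1 := by
    rw [le_div_iff₀ hL] at h1
    linarith
  have h3 : 1 ≤ 4 * (Real.exp (2 * δ * (Real.log T * |s.re - 1 / 2|)) /
      (1 + Real.log T * |s.im - t|) ^ 2) := by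
    have h4 : 0 ≤ Real.log T * |s.im - t| := by positivity
    have h5 : (1 + Real.log T * |s.im - t|) ^ 2 ≤ 4 := by nlinarith
    have h6 : 1 ≤ Real.exp (2 * δ * (Real.log T * |s.re - 1 / 2|)) :=
      Real.one_le_exp (by positivity)
    rw [mul_div_assoc', le_div_iff₀ (by positivity)]
    linarith
  have h4 : (0 : ℝ) ≤ (mult riemannZeta s : ℝ) := Nat.cast_nonneg _
  have e : (mz s : ℝ) = (mult riemannZeta s : ℝ) := rfl
  rw [e]
  calc (mult riemannZeta s : ℝ) = (mult riemannZeta s : ℝ) * 1 := by ring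
    _ ≤ (mult riemannZeta s : ℝ) * (4 * (Real.exp (2 * δ * (Real.log T * |s.re - 1 / 2|)) /
      (1 + Real.log T * |s.im - t|) ^ 2)) := mul_le_mul_of_nonneg_left h3 h4
    _ = _ := by ring

/-- the sum over a dyadic block -/
theorem block3 : ∃ C T0 : ℝ, 0 < C ∧ 10 ≤ T0 ∧ ∀ T : ℝ, T0 ≤ T → ∀ X : ℝ, 2 * T ≤ X →
    ∀ Z : Finset ℂ, (∀ s, s ∈ Z ↔ s ∈ zset riemannZeta 0 X) →
      ∑ s ∈ Z.filter (fun s => T < s.im ∧ s.im ≤ 2 * T), (mult riemannZeta s : ℝ) * MM Z s ^ 2 ≤
        C * (T * Real.log T) := by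
  classical
  obtain ⟨δ, C, hδ, hδ1, hC, hS⟩ := SS_cube
  obtain ⟨T0, hT0⟩ := (hS.and (eventually_ge_atTop 10)).exists_forall_of_atTop
  refine ⟨64 * C, max T0 10, by positivity, le_max_right _ _, fun T hT X hX Z hZ => ?_⟩
  obtain ⟨h1, hT10⟩ := hT0 T ((le_max_left _ _).trans hT)
  have hT0' : 0 < T := by linarith
  have hL1 : 1 ≤ Real.log T := by
    rw [Real.le_log_iff_exp_le (by linarith)]
    linarith [Real.exp_one_lt_d9]
  have hL : 0 < Real.log T := by linarith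
  obtain ⟨h, hh⟩ : ∃ h : ℝ, h = 1 / Real.log T := ⟨_, rfl⟩
  have hh0 : 0 < h := by rw [hh]; positivity
  have hh1 : h ≤ 1 := by rw [hh]; exact div_le_self zero_le_one hL1
  obtain ⟨Y, hY⟩ : ∃ Y : Finset ℂ, Y = Z.filter (fun s => T < s.im ∧ s.im ≤ 2 * T) := ⟨_, rfl⟩
  rw [← hY]
  have hYm : ∀ s ∈ Y, s ∈ zset riemannZeta 0 X ∧ T < s.im ∧ s.im ≤ 2 * T := by
    intro s hs
    rw [hY, Finset.mem_filter] at hs
    exact ⟨(hZ s).1 hs.1, hs.2.1, hs.2.2⟩
  have hD : ∀ s ∈ zset riemannZeta 0 X, T / 16 < s.im → s.im ≤ 16 * T → s ∈ ZD T := by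
    intro s hs h2 h3
    unfold Pool.Agent.Q97.UM.ZD
    unfold Zf
    by_cases hfin : (zset riemannZeta (T / 16) (16 * T)).Finite
    · rw [dif_pos hfin, Set.Finite.mem_toFinset]
      exact ⟨hs.1, hs.2.1, h2, h3, hs.2.2.2.2⟩
    · exfalso
      apply hfin
      refine (H370.zeta_zeros_finite (16 * T)).subset ?_
      rintro s ⟨a1, a2, a3, a4, a5⟩
      exact ⟨a1, a2, by linarith, a4, a5⟩
  -- pointwise
  have hM : ∀ s ∈ Y, ∀ t : ℝ, wi s.im h t = 1 → MM Z s ≤ 4 * SS δ T t := by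
    intro s hs t ht
    obtain ⟨b1, b2, b3⟩ := hYm s hs
    have ht' : t < s.im ∧ s.im ≤ t + h := by
      unfold wi at ht
      by_contra hc
      rw [if_neg hc] at ht
      norm_num at ht
    have e : MM Z s = tw (Z.filter fun s' => s'.im = s.im) := by
      unfold MM tw
      rw [Finset.sum_filter]
      refine Finset.sum_congr rfl fun s' _ => ?_
      unfold kp
      by_cases hc : s'.im = s.im
      · rw [if_pos hc, if_pos (by constructor <;> linarith), mul_one]
      · rw [if_neg hc, if_neg (by rintro ⟨c1, c2⟩; apply hc; linarith), mul_zero]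
    rw [e]
    apply near_SS hδ (by linarith)
    intro s' hs'
    rw [Finset.mem_filter] at hs'
    refine ⟨hD s' ((hZ s').1 hs'.1) (by rw [hs'.2]; linarith) (by rw [hs'.2]; linarith), ?_⟩
    rw [hs'.2, abs_of_pos (by linarith), ← hh]
    linarith
  have hc2 : ∀ t : ℝ, ∑ s ∈ Y, (mult riemannZeta s : ℝ) * wi s.im h t ≤ 4 * SS δ T t := by
    intro t
    have e : ∑ s ∈ Y, (mult riemannZeta s : ℝ) * wi s.im h t =
        tw (Y.filter fun s => t < s.im ∧ s.im ≤ t + h) := by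
      rw [← cn_tw]
      rfl
    rw [e]
    apply near_SS hδ (by linarith)
    intro s hs
    rw [Finset.mem_filter] at hs
    obtain ⟨b1, b2, b3⟩ := hYm s hs.1
    refine ⟨hD s b1 (by linarith) (by linarith), ?_⟩
    rw [abs_of_pos (by linarith [hs.2.1]), ← hh]
    linarith [hs.2.2]
  have hpt : ∀ t : ℝ, ∑ s ∈ Y, (mult riemannZeta s : ℝ) * MM Z s ^ 2 * wi s.im h t ≤
      64 * SS δ T t ^ 3 := by
    intro t
    have hSn := SS_nonneg (δ := δ) (T := T) t
    calc ∑ s ∈ Y, (mult riemannZeta s : ℝ) * MM Z s ^ 2 * wi s.im h t ≤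
        ∑ s ∈ Y, (16 * SS δ T t ^ 2) * ((mult riemannZeta s : ℝ) * wi s.im h t) := by
          refine Finset.sum_le_sum fun s hs => ?_
          have hw : wi s.im h t = 0 ∨ wi s.im h t = 1 := by
            unfold wi
            split_ifs
            · exact Or.inr rfl
            · exact Or.inl rfl
          rcases hw with hw | hw
          · rw [hw]; simp
          · have h2 := hM s hs t hw
            have h3 : MM Z s ^ 2 ≤ (4 * SS δ T t) ^ 2 :=
              pow_le_pow_left₀ (MM_nonneg _ _) h2 2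
            rw [hw, mul_one, mul_one]
            have h4 : (0 : ℝ) ≤ (mult riemannZeta s : ℝ) := Nat.cast_nonneg _
            nlinarith
      _ = (16 * SS δ T t ^ 2) * ∑ s ∈ Y, (mult riemannZeta s : ℝ) * wi s.im h t := by
          rw [Finset.mul_sum]
      _ ≤ (16 * SS δ T t ^ 2) * (4 * SS δ T t) :=
          mul_le_mul_of_nonneg_left (hc2 t) (by positivity)
      _ = _ := by ring
  have hint : ∫ t in (T / 4)..(8 * T), ∑ s ∈ Y, (mult riemannZeta s : ℝ) * MM Z s ^ 2 *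
      wi s.im h t = h * ∑ s ∈ Y, (mult riemannZeta s : ℝ) * MM Z s ^ 2 := by
    rw [intervalIntegral.integral_finsetSum fun s _ => (wi_ii _ _ _ _).const_mul _, Finset.mul_sum]
    refine Finset.sum_congr rfl fun s hs => ?_
    obtain ⟨b1, b2, b3⟩ := hYm s hs
    rw [intervalIntegral.integral_const_mul, int_wi hh0.le (by linarith) (by linarith)
      (by linarith)]
    ring
  have hfin : h * ∑ s ∈ Y, (mult riemannZeta s : ℝ) * MM Z s ^ 2 ≤ 64 * (C * T) := by
    rw [← hint]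
    calc ∫ t in (T / 4)..(8 * T), ∑ s ∈ Y, (mult riemannZeta s : ℝ) * MM Z s ^ 2 * wi s.im h t ≤
        ∫ t in (T / 4)..(8 * T), 64 * SS δ T t ^ 3 := by
          apply intervalIntegral.integral_mono_on (by linarith) _ _ fun t _ => hpt t
          · have : (fun t => ∑ s ∈ Y, (mult riemannZeta s : ℝ) * MM Z s ^ 2 * wi s.im h t) =
                ∑ s ∈ Y, fun t => (mult riemannZeta s : ℝ) * MM Z s ^ 2 * wi s.im h t := by
              funext t
              rw [Finset.sum_apply]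
            rw [this]
            exact IntervalIntegrable.sum _ fun s _ => (wi_ii _ _ _ _).const_mul _
          · exact (continuous_const.mul ((SS_cont (by linarith)).pow 3)).intervalIntegrable _ _
      _ = 64 * ∫ t in (T / 4)..(8 * T), SS δ T t ^ 3 := intervalIntegral.integral_const_mul _ _
      _ ≤ 64 * (C * T) := by linarith
  rw [hh, div_mul_eq_mul_div, one_mul, div_le_iff₀ hL] at hfin
  linarith

end Pool.Agent.L5helper84.UV
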