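import Pool.Agent.L5helper84.UV.Low

set_option autoImplicit false

/-! # The lower half of the pair correlation conjecture implies the upper half -/

namespace Pool.Agent.L5helper84.UV

open Complex Filter Topology MeasureTheory Set
open H370 (mult Zf zset mem_Zf good_zeta zz NN NN_add NN_mono)

lemma step_gen {Z : Finset ℂ} {c W u u' v ε : ℝ} (hc : 0 < c) (hu : 0 ≤ u) (huu : u < u')
    (huv : u' ≤ v) (h : W * (Ph v - Ph u' - ε) ≤ Wn Z (c * u') (c * v)) :
    Pn Z (c * u) + W * (Ph v - Ph u' - ε) ≤ Pn Z (c * v) := by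
  have h1 : Wn Z (c * u') (c * v) ≤ Pn Z (c * v) - Pn Z (c * u) :=
    Wn_upper Z (by have : 0 < u' := by linarith
                   positivity) (mul_lt_mul_of_pos_left huu hc)
      (mul_le_mul_of_nonneg_left huv hc.le)
  linarith

lemma sum_mod (f : ℕ → ℝ) (p Q : ℕ) :
    ∑ k ∈ Finset.range (Q * p), f (k % p) = Q * ∑ i ∈ Finset.range p, f i := by
  induction Q with
  | zero => simp
  | succ Q ih =>
    rw [Nat.succ_mul, Finset.sum_range_add, ih]
    have : ∑ x ∈ Finset.range p, f ((Q * p + x) % p) = ∑ x ∈ Finset.range p, f x := by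
      refine Finset.sum_congr rfl fun x hx => ?_
      rw [Finset.mem_range] at hx
      rw [Nat.mul_add_mod_self_right, Nat.mod_eq_of_lt hx]
    rw [this]
    push_cast
    ring

/-- the weight `T log T / 2π` -/
noncomputable def WW (T : ℝ) : ℝ := T * Real.log T / (2 * Real.pi)

/-- lower bounds for the windows of one length bound the diagonal term -/
theorem single {Z : ℝ → Finset ℂ} (hZ : ∀ T s, s ∈ Z T ↔ s ∈ zset riemannZeta 0 T)
    {𝓕 : Filter ℝ} (hF : 𝓕 ≤ atTop) {l : ℝ} (hl : 0 < l)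
    (hyp : ∀ α : ℝ, 0 < α → ∀ ε : ℝ, 0 < ε → ∀ᶠ T in 𝓕,
      WW T * (Ph (α + l) - Ph α - ε) ≤
        Wn (Z T) (2 * Real.pi / Real.log T * α) (2 * Real.pi / Real.log T * (α + l)))
    {η : ℝ} (hη : 0 < η) :
    ∀ᶠ T in 𝓕, Pn (Z T) 0 ≤ WW T * (1 + 2 / l * (∫ u in (0 : ℝ)..l, Ph u) + η) := by
  obtain ⟨C, X0, hC, hX0, hcore⟩ := core
  have hpi := Real.pi_pos
  -- the parameters
  obtain ⟨Q, hQ⟩ := exists_nat_ge (max (2 * C / (η * l)) (max (1 / l) 1))
  have hQ1 : 2 * C ≤ Q * l * η := by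
    have := (le_max_left _ _).trans hQ
    rw [div_le_iff₀ (by positivity)] at this
    linarith
  have hQ2 : 1 ≤ Q * l := by
    have := ((le_max_left _ _).trans (le_max_right _ _)).trans hQ
    rw [div_le_iff₀ hl] at this
    exact this
  have hQ3 : (1 : ℝ) ≤ Q := ((le_max_right _ _).trans (le_max_right _ _)).trans hQ
  obtain ⟨r, hr⟩ := exists_nat_ge (max (l * (2 * (6 + 4 * Q)) / η) 1)
  have hr1 : (1 : ℝ) ≤ r := (le_max_right _ _).trans hr
  have hr0 : (0 : ℝ) < r := by linarith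
  obtain ⟨δ, hδd⟩ : ∃ δ : ℝ, δ = l / r := ⟨_, rfl⟩
  have hδ : 0 < δ := by rw [hδd]; positivity
  have hrδ : r * δ = l := by rw [hδd]; field_simp
  have hδl : δ ≤ l := by rw [hδd]; exact div_le_self hl.le hr1
  have hδη : (6 + 4 * Q) * δ ≤ η / 2 := by
    have := (le_max_left _ _).trans hr
    rw [div_le_iff₀ hη] at this
    rw [hδd, mul_div_assoc', div_le_div_iff₀ hr0 (by norm_num)]
    linarith
  obtain ⟨p, hp⟩ : ∃ p : ℕ, p = r + 1 := ⟨_, rfl⟩
  have hp0 : 0 < p := by omega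
  have hpδ : p * δ = l + δ := by
    rw [hp]
    push_cast
    linarith
  obtain ⟨J, hJ⟩ : ∃ J : ℕ, J = Q * p := ⟨_, rfl⟩
  obtain ⟨a, ha⟩ : ∃ a : ℝ, a = J * δ := ⟨_, rfl⟩
  have haQ : a = Q * (l + δ) := by
    rw [ha, hJ, ← hpδ]
    push_cast
    ring
  have ha1 : Q * l ≤ a := by rw [haQ]; nlinarith
  have ha0 : 0 < a := by linarith
  -- the windows
  have hwin : ∀ᶠ T in 𝓕, ∀ j ∈ Finset.range J, WW T * (Ph (((j + 1 : ℕ) : ℝ) * δ + l) -
      Ph (((j + 1 : ℕ) : ℝ) * δ) - δ) ≤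
        Wn (Z T) (2 * Real.pi / Real.log T * (((j + 1 : ℕ) : ℝ) * δ))
          (2 * Real.pi / Real.log T * (((j + 1 : ℕ) : ℝ) * δ + l)) := by
    rw [Filter.eventually_all_finset]
    intro j _
    exact hyp _ (by positivity) δ hδ
  have hev1 : ∀ᶠ T : ℝ in 𝓕, X0 ≤ T := hF (eventually_ge_atTop X0)
  have hev2 : ∀ᶠ T : ℝ in 𝓕, a ^ 2 ≤ Real.log T :=
    hF (Real.tendsto_log_atTop.eventually_ge_atTop _)
  filter_upwards [hwin, hev1, hev2] with T hw hT1 hT2
  have hT10 : 10 ≤ T := hX0.trans hT1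
  have hL0 : 0 < Real.log T := Real.log_pos (by linarith)
  have hW0 : 0 < WW T := by
    have : 0 < T := by linarith
    unfold WW
    positivity
  have h1 := hcore T hT1 (Z T) (hZ T) δ hδ J (by rw [← ha]; linarith) (by rw [← ha]; exact hT2)
    (fun k => -Ph ((k % p : ℕ) * δ) - 2 * δ * Q)
  rw [← ha, show T * Real.log T / (2 * Real.pi) = WW T from rfl] at h1
  obtain ⟨c, hc⟩ : ∃ c : ℝ, c = 2 * Real.pi / Real.log T := ⟨_, rfl⟩
  have hc0 : 0 < c := by rw [hc]; positivity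
  rw [← hc] at h1 hw
  obtain ⟨n0, hn0⟩ : ∃ n0 : ℝ, n0 = Pn (Z T) 0 := ⟨_, rfl⟩
  have hind : ∀ i : ℕ, i < p → ∀ q : ℕ, i + q * p < J →
      n0 + WW T * (Ph ((i + q * p : ℕ) * δ) - Ph (i * δ) - q * (2 * δ)) ≤
        Pn (Z T) (c * ((i + q * p : ℕ) * δ)) := by
    intro i _ q
    induction q with
    | zero =>
      intro _
      have h2 : n0 ≤ Pn (Z T) (c * (i * δ)) := by
        rw [hn0]
        exact Pn_mono _ (by positivity)
      simp only [zero_mul, add_zero, Nat.cast_zero, sub_self, sub_zero, mul_zero]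
      exact h2
    | succ q ih =>
      intro hq
      have hlt : i + q * p < J := by
        have : i + q * p ≤ i + (q + 1) * p := by nlinarith
        omega
      have h2 := ih hlt
      have h3 := hw (i + q * p) (Finset.mem_range.2 hlt)
      have hkk : (((i + (q + 1) * p : ℕ) : ℝ)) * δ = ((i + q * p + 1 : ℕ) : ℝ) * δ + l := by
        rw [hp]
        push_cast
        linarith
      rw [← hkk] at h3
      have h4 := step_grid (W := WW T) (ε := δ) hc0 hW0.le hδ
        (show i + q * p + 1 ≤ i + (q + 1) * p by nlinarith) h3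
      have e3 : WW T * (Ph (((i + (q + 1) * p : ℕ) : ℝ) * δ) - Ph (i * δ) -
          ((q + 1 : ℕ) : ℝ) * (2 * δ)) =
          WW T * (Ph (((i + q * p : ℕ) : ℝ) * δ) - Ph (i * δ) - q * (2 * δ)) +
          WW T * (Ph (((i + (q + 1) * p : ℕ) : ℝ) * δ) - Ph (((i + q * p : ℕ) : ℝ) * δ) -
            (δ + δ)) := by
        push_cast
        ring
      rw [e3]
      linarith
  have h2 := h1 (by
    intro k hk
    have hk' : k / p < Q := Nat.div_lt_of_lt_mul (by rw [mul_comm, ← hJ]; exact hk)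
    have hkk : k % p + k / p * p = k := by
      rw [mul_comm]; exact Nat.mod_add_div k p
    have h3 := hind (k % p) (Nat.mod_lt _ hp0) (k / p) (by rw [hkk]; exact hk)
    rw [hkk] at h3
    rw [← hn0]
    refine le_trans ?_ h3
    have h4 : ((k / p : ℕ) : ℝ) ≤ Q := by exact_mod_cast hk'.le
    have h5 : ((k / p : ℕ) : ℝ) * (2 * δ) ≤ 2 * δ * Q := by nlinarith
    have h6 : WW T * (Ph (k * δ) + (-Ph ((k % p : ℕ) * δ) - 2 * δ * Q)) ≤
        WW T * (Ph (k * δ) - Ph ((k % p : ℕ) * δ) - ((k / p : ℕ) : ℝ) * (2 * δ)) := by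
      apply mul_le_mul_of_nonneg_left _ hW0.le
      linarith
    linarith)
  rw [← hn0] at h2 ⊢
  -- the sum
  have hsum : ∑ j ∈ Finset.range J, (-Ph ((j % p : ℕ) * δ) - 2 * δ * Q) =
      -(Q * ∑ i ∈ Finset.range p, Ph (i * δ)) - J * (2 * δ * Q) := by
    rw [Finset.sum_sub_distrib, Finset.sum_neg_distrib, Finset.sum_const, Finset.card_range,
      nsmul_eq_mul, hJ, sum_mod (fun i => Ph (i * δ))]
  rw [hsum] at h2
  have hg := grid_le Ph_mono' hδ p
  rw [hpδ] at hg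
  obtain ⟨S, hS⟩ : ∃ S : ℝ, S = ∑ i ∈ Finset.range p, Ph (i * δ) := ⟨_, rfl⟩
  obtain ⟨I, hI⟩ : ∃ I : ℝ, I = ∫ u in (0 : ℝ)..l, Ph u := ⟨_, rfl⟩
  rw [← hS] at h2 hg
  rw [← hI]
  have hI2 : ∫ u in (0 : ℝ)..(l + δ), Ph u ≤ I + 2 * δ * l := by
    rw [← intervalIntegral.integral_add_adjacent_intervals (b := l)
        (Ph_cont.intervalIntegrable _ _) (Ph_cont.intervalIntegrable _ _), ← hI]
    have : ∫ u in l..(l + δ), Ph u ≤ ∫ _u in l..(l + δ), 2 * l := by
      refine intervalIntegral.integral_mono_on (by linarith) (Ph_cont.intervalIntegrable _ _)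
        (continuous_const.intervalIntegrable _ _) fun x hx => ?_
      have h3 := Ph_lip (a := 0) (b := x) (by linarith [hx.1])
      rw [Ph_zero] at h3
      linarith [hx.2]
    rw [intervalIntegral.integral_const, smul_eq_mul] at this
    have e : (l + δ - l) * (2 * l) = 2 * δ * l := by ring
    linarith
  have hI0 : 0 ≤ I := by
    rw [hI]
    exact intervalIntegral.integral_nonneg hl.le fun x hx => by
      have := Ph_mono hx.1; rwa [Ph_zero] at this
  have hfin : a + 2 * a * δ + C - 2 * δ * (-(Q * S) - J * (2 * δ * Q)) ≤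
      a * (1 + 2 / l * I + η) := by
    have e1 : 2 * δ * (-(Q * S) - J * (2 * δ * Q)) = -(2 * Q * (δ * S)) - 4 * δ * Q * a := by
      rw [ha]
      ring
    rw [e1]
    have h3 : 2 * Q * (δ * S) ≤ 2 * Q * (I + 2 * δ * l) := by
      have : (0 : ℝ) ≤ 2 * Q := by linarith
      exact mul_le_mul_of_nonneg_left (hg.trans hI2) this
    have h4 : 2 * Q * I ≤ a * (2 / l * I) := by
      have e2 : a * (2 / l * I) = 2 * (a / l) * I := by ring
      have h5 : (Q : ℝ) ≤ a / l := by rw [le_div_iff₀ hl]; exact ha1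
      rw [e2]
      gcongr
    have h5 : 2 * Q * (2 * δ * l) ≤ 4 * δ * a := by nlinarith
    have h6 : a * ((6 + 4 * Q) * δ) ≤ a * (η / 2) := mul_le_mul_of_nonneg_left hδη ha0.le
    have h7 : C ≤ a * (η / 2) := by nlinarith
    nlinarith
  have h8 : a * n0 ≤ a * (WW T * (1 + 2 / l * I + η)) := by
    refine h2.trans ?_
    have e2 : a * (WW T * (1 + 2 / l * I + η)) = WW T * (a * (1 + 2 / l * I + η)) := by ring
    rw [e2]
    exact mul_le_mul_of_nonneg_left hfin hW0.le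
  exact le_of_mul_le_mul_left h8 ha0

/-- the diagonal term is at least the number of zeros -/
lemma Pn_zero_ge (Z : Finset ℂ) : tw Z ≤ Pn Z 0 := by
  classical
  unfold tw Pn
  refine Finset.sum_le_sum fun s hs => ?_
  have h1 : (mult riemannZeta s : ℝ) * (mult riemannZeta s : ℝ) * kp (s.im - s.im) 0 ≤
      ∑ s' ∈ Z, (mult riemannZeta s : ℝ) * (mult riemannZeta s' : ℝ) * kp (s.im - s'.im) 0 :=
    Finset.single_le_sum (f := fun s' => (mult riemannZeta s : ℝ) * (mult riemannZeta s' : ℝ) *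
      kp (s.im - s'.im) 0) (fun s' _ => mul_nonneg (mul_nonneg (Nat.cast_nonneg _)
        (Nat.cast_nonneg _)) (kp_nonneg _ _)) hs
  refine le_trans ?_ h1
  rw [sub_self]
  have : kp 0 0 = 1 := by unfold kp; simp
  rw [this, mul_one]
  rcases Nat.eq_zero_or_pos (mult riemannZeta s) with h | h
  · rw [h]; simp
  · have : (1 : ℝ) ≤ (mult riemannZeta s : ℝ) := by exact_mod_cast h
    nlinarith

lemma tw_asymp {Z : ℝ → Finset ℂ} (hZ : ∀ T s, s ∈ Z T ↔ s ∈ zset riemannZeta 0 T)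
    {ε : ℝ} (hε : 0 < ε) : ∀ᶠ T in atTop, (1 - ε) * WW T ≤ tw (Z T) ∧
      tw (Z T) ≤ (1 + ε) * WW T := by
  obtain ⟨T0, hT0, h⟩ := Pool.Agent.W54.TCF.NT_asymp' ε hε
  filter_upwards [eventually_ge_atTop T0] with T hT
  have h1 := h T hT
  have e : (NN riemannZeta 0 T : ℝ) = tw (Z T) := by
    unfold NN tw
    rw [finsum_mem_eq_finite_toFinset_sum _ (H370.zeta_zeros_finite T)]
    push_cast
    refine Finset.sum_congr ?_ fun _ _ => rfl
    ext s
    rw [Set.Finite.mem_toFinset, hZ]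
  rw [e] at h1
  have e2 : WW T = T / (2 * Real.pi) * Real.log T := by unfold WW; ring
  rw [e2]
  exact h1

/-- lower bounds for all windows imply upper bounds for all windows -/
theorem upper {Z : ℝ → Finset ℂ} (hZ : ∀ T s, s ∈ Z T ↔ s ∈ zset riemannZeta 0 T)
    {𝓕 : Filter ℝ} (hF : 𝓕 ≤ atTop)
    (hyp : ∀ α β : ℝ, 0 < α → α < β → ∀ ε : ℝ, 0 < ε → ∀ᶠ T in 𝓕,
      WW T * (Ph β - Ph α - ε) ≤
        Wn (Z T) (2 * Real.pi / Real.log T * α) (2 * Real.pi / Real.log T * β))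
    {α β : ℝ} (hα : 0 < α) (hαβ : α < β) {η : ℝ} (hη : 0 < η) :
    ∀ᶠ T in 𝓕, Wn (Z T) (2 * Real.pi / Real.log T * α) (2 * Real.pi / Real.log T * β) ≤
      WW T * (Ph β - Ph α + η) := by
  obtain ⟨C, X0, hC, hX0, hcore⟩ := core
  have hpi := Real.pi_pos
  obtain ⟨δ, hδd⟩ : ∃ δ : ℝ, δ = min (η / 32) (min (α / 4) 1) := ⟨_, rfl⟩
  have hδ : 0 < δ := by rw [hδd]; positivity
  have hδ1 : δ ≤ η / 32 := by rw [hδd]; exact min_le_left _ _
  have hδ2 : δ ≤ α / 4 := by rw [hδd]; exact (min_le_right _ _).trans (min_le_left _ _)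
  obtain ⟨K0, hK0⟩ : ∃ K0 : ℕ, K0 = ⌊β / δ⌋₊ + 2 := ⟨_, rfl⟩
  have hβ0 : 0 < β := by linarith
  have hK1 : β + δ < K0 * δ := by
    have h1 := Nat.lt_floor_add_one (β / δ)
    rw [div_lt_iff₀ hδ] at h1
    rw [hK0]
    push_cast
    linarith
  obtain ⟨M, hM⟩ := exists_nat_ge (max ((7 * δ ^ 2 * K0 + C) / (η * δ) + 1) (1 / δ))
  have hM1 : 7 * δ ^ 2 * K0 + C < M * (η * δ) := by
    have h1 := (le_max_left _ _).trans hM
    have h2 : (7 * δ ^ 2 * K0 + C) / (η * δ) < M := by linarith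
    rwa [div_lt_iff₀ (by positivity)] at h2
  have hM2 : 1 ≤ M * δ := by
    have := (le_max_right _ _).trans hM
    rwa [div_le_iff₀ hδ] at this
  obtain ⟨J, hJ⟩ : ∃ J : ℕ, J = K0 + M := ⟨_, rfl⟩
  have hJr : (J : ℝ) = K0 + M := by rw [hJ]; push_cast; ring
  have hJ1 : 1 ≤ J * δ := by
    rw [hJr]
    have : (0 : ℝ) ≤ K0 * δ := by positivity
    nlinarith
  have hw1 : ∀ᶠ T in 𝓕, ∀ k ∈ Finset.range J, 2 ≤ k → WW T * (Ph (k * δ) - Ph δ - δ) ≤
        Wn (Z T) (2 * Real.pi / Real.log T * δ) (2 * Real.pi / Real.log T * (k * δ)) := by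
    rw [Filter.eventually_all_finset]
    intro k _
    by_cases h2 : 2 ≤ k
    · have h3 : (2 : ℝ) ≤ k := by exact_mod_cast h2
      filter_upwards [hyp δ (k * δ) hδ (by nlinarith) δ hδ] with T hT _ using hT
    · exact Filter.Eventually.of_forall fun T h3 => absurd h3 h2
  have hw2 : ∀ᶠ T in 𝓕, ∀ k ∈ Finset.range J, K0 ≤ k →
      WW T * (Ph (k * δ) - Ph (β + δ) - δ) ≤
        Wn (Z T) (2 * Real.pi / Real.log T * (β + δ)) (2 * Real.pi / Real.log T * (k * δ)) := by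
    rw [Filter.eventually_all_finset]
    intro k _
    by_cases h2 : K0 ≤ k
    · have h3 : (K0 : ℝ) ≤ k := by exact_mod_cast h2
      have h4 : (K0 : ℝ) * δ ≤ k * δ := mul_le_mul_of_nonneg_right h3 hδ.le
      filter_upwards [hyp (β + δ) (k * δ) (by linarith) (by linarith) δ hδ] with T hT _ using hT
    · exact Filter.Eventually.of_forall fun T h3 => absurd h3 h2
  have hw3 := hyp δ (α - δ) hδ (by linarith) δ hδ
  filter_upwards [hw1, hw2, hw3, hF (eventually_ge_atTop X0),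
    hF (Real.tendsto_log_atTop.eventually_ge_atTop ((J * δ) ^ 2)), hF (tw_asymp hZ hδ)]
    with T h1 h2 h3 hT1 hT2 hT3
  by_contra hcon
  push Not at hcon
  have hT10 : 10 ≤ T := hX0.trans hT1
  have hL0 : 0 < Real.log T := Real.log_pos (by linarith)
  have hW0 : 0 < WW T := by
    have : 0 < T := by linarith
    unfold WW
    positivity
  obtain ⟨c, hc⟩ : ∃ c : ℝ, c = 2 * Real.pi / Real.log T := ⟨_, rfl⟩
  have hc0 : 0 < c := by rw [hc]; positivity
  have hco := hcore T hT1 (Z T) (hZ T) δ hδ J hJ1 hT2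
    (fun k => if k < K0 then -(2 * δ) else η - 5 * δ)
  rw [show T * Real.log T / (2 * Real.pi) = WW T from rfl] at hco
  rw [← hc] at h1 h2 h3 hcon hco
  obtain ⟨n0, hn0⟩ : ∃ n0 : ℝ, n0 = Pn (Z T) 0 := ⟨_, rfl⟩
  obtain ⟨W, hW⟩ : ∃ W : ℝ, W = WW T := ⟨_, rfl⟩
  rw [← hW] at h1 h2 h3 hcon hW0 hT3
  have hPδ : Ph δ ≤ δ := by
    have := Ph_lip (a := 0) (b := δ) hδ.le
    rw [Ph_zero] at this
    linarith
  have hn0W : (1 - δ) * W ≤ n0 := by
    rw [hn0]
    exact hT3.1.trans (Pn_zero_ge _)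
  -- small k
  have hsmall : ∀ k : ℕ, k < J → n0 + W * (Ph (k * δ) + -(2 * δ)) ≤ Pn (Z T) (c * (k * δ)) := by
    intro k hk
    by_cases h4 : 2 ≤ k
    · have h5 : (2 : ℝ) ≤ k := by exact_mod_cast h4
      have h6 := step_gen (u := 0) hc0 le_rfl hδ (by nlinarith)
        (h1 k (Finset.mem_range.2 hk) h4)
      rw [mul_zero, ← hn0] at h6
      refine le_trans ?_ h6
      have : W * (Ph (k * δ) + -(2 * δ)) ≤ W * (Ph (k * δ) - Ph δ - δ) :=
        mul_le_mul_of_nonneg_left (by linarith) hW0.le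
      linarith
    · have h5 : (k : ℝ) ≤ 1 := by
        have : k ≤ 1 := by omega
        exact_mod_cast this
      have h6 : n0 ≤ Pn (Z T) (c * (k * δ)) := by
        rw [hn0]
        exact Pn_mono _ (by positivity)
      have h7 : Ph (k * δ) ≤ δ := (Ph_mono (by nlinarith)).trans hPδ
      have : W * (Ph (k * δ) + -(2 * δ)) ≤ 0 :=
        mul_nonpos_of_nonneg_of_nonpos hW0.le (by linarith)
      linarith
  -- large k
  have hlarge : ∀ k : ℕ, k < J → K0 ≤ k → n0 + W * (Ph (k * δ) + (η - 5 * δ)) ≤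
      Pn (Z T) (c * (k * δ)) := by
    intro k hk hkK
    have g1 := step_gen (u := 0) hc0 le_rfl hδ (by linarith) h3
    rw [mul_zero, ← hn0] at g1
    have g2 := Wn_upper (Z T) (p := c * α) (q := c * β) (p' := c * (α - δ)) (by positivity)
      (mul_lt_mul_of_pos_left (by linarith) hc0) (mul_le_mul_of_nonneg_left hαβ.le hc0.le)
    have hkr : (K0 : ℝ) ≤ k := by exact_mod_cast hkK
    have h4 : (K0 : ℝ) * δ ≤ k * δ := mul_le_mul_of_nonneg_right hkr hδ.le
    have g3 := step_gen (u := β) hc0 hβ0.le (by linarith) (by linarith)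
      (h2 k (Finset.mem_range.2 hk) hkK)
    have g4 : Ph α ≤ Ph (α - δ) + δ := by
      have := Ph_lip (a := α - δ) (b := α) (by linarith)
      linarith
    have g5 : Ph (β + δ) ≤ Ph β + δ := by
      have := Ph_lip (a := β) (b := β + δ) (by linarith)
      linarith
    have g6 : W * (Ph (k * δ) + (η - 5 * δ)) ≤ W * (Ph (α - δ) - Ph δ - δ) +
        W * (Ph β - Ph α + η) + W * (Ph (k * δ) - Ph (β + δ) - δ) := by
      rw [← mul_add, ← mul_add]
      apply mul_le_mul_of_nonneg_left _ hW0.le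
      linarith
    linarith
  have h4 := hco (by
    intro k hk
    rw [← hn0, ← hW]
    by_cases hkK : k < K0
    · rw [if_pos hkK]
      exact hsmall k hk
    · rw [if_neg hkK]
      exact hlarge k hk (by omega))
  have hsum : ∑ k ∈ Finset.range J, (if k < K0 then -(2 * δ) else η - 5 * δ) =
      K0 * (-(2 * δ)) + M * (η - 5 * δ) := by
    rw [hJ, Finset.sum_range_add]
    congr 1
    · rw [Finset.sum_congr rfl (g := fun _ => -(2 * δ)) (fun x hx => by
        rw [if_pos (Finset.mem_range.1 hx)]), Finset.sum_const, Finset.card_range, nsmul_eq_mul]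
    · rw [Finset.sum_congr rfl (g := fun _ => η - 5 * δ) (fun x _ => by
        rw [if_neg (by omega)]), Finset.sum_const, Finset.card_range, nsmul_eq_mul]
  rw [hsum, ← hn0, ← hW, hJr] at h4
  -- the contradiction
  have h5 : (K0 + M : ℝ) * δ * ((1 - δ) * W) ≤ (K0 + M : ℝ) * δ * n0 :=
    mul_le_mul_of_nonneg_left hn0W (by positivity)
  have h6 : W * ((K0 + M : ℝ) * δ * (1 - δ)) ≤ W * ((K0 + M) * δ + 2 * ((K0 + M) * δ) * δ + C -
      2 * δ * (K0 * (-(2 * δ)) + M * (η - 5 * δ))) := by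
    have e : W * ((K0 + M : ℝ) * δ * (1 - δ)) = (K0 + M : ℝ) * δ * ((1 - δ) * W) := by ring
    rw [e]
    exact h5.trans h4
  have h7 := le_of_mul_le_mul_left h6 hW0
  have h8 : (M : ℝ) * δ * δ ≤ M * δ * (η / 32) := mul_le_mul_of_nonneg_left hδ1 (by positivity)
  have h9 : 0 < (M : ℝ) * δ * η := by
    have : 0 < (M : ℝ) * δ := by linarith
    positivity
  nlinarith

end Pool.Agent.L5helper84.UV
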