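import Pool.Agent.L5helper84.UV.Cnt

set_option autoImplicit false

/-! # The second moment of the counts over a dyadic block -/

namespace Pool.Agent.L5helper84.UV

open Complex Filter Topology MeasureTheory Set
open H370 (mult Zf zset mem_Zf good_zeta zz NN NN_add NN_mono)

lemma cn_congr {Z Z' : Finset ℂ} {t h : ℝ}
    (H : ∀ s : ℂ, t < s.im → s.im ≤ t + h → (s ∈ Z ↔ s ∈ Z')) : cn Z t h = cn Z' t h := by
  classical
  rw [cn_tw, cn_tw]
  congr 1
  ext s
  simp only [Finset.mem_filter]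
  constructor
  · rintro ⟨h1, h2, h3⟩
    exact ⟨(H s h2 h3).1 h1, h2, h3⟩
  · rintro ⟨h1, h2, h3⟩
    exact ⟨(H s h2 h3).2 h1, h2, h3⟩

lemma cn_sq_ii (Z : Finset ℂ) (h A E : ℝ) :
    IntervalIntegrable (fun t => cn Z t h ^ 2) volume A E :=
  bdd_ii ((cn_meas Z h).pow_const 2) (M := (∑ s ∈ Z, (mult riemannZeta s : ℝ)) ^ 2) (fun t => by
    rw [abs_pow]
    exact pow_le_pow_left₀ (abs_nonneg _) (cn_bd Z t h) 2) A E

lemma cn_ii (Z : Finset ℂ) (h A E : ℝ) :
    IntervalIntegrable (fun t => cn Z t h) volume A E :=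
  bdd_ii (cn_meas Z h) (fun t => cn_bd Z t h) A E

/-- the core: the second moment in the middle of the block -/
theorem block0 : ∃ lam C T0 : ℝ, 16 ≤ lam ∧ 0 < C ∧ 10 ≤ T0 ∧ ∀ T : ℝ, T0 ≤ T → ∀ X : ℝ, 2 * T ≤ X →
    ∀ Z : Finset ℂ, (∀ s, s ∈ Z ↔ s ∈ zset riemannZeta 0 X) → ∀ a h : ℝ, lam ≤ a →
      a ^ 2 ≤ 2 * Real.log T → h = 2 * Real.pi * a / Real.log T → Real.log X ≤ 2 * Real.log T →
      |(∫ t in T..(2 * T), cn Z t h ^ 2) - T * (a ^ 2 + Real.log a / Real.pi ^ 2)| ≤ C * T := by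
  classical
  obtain ⟨lam, hlam, -, hvar⟩ := var1
  obtain ⟨C1, hC1, hv⟩ := hvar 2 (by norm_num)
  obtain ⟨C2, T2, hC2, hT2, hnn⟩ := H370.nn_asymp good_zeta
  obtain ⟨C3, hC3, hcb⟩ := cn_bound
  have hpi := Real.pi_pos
  have hpi3 := Real.pi_gt_three
  obtain ⟨K, hK⟩ : ∃ K : ℝ, K = 16 * C3 + 6 + 768 * C3 ^ 2 := ⟨_, rfl⟩
  have hK0 : 0 < K := by rw [hK]; positivity
  have hlit : ∀ᶠ T : ℝ in atTop, K * Real.log T ^ 3 ≤ T := by
    have h1 := (Real.isLittleO_pow_log_id_atTop (n := 3)).bound (c := 1 / K) (by positivity)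
    filter_upwards [h1, eventually_ge_atTop 1] with T h2 h3
    rw [Real.norm_of_nonneg (pow_nonneg (Real.log_nonneg h3) 3)] at h2
    simp only [id, Real.norm_of_nonneg (show (0 : ℝ) ≤ T by linarith)] at h2
    rw [div_mul_eq_mul_div, one_mul, le_div_iff₀ hK0] at h2
    linarith
  have hev := (hv.and (hlit.and ((Real.tendsto_log_atTop.eventually_ge_atTop 8).and
    (eventually_ge_atTop T2)))).exists_forall_of_atTop
  obtain ⟨T0, hT0⟩ := hev
  refine ⟨lam, C1 + 8 * Real.pi * (C2 + 1) + 3, max T0 10, hlam, by positivity, le_max_right _ _,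
    fun T hT X hX Z hZ a h hla ha2 hh hXT => ?_⟩
  obtain ⟨⟨U1, U2, hU1, hU2, hU3, hU4, hV⟩, hKL, hL8, hTT2⟩ := hT0 T ((le_max_left _ _).trans hT)
  have hT10 : 10 ≤ T := (le_max_right _ _).trans hT
  have ha16 : 16 ≤ a := hlam.trans hla
  obtain ⟨L, hL⟩ : ∃ L : ℝ, L = Real.log T := ⟨_, rfl⟩
  obtain ⟨Y, hY⟩ : ∃ Y : Finset ℂ, Y = Zf riemannZeta U1 U2 := ⟨_, rfl⟩
  have hLL : Real.log a ≤ a := by
    have := Real.log_le_sub_one_of_pos (show 0 < a by linarith)
    linarith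
  have hV1 := hV a hla (by nlinarith)
  have hnn1 := hnn T hTT2 U1 U2 hU1 hU2 hU3 hU4
  rw [← hh, ← hY, ← hL] at hV1
  rw [← tw_Zf (by linarith), ← hY, ← hL] at hnn1
  rw [← hL] at ha2 hh hXT hKL hL8
  have hL0 : 0 < L := by linarith
  have hh0 : 0 ≤ h := by rw [hh]; positivity
  have haL : a ≤ L := by nlinarith
  have hh7 : h ≤ 7 := by
    rw [hh, div_le_iff₀ hL0]
    have : 2 * Real.pi ≤ 7 := by linarith [Real.pi_lt_d2]
    nlinarith
  have hha : h * L = 2 * Real.pi * a := by rw [hh]; field_simp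
  have hah : a * h ≤ 4 * Real.pi := by
    rw [hh, mul_div_assoc', div_le_iff₀ hL0]
    nlinarith
  obtain ⟨A, hA⟩ : ∃ A : ℝ, A = T + L := ⟨_, rfl⟩
  obtain ⟨E, hE⟩ : ∃ E : ℝ, E = 2 * T - L - 7 := ⟨_, rfl⟩
  rw [← hA, ← hE] at hV1
  have hL3 : L ≤ L ^ 3 := by nlinarith [sq_nonneg L]
  have hL23 : L ^ 2 ≤ L ^ 3 := by nlinarith [sq_nonneg L]
  have hL30 : 0 ≤ L ^ 3 := by positivity
  have hk1 : (16 * C3 + 6 + 768 * C3 ^ 2) * L ^ 3 ≤ T := by rw [← hK]; exact hKL
  have hk2 : 16 * C3 * L ^ 3 + 6 * L ^ 3 + 768 * C3 ^ 2 * L ^ 3 ≤ T := by linarith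
  have p1 : 0 ≤ 16 * C3 * L ^ 3 := by positivity
  have p3 : 0 ≤ 768 * C3 ^ 2 * L ^ 3 := by positivity
  have h6L : 6 * L ≤ T := by linarith
  have hAE : A ≤ E := by rw [hA, hE]; linarith
  have hTA : T ≤ A := by rw [hA]; linarith
  have hE2 : E ≤ 2 * T := by rw [hE]; linarith
  have hX10 : 10 ≤ X := by linarith
  have hZ' : ∀ s ∈ Z, s ∈ zset riemannZeta 0 X := fun s hs => (hZ s).1 hs
  have hYZ : ∀ s : ℂ, s ∈ Y → s ∈ zset riemannZeta 0 X := by
    intro s hs
    rw [hY, mem_Zf good_zeta (by linarith)] at hs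
    obtain ⟨a1, a2, a3, a4, a5⟩ := hs
    exact ⟨a1, a2, by linarith, by linarith, a5⟩
  have hLX0 : 0 < Real.log X := Real.log_pos (by linarith)
  -- the two counts agree in the middle
  have hagree : ∀ t ∈ Set.Icc A E, cn Z t h = cn Y t h := by
    intro t ht
    apply cn_congr
    intro s h1 h2
    rw [hZ, hY, mem_Zf good_zeta (by linarith)]
    have h3 := ht.1
    have h4 := ht.2
    rw [hA] at h3
    rw [hE] at h4
    constructor
    · rintro ⟨a1, a2, a3, a4, a5⟩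
      exact ⟨a1, a2, by linarith, by linarith, a5⟩
    · rintro ⟨a1, a2, a3, a4, a5⟩
      exact ⟨a1, a2, by linarith, by linarith, a5⟩
  have hmid : ∫ t in A..E, cn Z t h ^ 2 = ∫ t in A..E, cn Y t h ^ 2 := by
    refine intervalIntegral.integral_congr fun t ht => ?_
    rw [Set.uIcc_of_le hAE] at ht
    rw [hagree t ht]
  -- the first moment
  have hfm := int_cn (Z := Y) hh0 hAE
  have hedge : tw (Y.filter fun s => s.im ≤ A + h ∨ E < s.im) ≤ 16 * C3 * L ^ 2 := by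
    have h1 : tw (Y.filter fun s => s.im ≤ A + h ∨ E < s.im) ≤
        cn Y T (L + h) + cn Y E (L + 7) := by
      rw [cn_tw, cn_tw]
      unfold tw
      rw [Finset.sum_filter, Finset.sum_filter, Finset.sum_filter, ← Finset.sum_add_distrib]
      refine Finset.sum_le_sum fun s hs => ?_
      rw [hY, mem_Zf good_zeta (by linarith)] at hs
      obtain ⟨a1, a2, a3, a4, a5⟩ := hs
      have hm : (0 : ℝ) ≤ (mult riemannZeta s : ℝ) := Nat.cast_nonneg _
      by_cases c1 : s.im ≤ A + h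
      · rw [if_pos (Or.inl c1), if_pos (⟨by linarith, by rw [hA] at c1; linarith⟩ :
          T < s.im ∧ s.im ≤ T + (L + h))]
        split_ifs <;> linarith
      · by_cases c2 : E < s.im
        · rw [if_pos (Or.inr c2), if_pos (⟨c2, by rw [hE]; linarith⟩ :
            E < s.im ∧ s.im ≤ E + (L + 7))]
          split_ifs <;> linarith
        · rw [if_neg (by tauto)]
          split_ifs <;> linarith
    have h2 := hcb X hX10 Y hYZ T (L + h) (by linarith)
    have h3 := hcb X hX10 Y hYZ E (L + 7) (by linarith)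
    have h4 : C3 * (L + h + 1) * Real.log X ≤ C3 * (2 * L) * (2 * L) := by
      have : L + h + 1 ≤ 2 * L := by linarith
      gcongr
    have h5 : C3 * (L + 7 + 1) * Real.log X ≤ C3 * (2 * L) * (2 * L) := by
      have : L + 7 + 1 ≤ 2 * L := by linarith
      gcongr
    nlinarith
  have hfm2 : |(∫ t in A..E, cn Y t h) - a * T| ≤ h * ((C2 + 1) * T) := by
    have e1 : h * (T * L / (2 * Real.pi)) = a * T := by
      have : h * (T * L / (2 * Real.pi)) = (h * L) * T / (2 * Real.pi) := by ring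
      rw [this, hha]
      field_simp
    have h1 : |h * tw Y - a * T| ≤ h * (C2 * T) := by
      rw [← e1, ← mul_sub, abs_mul, abs_of_nonneg hh0]
      exact mul_le_mul_of_nonneg_left hnn1 hh0
    have h2 : h * tw (Y.filter fun s => s.im ≤ A + h ∨ E < s.im) ≤ h * T := by
      apply mul_le_mul_of_nonneg_left _ hh0
      refine hedge.trans ?_
      have : 16 * C3 * L ^ 2 ≤ 16 * C3 * L ^ 3 := mul_le_mul_of_nonneg_left hL23 (by positivity)
      linarith
    calc |(∫ t in A..E, cn Y t h) - a * T| ≤ |(∫ t in A..E, cn Y t h) - h * tw Y| +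
        |h * tw Y - a * T| := abs_sub_le _ _ _
      _ ≤ h * T + h * (C2 * T) := add_le_add (hfm.trans h2) h1
      _ = _ := by ring
  -- the second moment in the middle
  have hdec : ∫ t in A..E, cn Y t h ^ 2 = (∫ t in A..E, (cn Y t h - a) ^ 2) +
      2 * a * (∫ t in A..E, cn Y t h) - a ^ 2 * (E - A) := by
    have e1 : (fun t => (cn Y t h - a) ^ 2) = fun t => (cn Y t h ^ 2 - 2 * a * cn Y t h) + a ^ 2 := by
      funext t
      ring
    rw [e1, intervalIntegral.integral_add ((cn_sq_ii Y h A E).sub ((cn_ii Y h A E).const_mul _))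
      (continuous_const.intervalIntegrable _ _),
      intervalIntegral.integral_sub (cn_sq_ii Y h A E) ((cn_ii Y h A E).const_mul _),
      intervalIntegral.integral_const_mul, intervalIntegral.integral_const, smul_eq_mul]
    ring
  have ha0 : 0 ≤ a := by linarith
  have hm1 : |(∫ t in A..E, cn Y t h ^ 2) - T * (a ^ 2 + Real.log a / Real.pi ^ 2)| ≤
      (C1 + 8 * Real.pi * (C2 + 1) + 1) * T := by
    have e1 : (∫ t in A..E, cn Y t h ^ 2) - T * (a ^ 2 + Real.log a / Real.pi ^ 2) =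
        ((∫ t in A..E, (cn Y t h - a) ^ 2) - T / Real.pi ^ 2 * Real.log a) +
        2 * a * ((∫ t in A..E, cn Y t h) - a * T) + a ^ 2 * (T - (E - A)) := by
      rw [hdec]
      ring
    have b1 : |2 * a * ((∫ t in A..E, cn Y t h) - a * T)| ≤ 8 * Real.pi * (C2 + 1) * T := by
      rw [abs_mul, abs_of_nonneg (by positivity)]
      calc 2 * a * |(∫ t in A..E, cn Y t h) - a * T| ≤ 2 * a * (h * ((C2 + 1) * T)) := by
            apply mul_le_mul_of_nonneg_left hfm2 (by positivity)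
        _ = 2 * (a * h) * ((C2 + 1) * T) := by ring
        _ ≤ 2 * (4 * Real.pi) * ((C2 + 1) * T) := by gcongr
        _ = _ := by ring
    have b2 : |a ^ 2 * (T - (E - A))| ≤ 1 * T := by
      have e2 : T - (E - A) = 2 * L + 7 := by rw [hA, hE]; ring
      rw [e2, abs_of_nonneg (by positivity)]
      have : a ^ 2 * (2 * L + 7) ≤ (2 * L) * (3 * L) := by
        apply mul_le_mul ha2 (by linarith) (by positivity) (by positivity)
      nlinarith
    rw [e1]
    refine (abs_add_le _ _).trans ?_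
    refine (add_le_add ((abs_add_le _ _).trans (add_le_add hV1 b1)) b2).trans (le_of_eq (by ring))
  -- the edges
  have hpt : ∀ t, cn Z t h ^ 2 ≤ 256 * C3 ^ 2 * L ^ 2 := by
    intro t
    have h1 := hcb X hX10 Z hZ' t h hh0
    have h2 : C3 * (h + 1) * Real.log X ≤ C3 * 8 * (2 * L) := by
      have : h + 1 ≤ 8 := by linarith
      gcongr
    have h3 := cn_nonneg Z t h
    calc cn Z t h ^ 2 ≤ (C3 * 8 * (2 * L)) ^ 2 := pow_le_pow_left₀ h3 (h1.trans h2) 2
      _ = _ := by ring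
  have hed : ∀ p q : ℝ, p ≤ q → 0 ≤ (∫ t in p..q, cn Z t h ^ 2) ∧
      (∫ t in p..q, cn Z t h ^ 2) ≤ 256 * C3 ^ 2 * L ^ 2 * (q - p) := by
    intro p q hpq
    refine ⟨intervalIntegral.integral_nonneg hpq fun t _ => sq_nonneg _, ?_⟩
    calc (∫ t in p..q, cn Z t h ^ 2) ≤ ∫ _t in p..q, 256 * C3 ^ 2 * L ^ 2 :=
          intervalIntegral.integral_mono_on hpq (cn_sq_ii _ _ _ _)
            (continuous_const.intervalIntegrable _ _) fun t _ => hpt t
      _ = _ := by rw [intervalIntegral.integral_const, smul_eq_mul]; ring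
  obtain ⟨r1, r2⟩ := hed T A hTA
  obtain ⟨r3, r4⟩ := hed E (2 * T) hE2
  have hsplit : ∫ t in T..(2 * T), cn Z t h ^ 2 = (∫ t in T..A, cn Z t h ^ 2) +
      (∫ t in A..E, cn Z t h ^ 2) + ∫ t in E..(2 * T), cn Z t h ^ 2 := by
    rw [intervalIntegral.integral_add_adjacent_intervals (cn_sq_ii _ _ _ _) (cn_sq_ii _ _ _ _),
      intervalIntegral.integral_add_adjacent_intervals (cn_sq_ii _ _ _ _) (cn_sq_ii _ _ _ _)]
  have hsum : 256 * C3 ^ 2 * L ^ 2 * (A - T) + 256 * C3 ^ 2 * L ^ 2 * (2 * T - E) ≤ T := by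
    have e2 : 256 * C3 ^ 2 * L ^ 2 * (A - T) + 256 * C3 ^ 2 * L ^ 2 * (2 * T - E) =
      256 * C3 ^ 2 * L ^ 2 * (2 * L + 7) := by rw [hA, hE]; ring
    rw [e2]
    calc 256 * C3 ^ 2 * L ^ 2 * (2 * L + 7) ≤ 256 * C3 ^ 2 * L ^ 2 * (3 * L) := by
          gcongr
          linarith
      _ = 768 * C3 ^ 2 * L ^ 3 := by ring
      _ ≤ T := by linarith
  rw [hsplit, hmid]
  have hm2 := abs_le.1 hm1
  rw [abs_le]
  constructor
  · nlinarith [hm2.1]
  · nlinarith [hm2.2]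

end Pool.Agent.L5helper84.UV
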