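import Pool.Agent.L5helper84.UV.Var1
import Pool.Agent.H370R2.Dyadic

set_option autoImplicit false

/-! # Counts in short intervals and their integrals -/

namespace Pool.Agent.L5helper84.UV

open Complex Filter Topology MeasureTheory Set
open H370 (mult Zf zset mem_Zf good_zeta zz NN NN_add NN_mono)

/-- the window indicator -/
noncomputable def wi (g h t : ℝ) : ℝ := if t < g ∧ g ≤ t + h then 1 else 0

lemma wi_ind (g h t : ℝ) : wi g h t = (Set.Ico (g - h) g).indicator (fun _ => (1 : ℝ)) t := by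
  unfold wi
  by_cases hc : t < g ∧ g ≤ t + h
  · rw [if_pos hc, Set.indicator_of_mem]
    exact ⟨by linarith [hc.2], hc.1⟩
  · rw [if_neg hc, Set.indicator_of_notMem]
    intro hm
    exact hc ⟨hm.2, by linarith [hm.1]⟩

lemma wi_nonneg (g h t : ℝ) : 0 ≤ wi g h t := by unfold wi; split_ifs <;> norm_num

lemma wi_le_one (g h t : ℝ) : wi g h t ≤ 1 := by unfold wi; split_ifs <;> norm_num

lemma wi_meas (g h : ℝ) : Measurable (wi g h) := by
  have : wi g h = (Set.Ico (g - h) g).indicator (fun _ => (1 : ℝ)) := funext (wi_ind g h)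
  rw [this]
  exact measurable_const.indicator measurableSet_Ico

lemma cn_wi (Z : Finset ℂ) (t h : ℝ) :
    cn Z t h = ∑ s ∈ Z, (mult riemannZeta s : ℝ) * wi s.im h t := rfl

lemma cn_nonneg (Z : Finset ℂ) (t h : ℝ) : 0 ≤ cn Z t h := by
  rw [cn_wi]
  exact Finset.sum_nonneg fun s _ => mul_nonneg (Nat.cast_nonneg _) (wi_nonneg _ _ _)

lemma cn_mono {Z : Finset ℂ} {t h h' : ℝ} (hh : h ≤ h') : cn Z t h ≤ cn Z t h' := by
  rw [cn_wi, cn_wi]
  refine Finset.sum_le_sum fun s _ => mul_le_mul_of_nonneg_left ?_ (Nat.cast_nonneg _)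
  unfold wi
  by_cases hc : t < s.im ∧ s.im ≤ t + h
  · rw [if_pos hc, if_pos ⟨hc.1, by linarith [hc.2]⟩]
  · rw [if_neg hc]
    split_ifs <;> norm_num

/-- the integral of the indicator of an interval inside the range -/
lemma int_ind {p q A E : ℝ} (hA : A < p) (hE : q ≤ E) (hAE : A ≤ E) :
    ∫ t in A..E, (Set.Ico p q).indicator (fun _ => (1 : ℝ)) t = max (q - p) 0 := by
  rw [intervalIntegral.integral_of_le hAE, setIntegral_indicator measurableSet_Ico]
  have h1 : Set.Ioc A E ∩ Set.Ico p q = Set.Ico p q := by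
    apply Set.inter_eq_right.2
    intro x hx
    exact ⟨lt_of_lt_of_le hA hx.1, hx.2.le.trans hE⟩
  rw [h1, setIntegral_const, smul_eq_mul, mul_one, Measure.real, Real.volume_Ico]
  rcases le_total p q with h | h
  · rw [ENNReal.toReal_ofReal (by linarith), max_eq_left (by linarith)]
  · rw [ENNReal.ofReal_of_nonpos (by linarith), max_eq_right (by linarith)]
    simp

lemma int_wi {g h A E : ℝ} (hh : 0 ≤ h) (hA : A < g - h) (hE : g ≤ E) (hAE : A ≤ E) :
    ∫ t in A..E, wi g h t = h := by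
  simp_rw [wi_ind]
  rw [int_ind hA hE hAE, max_eq_left (by linarith)]
  ring

lemma wi_ii (g h A E : ℝ) : IntervalIntegrable (wi g h) volume A E :=
  bdd_ii (wi_meas g h) (M := 1) (fun t => by
    rw [abs_of_nonneg (wi_nonneg _ _ _)]; exact wi_le_one _ _ _) A E

lemma int_wi_le {g h A E : ℝ} (hh : 0 ≤ h) (hAE : A ≤ E) :
    ∫ t in A..E, wi g h t ≤ h := by
  obtain ⟨A', hA'⟩ : ∃ A' : ℝ, A' = min A (g - h) - 1 := ⟨_, rfl⟩
  obtain ⟨E', hE'⟩ : ∃ E' : ℝ, E' = max E g := ⟨_, rfl⟩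
  have h1 : A' < g - h := by rw [hA']; linarith [min_le_right A (g - h)]
  have h2 : A' ≤ A := by rw [hA']; linarith [min_le_left A (g - h)]
  have h3 : E ≤ E' := by rw [hE']; exact le_max_left _ _
  have h4 : g ≤ E' := by rw [hE']; exact le_max_right _ _
  have h5 := int_wi hh h1 h4 (by linarith)
  refine le_trans ?_ h5.le
  apply intervalIntegral.integral_mono_interval h2 hAE h3
  · exact Filter.Eventually.of_forall fun z => wi_nonneg _ _ _
  · exact wi_ii _ _ _ _

lemma int_wi_nonneg {g h A E : ℝ} (hAE : A ≤ E) : 0 ≤ ∫ t in A..E, wi g h t :=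
  intervalIntegral.integral_nonneg hAE fun _ _ => wi_nonneg _ _ _

/-- product of two windows -/
lemma wi_mul (g g' h t : ℝ) : wi g h t * wi g' h t =
    (Set.Ico (max g g' - h) (min g g')).indicator (fun _ => (1 : ℝ)) t := by
  rw [wi_ind, wi_ind]
  have h1 : Set.Ico (max g g' - h) (min g g') = Set.Ico (g - h) g ∩ Set.Ico (g' - h) g' := by
    rw [Set.Ico_inter_Ico]
    congr 1
    rw [max_sub_sub_right]
  rw [h1]
  by_cases c1 : t ∈ Set.Ico (g - h) g <;> by_cases c2 : t ∈ Set.Ico (g' - h) g' <;>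
    simp [Set.indicator, c1, c2]

lemma int_wi_mul {g g' h A E : ℝ} (hA : A < g - h) (hE : g ≤ E) (hAE : A ≤ E) :
    ∫ t in A..E, wi g h t * wi g' h t = max (h - |g - g'|) 0 := by
  simp_rw [wi_mul]
  rw [int_ind (lt_of_lt_of_le hA (sub_le_sub_right (le_max_left _ _) _))
    ((min_le_left _ _).trans hE) hAE]
  congr 1
  rcases le_total g g' with h1 | h1
  · rw [max_eq_right h1, min_eq_left h1, abs_of_nonpos (by linarith)]
    ring
  · rw [max_eq_left h1, min_eq_right h1, abs_of_nonneg (by linarith)]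
    ring

/-- the second moment of the counts as a sum over pairs -/
theorem int_cn_sq {Z : Finset ℂ} {h A E : ℝ} (hZ : ∀ s ∈ Z, A < s.im - h ∧ s.im ≤ E)
    (hAE : A ≤ E) : ∫ t in A..E, cn Z t h ^ 2 = ∑ s ∈ Z, ∑ s' ∈ Z,
      (mult riemannZeta s : ℝ) * (mult riemannZeta s' : ℝ) * max (h - |s.im - s'.im|) 0 := by
  have e1 : ∀ t, cn Z t h ^ 2 = ∑ s ∈ Z, ∑ s' ∈ Z,
      (mult riemannZeta s : ℝ) * (mult riemannZeta s' : ℝ) * (wi s.im h t * wi s'.im h t) := by
    intro t
    rw [cn_wi, sq, Finset.sum_mul_sum]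
    refine Finset.sum_congr rfl fun s _ => Finset.sum_congr rfl fun s' _ => ?_
    ring
  have ii : ∀ s s' : ℂ, IntervalIntegrable (fun t => (mult riemannZeta s : ℝ) *
      (mult riemannZeta s' : ℝ) * (wi s.im h t * wi s'.im h t)) volume A E := by
    intro s s'
    refine IntervalIntegrable.const_mul ?_ _
    refine bdd_ii ((wi_meas _ _).mul (wi_meas _ _)) (M := 1) (fun t => ?_) A E
    simp only [Pi.mul_apply]
    rw [abs_of_nonneg (mul_nonneg (wi_nonneg _ _ _) (wi_nonneg _ _ _))]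
    exact mul_le_one₀ (wi_le_one _ _ _) (wi_nonneg _ _ _) (wi_le_one _ _ _)
  simp_rw [e1]
  rw [intervalIntegral.integral_finsetSum fun s _ => ?_]
  · refine Finset.sum_congr rfl fun s hs => ?_
    rw [intervalIntegral.integral_finsetSum fun s' _ => ii s s']
    refine Finset.sum_congr rfl fun s' _ => ?_
    rw [intervalIntegral.integral_const_mul, int_wi_mul (hZ s hs).1 (hZ s hs).2 hAE]
  · have : (fun t => ∑ s' ∈ Z, (mult riemannZeta s : ℝ) *
      (mult riemannZeta s' : ℝ) * (wi s.im h t * wi s'.im h t)) = ∑ s' ∈ Z, fun t =>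
      (mult riemannZeta s : ℝ) * (mult riemannZeta s' : ℝ) * (wi s.im h t * wi s'.im h t) := by
      funext t
      rw [Finset.sum_apply]
    rw [this]
    exact IntervalIntegrable.sum _ fun s' _ => ii s s'

/-- the total weight of a set of zeros -/
noncomputable def tw (Z : Finset ℂ) : ℝ := ∑ s ∈ Z, (mult riemannZeta s : ℝ)

/-- the first moment of the counts -/
theorem int_cn {Z : Finset ℂ} {h A E : ℝ} (hh : 0 ≤ h) (hAE : A ≤ E) :
    |(∫ t in A..E, cn Z t h) - h * tw Z| ≤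
      h * tw (Z.filter fun s => s.im ≤ A + h ∨ E < s.im) := by
  classical
  have e1 : ∫ t in A..E, cn Z t h = ∑ s ∈ Z, (mult riemannZeta s : ℝ) *
      ∫ t in A..E, wi s.im h t := by
    simp_rw [cn_wi]
    rw [intervalIntegral.integral_finsetSum fun s _ => (wi_ii _ _ _ _).const_mul _]
    simp_rw [intervalIntegral.integral_const_mul]
  have e2 : (∫ t in A..E, cn Z t h) - h * tw Z = ∑ s ∈ Z, (mult riemannZeta s : ℝ) *
      ((∫ t in A..E, wi s.im h t) - h) := by
    rw [e1, tw, Finset.mul_sum, ← Finset.sum_sub_distrib]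
    refine Finset.sum_congr rfl fun s _ => ?_
    ring
  rw [e2]
  refine (Finset.abs_sum_le_sum_abs _ _).trans ?_
  rw [tw, Finset.sum_filter, Finset.mul_sum]
  refine Finset.sum_le_sum fun s _ => ?_
  rw [abs_mul, abs_of_nonneg (Nat.cast_nonneg _)]
  by_cases hc : s.im ≤ A + h ∨ E < s.im
  · rw [if_pos hc, mul_comm h]
    apply mul_le_mul_of_nonneg_left _ (Nat.cast_nonneg _)
    rw [abs_le]
    have h1 := int_wi_le (g := s.im) hh hAE
    have h2 := int_wi_nonneg (g := s.im) (h := h) hAE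
    constructor <;> linarith
  · rw [if_neg hc]
    push Not at hc
    rw [int_wi hh (by linarith [hc.1]) hc.2 hAE]
    simp

lemma cn_tw (Z : Finset ℂ) (t h : ℝ) :
    cn Z t h = tw (Z.filter fun s => t < s.im ∧ s.im ≤ t + h) := by
  classical
  unfold tw
  rw [Finset.sum_filter, cn_wi]
  refine Finset.sum_congr rfl fun s _ => ?_
  unfold wi
  split_ifs <;> simp

lemma tw_mono {Z Z' : Finset ℂ} (h : Z ⊆ Z') : tw Z ≤ tw Z' :=
  Finset.sum_le_sum_of_subset_of_nonneg h fun _ _ _ => Nat.cast_nonneg _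

lemma tw_nonneg (Z : Finset ℂ) : 0 ≤ tw Z := Finset.sum_nonneg fun _ _ => Nat.cast_nonneg _

lemma tw_Zf {U1 U2 : ℝ} (hU : 1 ≤ U1) : tw (Zf riemannZeta U1 U2) = (NN riemannZeta U1 U2 : ℝ) := by
  rw [H370.NN_eq good_zeta hU]
  unfold tw
  push_cast
  rfl

lemma cn_one_bound : ∃ C : ℝ, 0 < C ∧ ∀ X : ℝ, 10 ≤ X → ∀ Z : Finset ℂ,
    (∀ s ∈ Z, s ∈ zset riemannZeta 0 X) → ∀ t : ℝ, cn Z t 1 ≤ C * Real.log X := by
  classical
  obtain ⟨C, hC, hz⟩ := H370.zcount good_zeta
  obtain ⟨C0, hC0⟩ : ∃ C0 : ℝ, C0 = tw (H370.zeta_zeros_finite 10).toFinset := ⟨_, rfl⟩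
  have hC00 : 0 ≤ C0 := by rw [hC0]; exact tw_nonneg _
  refine ⟨C0 + 2 * C, by positivity, fun X hX Z hZ t => ?_⟩
  have hL1 : 1 ≤ Real.log X := by
    rw [Real.le_log_iff_exp_le (by linarith)]
    linarith [Real.exp_one_lt_d9]
  rw [cn_tw]
  rcases le_or_gt t 9 with h9 | h9
  · have h1 : tw (Z.filter fun s => t < s.im ∧ s.im ≤ t + 1) ≤ C0 := by
      rw [hC0]
      apply tw_mono
      intro s hs
      rw [Finset.mem_filter] at hs
      rw [Set.Finite.mem_toFinset]
      obtain ⟨a1, a2, a3, a4, a5⟩ := hZ s hs.1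
      exact ⟨a1, a2, a3, by linarith [hs.2.2], a5⟩
    nlinarith
  · rcases le_or_gt X t with hXt | hXt
    · have h1 : (Z.filter fun s => t < s.im ∧ s.im ≤ t + 1) = ∅ := by
        apply Finset.filter_eq_empty_iff.2
        intro s hs hc
        obtain ⟨a1, a2, a3, a4, a5⟩ := hZ s hs
        linarith [hc.1]
      rw [h1]
      unfold tw
      rw [Finset.sum_empty]
      positivity
    · have h1 : tw (Z.filter fun s => t < s.im ∧ s.im ≤ t + 1) ≤
          (NN riemannZeta ((t + 1) - 1) ((t + 1) + 1) : ℝ) := by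
        rw [← tw_Zf (by linarith)]
        apply tw_mono
        intro s hs
        rw [Finset.mem_filter] at hs
        rw [mem_Zf good_zeta (by linarith)]
        obtain ⟨a1, a2, a3, a4, a5⟩ := hZ s hs.1
        exact ⟨a1, a2, by linarith [hs.2.1], by linarith [hs.2.2], a5⟩
      have h2 := hz (t + 1) (by linarith)
      have h3 : Real.log (t + 1) ≤ 2 * Real.log X := by
        rw [← Real.log_rpow (by linarith)]
        apply Real.log_le_log (by linarith)
        rw [Real.rpow_two]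
        nlinarith
      have h4 : C * Real.log (t + 1) ≤ C * (2 * Real.log X) := mul_le_mul_of_nonneg_left h3 hC.le
      have h5 : 0 ≤ C0 * Real.log X := by positivity
      nlinarith

lemma cn_split (Z : Finset ℂ) (t : ℝ) {a b : ℝ} (ha : 0 ≤ a) (hb : 0 ≤ b) :
    cn Z t (a + b) = cn Z t a + cn Z (t + a) b := by
  rw [cn_wi, cn_wi, cn_wi, ← Finset.sum_add_distrib]
  refine Finset.sum_congr rfl fun s _ => ?_
  rw [← mul_add]
  congr 1
  unfold wi
  by_cases h1 : t < s.im
  · by_cases h2 : s.im ≤ t + a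
    · rw [if_pos ⟨h1, by linarith⟩, if_pos ⟨h1, h2⟩, if_neg (by intro hc; linarith [hc.1]), add_zero]
    · push Not at h2
      by_cases h3 : s.im ≤ t + (a + b)
      · rw [if_pos ⟨h1, h3⟩, if_neg (by intro hc; linarith [hc.2]), if_pos ⟨h2, by linarith⟩, zero_add]
      · rw [if_neg (fun hc => h3 hc.2), if_neg (by intro hc; linarith [hc.2]),
          if_neg (fun hc => h3 (by linarith [hc.2])), add_zero]
  · push Not at h1
    rw [if_neg (by intro hc; linarith [hc.1]), if_neg (by intro hc; linarith [hc.1]),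
      if_neg (by intro hc; linarith [hc.1]), add_zero]

theorem cn_bound : ∃ C : ℝ, 0 < C ∧ ∀ X : ℝ, 10 ≤ X → ∀ Z : Finset ℂ,
    (∀ s ∈ Z, s ∈ zset riemannZeta 0 X) → ∀ t H : ℝ, 0 ≤ H → cn Z t H ≤ C * (H + 1) * Real.log X := by
  obtain ⟨C, hC, h⟩ := cn_one_bound
  refine ⟨C, hC, fun X hX Z hZ t H hH => ?_⟩
  have hL0 : 0 < Real.log X := Real.log_pos (by linarith)
  have key : ∀ n : ℕ, cn Z t (n : ℝ) ≤ C * n * Real.log X := by
    intro n
    induction n with
    | zero =>
      rw [cn_wi]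
      have : ∀ s ∈ Z, (mult riemannZeta s : ℝ) * wi s.im ((0 : ℕ) : ℝ) t = 0 := by
        intro s _
        unfold wi
        rw [if_neg, mul_zero]
        intro hc
        push_cast at hc
        linarith [hc.1, hc.2]
      rw [Finset.sum_eq_zero this]
      simp
    | succ n ih =>
      push_cast
      rw [cn_split Z t (Nat.cast_nonneg n) zero_le_one]
      have := h X hX Z hZ (t + n)
      nlinarith
  have h1 : H ≤ (⌈H⌉₊ : ℝ) := Nat.le_ceil _
  have h2 : (⌈H⌉₊ : ℝ) < H + 1 := Nat.ceil_lt_add_one hH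
  refine (cn_mono h1).trans ((key _).trans ?_)
  have : C * (⌈H⌉₊ : ℝ) ≤ C * (H + 1) := mul_le_mul_of_nonneg_left h2.le hC.le
  exact mul_le_mul_of_nonneg_right this hL0.le

end Pool.Agent.L5helper84.UV
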