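import Pool.Agent.L5helper84.UV.Id

set_option autoImplicit false

/-! # The prime sum and the error function are almost orthogonal -/

namespace Pool.Agent.L5helper84.UV

open Complex Filter Topology MeasureTheory Set
open H370 (mult Zf zset mem_Zf good_zeta zz)
open Pool.Agent.TH850.UV
open ArithmeticFunction (vonMangoldt)

/-- the derivative of the integrated prime sum -/
noncomputable def DbD (l h : ℝ) (X : ℕ) (t : ℝ) : ℝ :=
  (∑ n ∈ Finset.Icc 2 X, (kap l h n * (-(Real.log n : ℂ) * I)) * (n : ℂ) ^ (-(t : ℂ) * I)).re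

lemma cpow_deriv (n : ℕ) (hn : 2 ≤ n) (t : ℝ) :
    HasDerivAt (fun t : ℝ => (n : ℂ) ^ (-(t : ℂ) * I))
      ((-(Real.log n : ℂ) * I) * (n : ℂ) ^ (-(t : ℂ) * I)) t := by
  have hn0 : (n : ℂ) ≠ 0 := by exact_mod_cast (by omega : n ≠ 0)
  have h1 : HasDerivAt (fun z : ℂ => -z * I) (-1 * I) (t : ℂ) :=
    ((hasDerivAt_id' (t : ℂ)).neg).mul_const I
  have h2 := (h1.const_cpow (c := (n : ℂ)) (Or.inl hn0)).comp_ofReal
  refine h2.congr_deriv ?_
  rw [← Complex.natCast_log]
  ring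

lemma Db_deriv (l h : ℝ) (X : ℕ) (t : ℝ) : HasDerivAt (Db l h X) (DbD l h X t) t := by
  unfold Db DbD
  have h1 : HasDerivAt (fun t : ℝ => ∑ n ∈ Finset.Icc 2 X, kap l h n * (n : ℂ) ^ (-(t : ℂ) * I))
      (∑ n ∈ Finset.Icc 2 X, (kap l h n * (-(Real.log n : ℂ) * I)) * (n : ℂ) ^ (-(t : ℂ) * I)) t := by
    refine HasDerivAt.fun_sum fun n hn => ?_
    have h2 := (cpow_deriv n (Finset.mem_Icc.1 hn).1 t).const_mul (kap l h n)
    refine h2.congr_deriv ?_
    ring
  have h3 := Complex.reCLM.hasFDerivAt.comp_hasDerivAt t h1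
  exact h3

lemma Db_cont (l h : ℝ) (X : ℕ) : Continuous (Db l h X) :=
  continuous_iff_continuousAt.2 fun t => (Db_deriv l h X t).continuousAt

lemma DbD_cont (l h : ℝ) (X : ℕ) : Continuous (DbD l h X) := by
  unfold DbD
  refine Complex.continuous_re.comp (continuous_finsetSum _ fun n hn => ?_)
  have hn0 : (n : ℂ) ≠ 0 := by
    exact_mod_cast (by have := (Finset.mem_Icc.1 hn).1; omega : n ≠ 0)
  exact continuous_const.mul (Continuous.const_cpow (by fun_prop) (Or.inl hn0))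

lemma norm_cpow_one (n : ℕ) (hn : 2 ≤ n) (t : ℝ) : ‖(n : ℂ) ^ (-(t : ℂ) * I)‖ = 1 := by
  have hn0 : (0 : ℝ) < n := by exact_mod_cast (by omega : 0 < n)
  rw [← Complex.ofReal_natCast, Complex.norm_cpow_eq_rpow_re_of_pos hn0]
  simp

lemma Db_abs {l : ℝ} (hl : 0 < l) (h : ℝ) (X : ℕ) (t : ℝ) : |Db l h X t| ≤ X := by
  unfold Db
  refine (Complex.abs_re_le_norm _).trans ((norm_sum_le _ _).trans ?_)
  calc ∑ n ∈ Finset.Icc 2 X, ‖kap l h n * (n : ℂ) ^ (-(t : ℂ) * I)‖ ≤
      ∑ n ∈ Finset.Icc 2 X, (1 : ℝ) := by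
        refine Finset.sum_le_sum fun n hn => ?_
        have hn2 := (Finset.mem_Icc.1 hn).1
        rw [norm_mul, norm_cpow_one n hn2, mul_one]
        exact kap_le hl h n hn2
    _ ≤ X := by
        rw [Finset.sum_const, nsmul_eq_mul, mul_one, Nat.card_Icc]
        exact_mod_cast (by omega : X + 1 - 2 ≤ X)

lemma kapD_sq {l : ℝ} (hl : 0 < l) (h : ℝ) (n : ℕ) (hn : 2 ≤ n) :
    ‖kap l h n * (-(Real.log n : ℂ) * I)‖ ^ 2 ≤ vonMangoldt n ^ 2 / n := by
  have hpi := Real.pi_pos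
  have hn0 : (0 : ℝ) < n := by exact_mod_cast (by omega : 0 < n)
  have hlog : 0 < Real.log n := Real.log_pos (by exact_mod_cast (by omega : 1 < n))
  rw [norm_mul, norm_mul, norm_neg, Complex.norm_real, Complex.norm_I, mul_one,
    Real.norm_of_nonneg hlog.le, mul_pow, kap_sq hl h n hn]
  have h3 : 1 - Real.cos (h * Real.log n) ≤ 2 := by
    linarith [Real.neg_one_le_cos (h * Real.log n)]
  have h3' : 0 ≤ 1 - Real.cos (h * Real.log n) := by
    linarith [Real.cos_le_one (h * Real.log n)]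
  have h4 : (l * ggo l n) ^ 2 ≤ 2 * Real.pi := by
    have h5 := ggo_le hl n
    rw [le_div_iff₀ hl] at h5
    have h6 : 0 ≤ l * ggo l n := mul_nonneg hl.le (ggo_nonneg l n)
    calc (l * ggo l n) ^ 2 ≤ Real.sqrt (2 * Real.pi) ^ 2 :=
          pow_le_pow_left₀ h6 (by linarith) 2
      _ = 2 * Real.pi := Real.sq_sqrt (by positivity)
  have e : 1 / Real.pi ^ 3 * (vonMangoldt n ^ 2 / (n * Real.log n ^ 2) *
      (1 - Real.cos (h * Real.log n))) * (l * ggo l n) ^ 2 * Real.log n ^ 2 =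
      vonMangoldt n ^ 2 / n * ((1 - Real.cos (h * Real.log n)) * (l * ggo l n) ^ 2 / Real.pi ^ 3) := by
    field_simp
  rw [e]
  have h7 : (1 - Real.cos (h * Real.log n)) * (l * ggo l n) ^ 2 / Real.pi ^ 3 ≤ 1 := by
    rw [div_le_one (by positivity)]
    calc (1 - Real.cos (h * Real.log n)) * (l * ggo l n) ^ 2 ≤ 2 * (2 * Real.pi) :=
          mul_le_mul h3 h4 (sq_nonneg _) (by norm_num)
      _ ≤ Real.pi ^ 3 := by nlinarith [Real.pi_gt_three, sq_nonneg Real.pi]
  have h8 : 0 ≤ vonMangoldt n ^ 2 / (n : ℝ) := by positivity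
  nlinarith

lemma XT_le {T : ℝ} (hT : 1 ≤ T) : (XT T : ℝ) ≤ T ^ (1 / 8 : ℝ) :=
  Nat.floor_le (by positivity)

/-- the mean square of the derivative -/
lemma DbD_ms {lam : ℝ} (hlam : 16 ≤ lam) {T : ℝ} (hT : Real.exp 1 ≤ T) (h : ℝ) {A B : ℝ}
    (hA : T ≤ A) (hAB : A ≤ B) (hB : B ≤ 2 * T) :
    ∫ t in A..B, DbD (Real.log T / lam) h (XT T) t ^ 2 ≤ 20 * T * Real.log T ^ 2 := by
  have he := Real.add_one_le_exp (1 : ℝ)
  have hT1 : 1 ≤ T := by linarith
  have hT0 : 0 < T := by linarith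
  have hL1 : 1 ≤ Real.log T := by rwa [Real.le_log_iff_exp_le hT0]
  have hl : 0 < Real.log T / lam := by positivity
  set l := Real.log T / lam with hld
  have h1 := dpm (XT T) (fun n => kap l h n * (-(Real.log n : ℂ) * I)) A B hAB
  have h2 := (abs_le.1 h1).2
  change (∫ t in A..B, DbD l h (XT T) t ^ 2) - _ ≤ _ at h2
  have hX1 : 1 ≤ XT T := by
    unfold XT
    rw [Nat.one_le_floor_iff]
    exact Real.one_le_rpow hT1 (by norm_num)
  have hX1' : (1 : ℝ) ≤ XT T := by exact_mod_cast hX1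
  have hXT := XT_le hT1
  have hlogX : Real.log (XT T) ≤ Real.log T := by
    apply Real.log_le_log (by linarith)
    refine hXT.trans ?_
    calc T ^ (1 / 8 : ℝ) ≤ T ^ (1 : ℝ) := Real.rpow_le_rpow_of_exponent_le hT1 (by norm_num)
      _ = T := Real.rpow_one _
  have hlogX0 : 0 ≤ Real.log (XT T) := Real.log_nonneg hX1'
  have hs1 : ∑ n ∈ Finset.Icc 2 (XT T), ‖kap l h n * (-(Real.log n : ℂ) * I)‖ ^ 2 ≤
      20 * Real.log T ^ 2 := by
    calc ∑ n ∈ Finset.Icc 2 (XT T), ‖kap l h n * (-(Real.log n : ℂ) * I)‖ ^ 2 ≤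
        ∑ n ∈ Finset.Icc 2 (XT T), vonMangoldt n ^ 2 / n :=
          Finset.sum_le_sum fun n hn => kapD_sq hl h n (Finset.mem_Icc.1 hn).1
      _ ≤ ∑ n ∈ Finset.Icc 1 (XT T), vonMangoldt n ^ 2 / n :=
          Finset.sum_le_sum_of_subset_of_nonneg
            (Finset.Icc_subset_Icc_left (by norm_num)) fun n _ _ => by positivity
      _ ≤ (Real.log (XT T)) ^ 2 / 2 + 8 * (Real.log (XT T) + 1) := H370.lam_sq_sum_nat _ hX1
      _ ≤ 20 * Real.log T ^ 2 := by nlinarith
  have hs2 : ∑ n ∈ Finset.Icc 2 (XT T), ‖kap l h n * (-(Real.log n : ℂ) * I)‖ ≤ (XT T : ℝ) ^ 2 := by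
    calc ∑ n ∈ Finset.Icc 2 (XT T), ‖kap l h n * (-(Real.log n : ℂ) * I)‖ ≤
        ∑ n ∈ Finset.Icc 2 (XT T), (XT T : ℝ) := by
          refine Finset.sum_le_sum fun n hn => ?_
          have hn2 := (Finset.mem_Icc.1 hn).1
          have hnX : (n : ℝ) ≤ XT T := by exact_mod_cast (Finset.mem_Icc.1 hn).2
          have hn0 : (0 : ℝ) < n := by exact_mod_cast (by omega : 0 < n)
          have hlog : 0 < Real.log n := Real.log_pos (by exact_mod_cast (by omega : 1 < n))
          rw [norm_mul, norm_mul, norm_neg, Complex.norm_real, Complex.norm_I, mul_one,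
            Real.norm_of_nonneg hlog.le]
          have h3 := kap_le hl h n hn2
          have h4 := Real.log_le_sub_one_of_pos hn0
          calc ‖kap l h n‖ * Real.log n ≤ 1 * Real.log n :=
                mul_le_mul_of_nonneg_right h3 hlog.le
            _ ≤ _ := by linarith
      _ ≤ (XT T : ℝ) * XT T := by
          rw [Finset.sum_const, nsmul_eq_mul, Nat.card_Icc]
          apply mul_le_mul_of_nonneg_right _ (by linarith)
          exact_mod_cast (by omega : XT T + 1 - 2 ≤ XT T)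
      _ = _ := by ring
  have hs20 : 0 ≤ ∑ n ∈ Finset.Icc 2 (XT T), ‖kap l h n * (-(Real.log n : ℂ) * I)‖ :=
    Finset.sum_nonneg fun n _ => norm_nonneg _
  have hX5 : (XT T : ℝ) ^ 5 ≤ T := by
    calc (XT T : ℝ) ^ 5 ≤ (T ^ (1 / 8 : ℝ)) ^ 5 := pow_le_pow_left₀ (by linarith) hXT 5
      _ = T ^ (5 / 8 : ℝ) := by
          rw [← Real.rpow_natCast, ← Real.rpow_mul hT0.le]; norm_num
      _ ≤ T ^ (1 : ℝ) := Real.rpow_le_rpow_of_exponent_le hT1 (by norm_num)
      _ = T := Real.rpow_one _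
  have h5 : 4 * (XT T : ℝ) * (∑ n ∈ Finset.Icc 2 (XT T), ‖kap l h n * (-(Real.log n : ℂ) * I)‖) ^ 2 ≤
      4 * T := by
    calc 4 * (XT T : ℝ) * (∑ n ∈ Finset.Icc 2 (XT T), ‖kap l h n * (-(Real.log n : ℂ) * I)‖) ^ 2 ≤
        4 * (XT T : ℝ) * ((XT T : ℝ) ^ 2) ^ 2 := by gcongr
      _ = 4 * (XT T : ℝ) ^ 5 := by ring
      _ ≤ 4 * T := by linarith
  have h6 : (B - A) / 2 * ∑ n ∈ Finset.Icc 2 (XT T), ‖kap l h n * (-(Real.log n : ℂ) * I)‖ ^ 2 ≤
      T / 2 * (20 * Real.log T ^ 2) := by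
    apply mul_le_mul (by linarith) hs1 (Finset.sum_nonneg fun n _ => by positivity) (by linarith)
  have h7 : T ≤ T * Real.log T ^ 2 := by
    have : 1 ≤ Real.log T ^ 2 := one_le_pow₀ hL1
    nlinarith
  linarith

lemma Qk_cont (y : ℝ) : Continuous (Qk y) :=
  continuous_iff_continuousAt.2 fun x => (Qk_deriv y x).continuousAt

lemma Jk_meas (y : ℝ) : Measurable (Jk y) := by
  unfold Jk
  exact (Qk_cont y).measurable.sub (Measurable.ite measurableSet_Ioi measurable_const measurable_const)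

lemma EE_meas (l : ℝ) (Z : Finset ℂ) : Measurable (EE l Z) := by
  unfold EE
  refine Finset.measurable_fun_sum _ fun s _ => ?_
  have h1 : Measurable fun t : ℝ => xx l s t := by unfold xx; fun_prop
  exact ((Jk_meas (yy l s)).comp h1).const_mul _

/-- the error function is bounded by the weighted local sum -/
lemma EE_le : ∃ C : ℝ, 0 < C ∧ ∀ (l : ℝ) (Z : Finset ℂ) (t : ℝ), |EE l Z t| ≤ C * Wt l Z t := by
  obtain ⟨C, hC, h⟩ := Jk_le
  refine ⟨C, hC, fun l Z t => ?_⟩
  rw [Wt_eq, Finset.mul_sum]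
  unfold EE
  refine (Finset.abs_sum_le_sum_abs _ _).trans (Finset.sum_le_sum fun s _ => ?_)
  rw [abs_mul, abs_of_nonneg (Nat.cast_nonneg _)]
  calc (mult riemannZeta s : ℝ) * |Jk (yy l s) (xx l s t)| ≤
      (mult riemannZeta s : ℝ) * (C * Real.exp (Real.pi * |yy l s|) / (1 + xx l s t ^ 2)) :=
        mul_le_mul_of_nonneg_left (h _ _) (Nat.cast_nonneg _)
    _ = _ := by ring

lemma EE_ii (l : ℝ) (Z : Finset ℂ) (σ A B : ℝ) :
    IntervalIntegrable (fun t => EE l Z (t + σ)) volume A B := by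
  obtain ⟨C, hC, h⟩ := EE_le
  have hW : Continuous fun t => C * Wt l Z (t + σ) :=
    continuous_const.mul ((Wt_cont l Z).comp (continuous_add_const σ))
  refine (hW.intervalIntegrable A B).mono_fun ?_ ?_
  · exact ((EE_meas l Z).comp (measurable_add_const σ)).aestronglyMeasurable
  · refine Eventually.of_forall fun t => ?_
    simp only [Real.norm_eq_abs]
    exact (h l Z (t + σ)).trans (le_abs_self _)

/-- the cross term -/
theorem cross {lam C2 : ℝ} (hlam : 16 ≤ lam) (hC2 : 0 < C2)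
    (hW : ∀ᶠ T : ℝ in atTop, ∀ U1 U2 : ℝ, T ≤ U1 → U2 ≤ 2 * T →
      (∀ A B : ℝ, T / 2 ≤ A → A ≤ B → B ≤ 4 * T →
        ∫ t in A..B, Wt (Real.log T / lam) (Zf riemannZeta U1 U2) t ^ 2 ≤ C2 * T) ∧
      ∀ t : ℝ, T / 2 ≤ t → t ≤ 4 * T →
        Wt (Real.log T / lam) (Zf riemannZeta U1 U2) t ^ 2 ≤ C2 * (T * Real.log T)) :
    ∃ C : ℝ, 0 < C ∧ ∀ᶠ T : ℝ in atTop, ∀ U1 U2 : ℝ, T ≤ U1 → U2 ≤ 2 * T →
      ∀ h σ A B : ℝ, 0 ≤ σ → σ ≤ T → T ≤ A → A ≤ B → B ≤ 2 * T →
        |∫ t in A..B, Db (Real.log T / lam) h (XT T) t *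
          EE (Real.log T / lam) (Zf riemannZeta U1 U2) (t + σ)| ≤ C * T := by
  obtain ⟨CP, hCP, hP⟩ := Pk_exists
  choose P hPc hPd hPb using hP
  have hpi := Real.pi_pos
  have hlam0 : 0 < lam := by linarith
  refine ⟨2 * Real.pi * lam * (CP * (12 + 2 * C2)), by positivity, ?_⟩
  filter_upwards [hW, eventually_ge_atTop (Real.exp 1)] with T hWT hT U1 U2 hU1 hU2 h σ A B hσ0 hσ
    hA hAB hB
  have he := Real.add_one_le_exp (1 : ℝ)
  have hT1 : 1 ≤ T := by linarith
  have hT0 : 0 < T := by linarith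
  have hL1 : 1 ≤ Real.log T := by rwa [Real.le_log_iff_exp_le hT0]
  obtain ⟨hW1, hW2⟩ := hWT U1 U2 hU1 hU2
  have hDm := DbD_ms hlam hT h hA hAB hB
  obtain ⟨L, hL⟩ : ∃ L : ℝ, L = Real.log T := ⟨_, rfl⟩
  obtain ⟨l, hl⟩ : ∃ l : ℝ, l = Real.log T / lam := ⟨_, rfl⟩
  obtain ⟨Z, hZ⟩ : ∃ Z : Finset ℂ, Z = Zf riemannZeta U1 U2 := ⟨_, rfl⟩
  have hl0 : 0 < l := by rw [hl]; positivity
  rw [← hl] at hDm hW1 hW2 ⊢
  rw [← hZ] at hW1 hW2 ⊢
  rw [← hL] at hDm hL1 hW2
  obtain ⟨w, hw⟩ : ∃ w : ℝ, w = l / (2 * Real.pi) := ⟨_, rfl⟩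
  have hw0 : 0 < w := by rw [hw]; positivity
  -- the sum of the primitives
  obtain ⟨G, hG⟩ : ∃ G : ℝ → ℝ, G = fun t => ∑ s ∈ Z, (mult riemannZeta s : ℝ) *
      P (yy l s) (xx l s (t + σ)) := ⟨_, rfl⟩
  have hGc : Continuous G := by
    rw [hG]
    refine continuous_finsetSum _ fun s _ => continuous_const.mul ?_
    have h1 : Continuous fun t : ℝ => xx l s (t + σ) := by unfold xx; fun_prop
    exact (hPc (yy l s)).comp h1
  have hGb : ∀ t, |G t| ≤ CP * Wt l Z (t + σ) := by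
    intro t
    rw [hG, Wt_eq, Finset.mul_sum]
    refine (Finset.abs_sum_le_sum_abs _ _).trans (Finset.sum_le_sum fun s _ => ?_)
    rw [abs_mul, abs_of_nonneg (Nat.cast_nonneg _)]
    calc (mult riemannZeta s : ℝ) * |P (yy l s) (xx l s (t + σ))| ≤
        (mult riemannZeta s : ℝ) * (CP * Real.exp (Real.pi * |yy l s|) /
          (1 + xx l s (t + σ) ^ 2)) := mul_le_mul_of_nonneg_left (hPb _ _) (Nat.cast_nonneg _)
      _ = _ := by ring
  have hGd : ∀ t, HasDerivWithinAt G (-(w * EE l Z (t + σ))) (Ioi t) t := by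
    intro t
    have h1 : HasDerivWithinAt (fun t => ∑ s ∈ Z, (mult riemannZeta s : ℝ) *
        P (yy l s) (xx l s (t + σ))) (∑ s ∈ Z, (mult riemannZeta s : ℝ) *
        (Jk (yy l s) (xx l s (t + σ)) * (-1 * w))) (Ioi t) t := by
      refine HasDerivWithinAt.fun_sum fun s _ => ?_
      have g1 : HasDerivWithinAt (fun t : ℝ => xx l s (t + σ)) (-1 * w) (Ioi t) t := by
        unfold xx
        rw [hw]
        exact ((((hasDerivAt_id' t).add_const σ).const_sub s.im).mul_const _).hasDerivWithinAt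
      have g2 : MapsTo (fun t : ℝ => xx l s (t + σ)) (Ioi t) (Iio (xx l s (t + σ))) := by
        intro u hu
        rw [mem_Ioi] at hu
        rw [mem_Iio]
        unfold xx
        rw [← hw]
        exact mul_lt_mul_of_pos_right (by linarith) hw0
      exact ((hPd (yy l s) (xx l s (t + σ))).comp t g1 g2).const_mul _
    rw [hG]
    refine h1.congr_deriv ?_
    unfold EE
    rw [Finset.mul_sum, ← Finset.sum_neg_distrib]
    exact Finset.sum_congr rfl fun s _ => by ring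
  have hDc := Db_cont l h (XT T)
  have hDDc := DbD_cont l h (XT T)
  have hF := intervalIntegral.integral_eq_sub_of_hasDeriv_right (a := A) (b := B)
    (f := fun t => Db l h (XT T) t * G t)
    (f' := fun t => DbD l h (XT T) t * G t + Db l h (XT T) t * (-(w * EE l Z (t + σ))))
    (hDc.mul hGc).continuousOn
    (fun t _ => (Db_deriv l h (XT T) t).hasDerivWithinAt.mul (hGd t))
    (((hDDc.mul hGc).intervalIntegrable _ _).add
      ((((EE_ii l Z σ A B).const_mul w).neg).continuousOn_mul hDc.continuousOn))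
  have hi1 : IntervalIntegrable (fun t => DbD l h (XT T) t * G t) volume A B :=
    (hDDc.mul hGc).intervalIntegrable _ _
  have hi2 : IntervalIntegrable (fun t => Db l h (XT T) t * EE l Z (t + σ)) volume A B :=
    (EE_ii l Z σ A B).continuousOn_mul hDc.continuousOn
  have e1 : (fun t => DbD l h (XT T) t * G t + Db l h (XT T) t * (-(w * EE l Z (t + σ)))) =
      fun t => DbD l h (XT T) t * G t - w * (Db l h (XT T) t * EE l Z (t + σ)) := by
    funext t; ring
  rw [e1, intervalIntegral.integral_sub hi1 (hi2.const_mul w),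
    intervalIntegral.integral_const_mul] at hF
  have hWc := Wt_cont l Z
  have hWs : Continuous fun t => Wt l Z (t + σ) := hWc.comp (continuous_add_const σ)
  -- the integral of the derivative
  have b1 : |∫ t in A..B, DbD l h (XT T) t * G t| ≤ CP * (T * L * (10 + C2)) := by
    have h1 : |∫ t in A..B, DbD l h (XT T) t * G t| ≤
        ∫ t in A..B, (CP * (1 / (2 * L)) * DbD l h (XT T) t ^ 2 + CP * (L / 2) * Wt l Z (t + σ) ^ 2) := by
      rw [← Real.norm_eq_abs]
      refine (intervalIntegral.norm_integral_le_integral_norm hAB).trans ?_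
      refine intervalIntegral.integral_mono_on hAB (hi1.norm)
        (Continuous.intervalIntegrable (by fun_prop) _ _) fun t _ => ?_
      rw [Real.norm_eq_abs, abs_mul]
      have h2 := hGb t
      have h3 := abs_nonneg (DbD l h (XT T) t)
      calc |DbD l h (XT T) t| * |G t| ≤ |DbD l h (XT T) t| * (CP * Wt l Z (t + σ)) :=
            mul_le_mul_of_nonneg_left h2 h3
        _ ≤ CP * (1 / (2 * L)) * DbD l h (XT T) t ^ 2 + CP * (L / 2) * Wt l Z (t + σ) ^ 2 := by
            rw [← sq_abs (DbD l h (XT T) t)]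
            have h4 : 0 < L := by linarith
            have h5 : CP * (1 / (2 * L)) * |DbD l h (XT T) t| ^ 2 +
                CP * (L / 2) * Wt l Z (t + σ) ^ 2 - |DbD l h (XT T) t| * (CP * Wt l Z (t + σ)) =
                CP / (2 * L) * (|DbD l h (XT T) t| - L * Wt l Z (t + σ)) ^ 2 := by
              field_simp
              ring
            have h6 : 0 ≤ CP / (2 * L) * (|DbD l h (XT T) t| - L * Wt l Z (t + σ)) ^ 2 := by
              positivity
            linarith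
    refine h1.trans ?_
    rw [intervalIntegral.integral_add (Continuous.intervalIntegrable (by fun_prop) _ _)
      (Continuous.intervalIntegrable (by fun_prop) _ _), intervalIntegral.integral_const_mul,
      intervalIntegral.integral_const_mul,
      intervalIntegral.integral_comp_add_right (fun t => Wt l Z t ^ 2) σ]
    have h2 := hW1 (A + σ) (B + σ) (by linarith) (by linarith) (by linarith)
    have h4 : 0 < L := by linarith
    calc CP * (1 / (2 * L)) * (∫ t in A..B, DbD l h (XT T) t ^ 2) +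
          CP * (L / 2) * (∫ t in (A + σ)..(B + σ), Wt l Z t ^ 2) ≤
        CP * (1 / (2 * L)) * (20 * T * L ^ 2) + CP * (L / 2) * (C2 * T) := by gcongr
      _ = CP * (T * L * (10 + C2 / 2)) := by field_simp; ring
      _ ≤ _ := by
          have : 0 ≤ CP * (T * L) * C2 := by positivity
          nlinarith
  -- the boundary terms
  have b2 : ∀ t : ℝ, T ≤ t → t ≤ 2 * T → |Db l h (XT T) t * G t| ≤ CP * (T * L * (1 / 2 + C2 / 2)) := by
    intro t ht1 ht2
    have h1 := Db_abs hl0 h (XT T) t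
    have h2 := hGb t
    have h3 := hW2 (t + σ) (by linarith) (by linarith)
    have hX : (XT T : ℝ) ^ 2 ≤ T := by
      calc (XT T : ℝ) ^ 2 ≤ (T ^ (1 / 8 : ℝ)) ^ 2 :=
            pow_le_pow_left₀ (Nat.cast_nonneg _) (XT_le hT1) 2
        _ = T ^ (1 / 4 : ℝ) := by
            rw [← Real.rpow_natCast, ← Real.rpow_mul hT0.le]; norm_num
        _ ≤ T ^ (1 : ℝ) := Real.rpow_le_rpow_of_exponent_le hT1 (by norm_num)
        _ = T := Real.rpow_one _
    have hTL : T ≤ T * L := by nlinarith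
    have hWn := Wt_nonneg l Z (t + σ)
    rw [abs_mul]
    calc |Db l h (XT T) t| * |G t| ≤ XT T * (CP * Wt l Z (t + σ)) :=
          mul_le_mul h1 h2 (abs_nonneg _) (Nat.cast_nonneg _)
      _ = CP * (XT T * Wt l Z (t + σ)) := by ring
      _ ≤ CP * (T * L * (1 / 2 + C2 / 2)) := by
          apply mul_le_mul_of_nonneg_left _ hCP.le
          have h4 : (XT T : ℝ) * Wt l Z (t + σ) ≤ ((XT T : ℝ) ^ 2 + Wt l Z (t + σ) ^ 2) / 2 := by
            nlinarith [sq_nonneg ((XT T : ℝ) - Wt l Z (t + σ))]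
          nlinarith
  have b3 := b2 A hA (by linarith)
  have b4 := b2 B (by linarith) hB
  obtain ⟨J, hJ⟩ : ∃ J : ℝ, J = ∫ t in A..B, Db l h (XT T) t * EE l Z (t + σ) := ⟨_, rfl⟩
  rw [← hJ] at hF ⊢
  have hwJ : w * |J| ≤ CP * (T * L * (11 + 2 * C2)) := by
    have e2 : w * J = (∫ t in A..B, DbD l h (XT T) t * G t) -
        (Db l h (XT T) B * G B - Db l h (XT T) A * G A) := by linarith
    rw [← abs_of_pos hw0, ← abs_mul, e2]
    have e3 := (abs_sub (∫ t in A..B, DbD l h (XT T) t * G t)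
      (Db l h (XT T) B * G B - Db l h (XT T) A * G A))
    have e4 := abs_sub (Db l h (XT T) B * G B) (Db l h (XT T) A * G A)
    have e5 : CP * (T * L * (10 + C2)) + (CP * (T * L * (1 / 2 + C2 / 2)) +
        CP * (T * L * (1 / 2 + C2 / 2))) = CP * (T * L * (11 + 2 * C2)) := by ring
    linarith
  have hwL : w = L / (2 * Real.pi * lam) := by
    rw [hw, hl, hL]
    field_simp
  rw [hwL, div_mul_eq_mul_div, div_le_iff₀ (by positivity)] at hwJ
  have hL0 : 0 < L := by linarith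
  have h9 : L * |J| ≤ L * (2 * Real.pi * lam * (CP * (12 + 2 * C2)) * T) := by
    refine hwJ.trans ?_
    have : 0 ≤ CP * T * L * (2 * Real.pi * lam) := by positivity
    nlinarith
  exact le_of_mul_le_mul_left h9 hL0

end Pool.Agent.L5helper84.UV
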