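import Pool.Agent.L5helper84.UV.Mom3b

set_option autoImplicit false

/-! # The mean discrepancy -/

namespace Pool.Agent.L5helper84.UV

open Complex Filter Topology MeasureTheory Set
open H370 (mult Zf zset mem_Zf good_zeta zz NN NN_add NN_mono)

/-- the mean discrepancy is half the excess of the diagonal, up to a bounded error -/
theorem mean_id : ∃ C X0 : ℝ, 0 < C ∧ 10 ≤ X0 ∧ ∀ T : ℝ, X0 ≤ T →
    ∀ Z : Finset ℂ, (∀ s, s ∈ Z ↔ s ∈ zset riemannZeta 0 T) →
    ∀ a : ℝ, 1 ≤ a → a ^ 2 ≤ Real.log T →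
      |(∫ u in (0 : ℝ)..a, ((Pn Z (2 * Real.pi / Real.log T * u) - Pn Z 0) / WW T - Ph u)) +
        a * (Pn Z 0 / WW T - 1) / 2| ≤ C := by
  obtain ⟨C, X0, hC, hX0, h⟩ := pair_mean
  have hpi := Real.pi_pos
  refine ⟨C, X0, hC, hX0, fun T hT Z hZ a ha ha2 => ?_⟩
  have h1 := h T hT Z hZ a ha ha2
  have hT10 : 10 ≤ T := hX0.trans hT
  have hL0 : 0 < Real.log T := Real.log_pos (by linarith)
  obtain ⟨c, hc⟩ : ∃ c : ℝ, c = 2 * Real.pi / Real.log T := ⟨_, rfl⟩
  have hc0 : 0 < c := by rw [hc]; positivity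
  obtain ⟨W, hW⟩ : ∃ W : ℝ, W = WW T := ⟨_, rfl⟩
  have hW0 : 0 < W := by rw [hW]; unfold WW; have : 0 < T := by linarith
                         positivity
  rw [show T * Real.log T / (2 * Real.pi) = WW T from rfl, ← hc, ← hW] at h1
  rw [← hc, ← hW]
  have e : (∫ u in (0 : ℝ)..a, ((Pn Z (c * u) - Pn Z 0) / W - Ph u)) +
      a * (Pn Z 0 / W - 1) / 2 =
      (∫ u in (0 : ℝ)..a, (Pn Z (c * u) - Pn Z 0 / 2 - W * (1 / 2 + Ph u))) / W := by
    have i1 : IntervalIntegrable (fun u => Pn Z (c * u)) volume 0 a := Pn_ii Z hc0 _ _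
    have i2 : IntervalIntegrable Ph volume 0 a := Ph_cont.intervalIntegrable _ _
    have e1 : (fun u => (Pn Z (c * u) - Pn Z 0) / W - Ph u) =
        fun u => (1 / W) * Pn Z (c * u) - (Pn Z 0 / W + Ph u) := by
      funext u
      ring
    have e2 : (fun u => Pn Z (c * u) - Pn Z 0 / 2 - W * (1 / 2 + Ph u)) =
        fun u => Pn Z (c * u) - ((Pn Z 0 / 2 + W / 2) + W * Ph u) := by
      funext u
      ring
    rw [e1, e2, intervalIntegral.integral_sub (i1.const_mul _)
      ((continuous_const.intervalIntegrable _ _).add i2),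
      intervalIntegral.integral_sub i1 ((continuous_const.intervalIntegrable _ _).add
        (i2.const_mul _)),
      intervalIntegral.integral_add (continuous_const.intervalIntegrable _ _) i2,
      intervalIntegral.integral_add (continuous_const.intervalIntegrable _ _) (i2.const_mul _),
      intervalIntegral.integral_const, intervalIntegral.integral_const,
      intervalIntegral.integral_const_mul, intervalIntegral.integral_const_mul, smul_eq_mul,
      smul_eq_mul, sub_zero]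
    field_simp
    ring
  rw [e, abs_div, abs_of_pos hW0, div_le_iff₀ hW0]
  exact h1

/-- uniformity of the upper bounds -/
lemma upper_unif {Z : ℝ → Finset ℂ} {𝓕 : Filter ℝ} (hF : 𝓕 ≤ atTop) {β₀ : ℝ} (hβ₀ : 0 ≤ β₀)
    (hyp : ∀ β : ℝ, β₀ ≤ β → ∀ ε : ℝ, 0 < ε → ∀ᶠ T in 𝓕,
      Pn (Z T) (2 * Real.pi / Real.log T * β) ≤ WW T * (1 + Ph β + ε))
    {a : ℝ} {ε : ℝ} (hε : 0 < ε) : ∀ᶠ T in 𝓕, ∀ u : ℝ, 0 ≤ u → u ≤ a →
      Pn (Z T) (2 * Real.pi / Real.log T * u) ≤
        WW T * (1 + Ph u + ε + (if u < β₀ then β₀ else 0)) := by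
  have hpi := Real.pi_pos
  obtain ⟨δ, hδ⟩ : ∃ δ : ℝ, δ = ε / 2 := ⟨_, rfl⟩
  have hδ0 : 0 < δ := by rw [hδ]; positivity
  obtain ⟨J, hJ⟩ := exists_nat_ge (a / δ)
  have hJa : a ≤ J * δ := by rwa [div_le_iff₀ hδ0] at hJ
  have hw : ∀ᶠ T in 𝓕, ∀ k ∈ Finset.range (J + 2),
      Pn (Z T) (2 * Real.pi / Real.log T * (β₀ + k * δ)) ≤ WW T * (1 + Ph (β₀ + k * δ) + δ) := by
    rw [Filter.eventually_all_finset]
    intro k _
    exact hyp _ (by have : (0 : ℝ) ≤ k * δ := by positivity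
                    linarith) δ hδ0
  filter_upwards [hw, hF (eventually_ge_atTop 10)] with T hT hT10 u hu hua
  have hL0 : 0 < Real.log T := Real.log_pos (by linarith)
  obtain ⟨c, hc⟩ : ∃ c : ℝ, c = 2 * Real.pi / Real.log T := ⟨_, rfl⟩
  have hc0 : 0 < c := by rw [hc]; positivity
  have hW0 : 0 < WW T := by
    have : 0 < T := by linarith
    unfold WW
    positivity
  rw [← hc] at hT ⊢
  by_cases hub : u < β₀
  · rw [if_pos hub]
    have h1 := hT 0 (Finset.mem_range.2 (by omega))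
    rw [Nat.cast_zero, zero_mul, add_zero] at h1
    have h2 : Pn (Z T) (c * u) ≤ Pn (Z T) (c * β₀) :=
      Pn_mono _ (mul_le_mul_of_nonneg_left hub.le hc0.le)
    have h3 := Ph_lip hub.le
    refine h2.trans (h1.trans (mul_le_mul_of_nonneg_left ?_ hW0.le))
    linarith
  · rw [if_neg hub, add_zero]
    push Not at hub
    obtain ⟨k, hk⟩ : ∃ k : ℕ, k = ⌊(u - β₀) / δ⌋₊ + 1 := ⟨_, rfl⟩
    have hq : 0 ≤ (u - β₀) / δ := div_nonneg (by linarith) hδ0.le
    have h1 : (⌊(u - β₀) / δ⌋₊ : ℝ) * δ ≤ u - β₀ := by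
      have := Nat.floor_le hq
      rwa [le_div_iff₀ hδ0] at this
    have h2 : u - β₀ < k * δ := by
      have := Nat.lt_floor_add_one ((u - β₀) / δ)
      rw [div_lt_iff₀ hδ0] at this
      rw [hk]
      push_cast
      exact this
    have h3 : (k : ℝ) * δ ≤ u - β₀ + δ := by
      rw [hk]
      push_cast
      linarith
    have hkJ : k < J + 2 := by
      have h4 : ((k : ℝ) - 1) * δ ≤ J * δ := by linarith
      have h5 : (k : ℝ) - 1 ≤ J := le_of_mul_le_mul_right h4 hδ0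
      have h6 : (k : ℝ) ≤ (J + 1 : ℕ) := by push_cast; linarith
      have h7 : k ≤ J + 1 := by exact_mod_cast h6
      omega
    have h4 := hT k (Finset.mem_range.2 hkJ)
    have h5 : Pn (Z T) (c * u) ≤ Pn (Z T) (c * (β₀ + k * δ)) :=
      Pn_mono _ (mul_le_mul_of_nonneg_left (by linarith) hc0.le)
    have h6 := Ph_lip (a := u) (b := β₀ + k * δ) (by linarith)
    refine h5.trans (h4.trans (mul_le_mul_of_nonneg_left ?_ hW0.le))
    linarith

/-- the upper half -/
theorem upper_half : ∃ C : ℝ, 0 < C ∧ ∀ Z : ℝ → Finset ℂ,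
    (∀ T s, s ∈ Z T ↔ s ∈ zset riemannZeta 0 T) → ∀ 𝓕 : Filter ℝ, 𝓕 ≤ atTop →
    ∀ β₀ : ℝ, 0 ≤ β₀ → (∀ β : ℝ, β₀ ≤ β → ∀ ε : ℝ, 0 < ε → ∀ᶠ T in 𝓕,
      Pn (Z T) (2 * Real.pi / Real.log T * β) ≤ WW T * (1 + Ph β + ε)) →
    (∀ η : ℝ, 0 < η → ∀ᶠ T in 𝓕, Pn (Z T) 0 ≤ WW T * (1 + η)) ∧
    ∀ a : ℝ, 1 ≤ a → ∀ᶠ T in 𝓕,
      ∫ u in (0 : ℝ)..a, |Pn (Z T) (2 * Real.pi / Real.log T * u) / WW T - 1 - Ph u| ≤
        C + 2 * β₀ ^ 2 := by
  obtain ⟨C, X0, hC, hX0, hm⟩ := mean_id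
  have hpi := Real.pi_pos
  refine ⟨C + 1, by positivity, fun Z hZ 𝓕 hF β₀ hβ₀ hyp => ?_⟩
  -- the basic inequality
  have hbase : ∀ a : ℝ, 1 ≤ a → ∀ ε : ℝ, 0 < ε → ∀ᶠ T in 𝓕, 0 < WW T ∧
      (a * (Pn (Z T) 0 / WW T - 1) / 2 ≤ C + a * ε + β₀ ^ 2) ∧
      ∫ u in (0 : ℝ)..a, |Pn (Z T) (2 * Real.pi / Real.log T * u) / WW T - 1 - Ph u| ≤
        C + a * (1 - Pn (Z T) 0 / WW T) / 2 + 2 * (a * ε + β₀ ^ 2) := by
    intro a ha ε hε
    filter_upwards [upper_unif hF hβ₀ hyp (a := a) hε, hF (eventually_ge_atTop X0),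
      hF (Real.tendsto_log_atTop.eventually_ge_atTop (a ^ 2))] with T h1 h2 h3
    have hT10 : 10 ≤ T := hX0.trans h2
    have hL0 : 0 < Real.log T := Real.log_pos (by linarith)
    have h4 := hm T h2 (Z T) (hZ T) a ha h3
    obtain ⟨c, hc⟩ : ∃ c : ℝ, c = 2 * Real.pi / Real.log T := ⟨_, rfl⟩
    have hc0 : 0 < c := by rw [hc]; positivity
    obtain ⟨W, hW⟩ : ∃ W : ℝ, W = WW T := ⟨_, rfl⟩
    have hW0 : 0 < W := by rw [hW]; unfold WW; have : 0 < T := by linarith
                           positivity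
    rw [← hc, ← hW] at h1 h4 ⊢
    obtain ⟨G, hG⟩ : ∃ G : ℝ → ℝ, G = fun u => 1 + Ph u - Pn (Z T) (c * u) / W := ⟨_, rfl⟩
    obtain ⟨d, hd⟩ : ∃ d : ℝ, d = Pn (Z T) 0 / W := ⟨_, rfl⟩
    obtain ⟨R, hR⟩ : ∃ R : ℝ → ℝ, R = fun u => ε + (if u < β₀ then β₀ else 0) := ⟨_, rfl⟩
    have ha0 : 0 < a := by linarith
    have i1 : IntervalIntegrable (fun u => Pn (Z T) (c * u)) volume 0 a := Pn_ii (Z T) hc0 _ _
    have i1' : IntervalIntegrable (fun u => Pn (Z T) (c * u) / W) volume 0 a := i1.div_const W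
    have i2 : IntervalIntegrable Ph volume 0 a := Ph_cont.intervalIntegrable _ _
    have iG : IntervalIntegrable G volume 0 a := by
      rw [hG]
      exact ((continuous_const.intervalIntegrable _ _).add i2).sub i1'
    have iR : IntervalIntegrable R volume 0 a := by
      rw [hR]
      refine (continuous_const.intervalIntegrable _ _).add ?_
      refine bdd_ii (M := β₀) ?_ (fun t => ?_) _ _
      · exact Measurable.ite measurableSet_Iio measurable_const measurable_const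
      · split_ifs
        · rw [abs_of_nonneg hβ₀]
        · rw [abs_zero]; exact hβ₀
    have hGR : ∀ u ∈ Set.Icc 0 a, -R u ≤ G u := by
      intro u hu
      have h5 := h1 u hu.1 hu.2
      rw [hG, hR]
      simp only
      have h6 : Pn (Z T) (c * u) / W ≤ 1 + Ph u + ε + (if u < β₀ then β₀ else 0) := by
        rw [div_le_iff₀ hW0]
        linarith
      linarith
    have hRi : ∫ u in (0 : ℝ)..a, R u ≤ a * ε + β₀ ^ 2 := by
      have h5 : ∫ u in (0 : ℝ)..a, (if u < β₀ then β₀ else 0 : ℝ) ≤ β₀ ^ 2 := by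
        have e5 : (fun u : ℝ => (if u < β₀ then β₀ else 0 : ℝ)) =
            fun u => β₀ * (Set.Iio β₀).indicator (fun _ => (1 : ℝ)) u := by
          funext u
          by_cases hc : u < β₀
          · rw [if_pos hc, Set.indicator_of_mem (Set.mem_Iio.2 hc), mul_one]
          · have hn : u ∉ Set.Iio β₀ := fun h => hc (Set.mem_Iio.1 h)
            rw [if_neg hc, Set.indicator_of_notMem hn, mul_zero]
        rw [e5, intervalIntegral.integral_const_mul, intervalIntegral.integral_of_le ha0.le,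
          setIntegral_indicator measurableSet_Iio, setIntegral_const, smul_eq_mul, mul_one, sq]
        apply mul_le_mul_of_nonneg_left _ hβ₀
        have h6 : volume.real (Set.Ioc 0 a ∩ Set.Iio β₀) ≤ volume.real (Set.Ioc 0 β₀) := by
          apply measureReal_mono _ (by simp)
          intro x hx
          exact ⟨hx.1.1, le_of_lt hx.2⟩
        refine h6.trans ?_
        rw [Measure.real, Real.volume_Ioc, ENNReal.toReal_ofReal (by linarith)]
        linarith
      have i5 : IntervalIntegrable (fun u : ℝ => (if u < β₀ then β₀ else 0 : ℝ)) volume 0 a := by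
        refine bdd_ii (M := β₀) (Measurable.ite measurableSet_Iio measurable_const
          measurable_const) (fun t => ?_) _ _
        split_ifs
        · rw [abs_of_nonneg hβ₀]
        · rw [abs_zero]; exact hβ₀
      rw [hR, intervalIntegral.integral_add (continuous_const.intervalIntegrable _ _) i5,
        intervalIntegral.integral_const, smul_eq_mul, sub_zero]
      linarith
    have hGi : ∫ u in (0 : ℝ)..a, G u = a * (1 - d) - ∫ u in (0 : ℝ)..a,
        ((Pn (Z T) (c * u) - Pn (Z T) 0) / W - Ph u) := by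
      have i6 : IntervalIntegrable (fun u => (Pn (Z T) (c * u) - Pn (Z T) 0) / W - Ph u)
          volume 0 a :=
        ((i1.sub (continuous_const.intervalIntegrable _ _)).div_const W).sub i2
      have e6 : a * (1 - d) = ∫ _u in (0 : ℝ)..a, (1 - d) := by
        rw [intervalIntegral.integral_const, smul_eq_mul, sub_zero]
      rw [e6, ← intervalIntegral.integral_sub (continuous_const.intervalIntegrable _ _) i6]
      refine intervalIntegral.integral_congr fun u _ => ?_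
      rw [hG, hd]
      simp only
      ring
    rw [← hd] at h4 ⊢
    obtain ⟨I, hI⟩ : ∃ I : ℝ, I = ∫ u in (0 : ℝ)..a,
        ((Pn (Z T) (c * u) - Pn (Z T) 0) / W - Ph u) := ⟨_, rfl⟩
    rw [← hI] at h4 hGi
    have h7 := abs_le.1 h4
    have h8 : -(a * ε + β₀ ^ 2) ≤ ∫ u in (0 : ℝ)..a, G u := by
      calc -(a * ε + β₀ ^ 2) ≤ -∫ u in (0 : ℝ)..a, R u := by linarith
        _ = ∫ u in (0 : ℝ)..a, -R u := by rw [intervalIntegral.integral_neg]
        _ ≤ _ := intervalIntegral.integral_mono_on ha0.le iR.neg iG hGR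
    refine ⟨hW0, ?_, ?_⟩
    · nlinarith [h7.1, h7.2]
    · have h9 : ∫ u in (0 : ℝ)..a, |Pn (Z T) (c * u) / W - 1 - Ph u| ≤
          ∫ u in (0 : ℝ)..a, (G u + 2 * R u) := by
        refine intervalIntegral.integral_mono_on ha0.le ?_ (iG.add (iR.const_mul 2)) fun u hu => ?_
        · exact ((i1'.sub (continuous_const.intervalIntegrable _ _)).sub i2).abs
        · have h10 := hGR u hu
          have hR0 : 0 ≤ R u := by
            rw [hR]
            simp only
            split_ifs <;> linarith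
          have e7 : Pn (Z T) (c * u) / W - 1 - Ph u = -G u := by rw [hG]; ring
          rw [e7, abs_neg, abs_le]
          constructor <;> linarith
      rw [intervalIntegral.integral_add iG (iR.const_mul 2), intervalIntegral.integral_const_mul]
        at h9
      nlinarith [h7.1, h7.2]
  have hdiag : ∀ η : ℝ, 0 < η → ∀ᶠ T in 𝓕, Pn (Z T) 0 ≤ WW T * (1 + η) := by
    intro η hη
    obtain ⟨a, ha⟩ : ∃ a : ℝ, a = max 1 (4 * (C + β₀ ^ 2) / η) := ⟨_, rfl⟩
    have ha1 : 1 ≤ a := by rw [ha]; exact le_max_left _ _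
    have ha2 : 4 * (C + β₀ ^ 2) ≤ a * η := by
      have : 4 * (C + β₀ ^ 2) / η ≤ a := by rw [ha]; exact le_max_right _ _
      rwa [div_le_iff₀ hη] at this
    filter_upwards [hbase a ha1 (η / 4) (by positivity)] with T hT
    obtain ⟨hW0, h1, -⟩ := hT
    have h2 : a * (Pn (Z T) 0 / WW T - 1) ≤ a * η := by nlinarith
    have h3 : Pn (Z T) 0 / WW T - 1 ≤ η := le_of_mul_le_mul_left h2 (by linarith)
    have h4 : Pn (Z T) 0 / WW T ≤ 1 + η := by linarith
    rw [div_le_iff₀ hW0] at h4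
    linarith
  refine ⟨hdiag, fun a ha => ?_⟩
  obtain ⟨ε, hε⟩ : ∃ ε : ℝ, ε = 1 / (4 * a) := ⟨_, rfl⟩
  have ha0 : 0 < a := by linarith
  have hε0 : 0 < ε := by rw [hε]; positivity
  have haε : a * ε = 1 / 4 := by rw [hε]; field_simp
  filter_upwards [hbase a ha ε hε0, hF (tw_asymp hZ hε0)] with T h1 h2
  obtain ⟨hW0, -, h3⟩ := h1
  refine h3.trans ?_
  have h4 := Pn_zero_ge (Z T)
  have h5 : 1 - ε ≤ Pn (Z T) 0 / WW T := by
    rw [le_div_iff₀ hW0]
    exact h2.1.trans h4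
  have h6 : a * (1 - Pn (Z T) 0 / WW T) ≤ a * ε := mul_le_mul_of_nonneg_left (by linarith) ha0.le
  linarith

end Pool.Agent.L5helper84.UV
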