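import Pool.Agent.L5helper84.UV.Wdef

set_option autoImplicit false

/-! # The number of zeros in a short interval, from the explicit formula -/

namespace Pool.Agent.L5helper84.UV

open Complex Filter Topology MeasureTheory Set
open H370 (mult Zf zset mem_Zf good_zeta zz)
open Pool.Agent.TH850.UV

/-- scaled distance to the critical line -/
noncomputable def yy (l : ℝ) (s : ℂ) : ℝ := -(s.re - 1 / 2) * (l / (2 * Real.pi))

/-- scaled vertical distance -/
noncomputable def xx (l : ℝ) (s : ℂ) (t : ℝ) : ℝ := (s.im - t) * (l / (2 * Real.pi))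

/-- the number of zeros of `Z` with ordinate in `(t, t + h]` -/
noncomputable def cn (Z : Finset ℂ) (t h : ℝ) : ℝ :=
  ∑ s ∈ Z, (mult riemannZeta s : ℝ) * (if t < s.im ∧ s.im ≤ t + h then 1 else 0)

/-- the error function -/
noncomputable def EE (l : ℝ) (Z : Finset ℂ) (t : ℝ) : ℝ :=
  ∑ s ∈ Z, (mult riemannZeta s : ℝ) * Jk (yy l s) (xx l s t)

/-- the smoothed density -/
noncomputable def GG (l : ℝ) (Z : Finset ℂ) (t : ℝ) : ℝ :=
  ∑ s ∈ Z, (mult riemannZeta s : ℝ) * qk (yy l s) (xx l s t)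

lemma Wt_eq (l : ℝ) (Z : Finset ℂ) (t : ℝ) : Wt l Z t = ∑ s ∈ Z, (mult riemannZeta s : ℝ) *
    (Real.exp (Real.pi * |yy l s|) / (1 + xx l s t ^ 2)) := by
  unfold Wt yy xx
  refine Finset.sum_congr rfl fun s _ => ?_
  rw [neg_mul, abs_neg]

lemma qk_c (y : ℝ) : Continuous (qk y) := by
  have h : Continuous fun x : ℝ => ((y, x) : ℝ × ℝ) := by fun_prop
  have h2 := qk_cont.comp h
  have e : (fun p : ℝ × ℝ => qk p.1 p.2) ∘ (fun x : ℝ => ((y, x) : ℝ × ℝ)) = qk y := rfl
  rwa [e] at h2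

lemma GG_cont (l : ℝ) (Z : Finset ℂ) : Continuous (GG l Z) := by
  unfold GG
  refine continuous_finsetSum _ fun s _ => continuous_const.mul ?_
  have h1 : Continuous fun t : ℝ => xx l s t := by unfold xx; fun_prop
  exact (qk_c (yy l s)).comp h1

lemma Qk_deriv (y x : ℝ) : HasDerivAt (Qk y) (qk y x) x := by
  unfold Qk
  have h := intervalIntegral.integral_hasDerivAt_right
    ((qk_c y).intervalIntegrable (μ := volume) 0 x)
    ((qk_c y).stronglyMeasurableAtFilter _ _) (qk_c y).continuousAt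
  exact h.const_add _

lemma int_qk (y g w t h : ℝ) :
    ∫ u in t..(t + h), w * qk y ((g - u) * w) = Qk y ((g - t) * w) - Qk y ((g - (t + h)) * w) := by
  have hd : ∀ u ∈ Set.uIcc t (t + h), HasDerivAt (fun u : ℝ => -Qk y ((g - u) * w))
      (w * qk y ((g - u) * w)) u := by
    intro u _
    have h1 : HasDerivAt (fun u : ℝ => (g - u) * w) (-1 * w) u :=
      ((hasDerivAt_id' u).const_sub g).mul_const w
    have h2 := ((Qk_deriv y ((g - u) * w)).comp u h1).neg
    refine h2.congr_deriv ?_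
    ring
  have hc : Continuous fun u : ℝ => w * qk y ((g - u) * w) := by
    have h1 : Continuous fun u : ℝ => (g - u) * w := by fun_prop
    exact continuous_const.mul ((qk_c y).comp h1)
  rw [intervalIntegral.integral_eq_sub_of_hasDerivAt hd (hc.intervalIntegrable _ _)]
  ring

/-- the number of zeros in terms of the smoothed density and the error function -/
lemma cn_eq {l : ℝ} (hl : 0 < l) (Z : Finset ℂ) (t : ℝ) {h : ℝ} (hh : 0 ≤ h) :
    cn Z t h = (∫ u in t..(t + h), (l / (2 * Real.pi)) * GG l Z u) - EE l Z t + EE l Z (t + h) := by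
  have hpi := Real.pi_pos
  have hw : 0 < l / (2 * Real.pi) := by positivity
  have h1 : ∫ u in t..(t + h), (l / (2 * Real.pi)) * GG l Z u =
      ∑ s ∈ Z, (mult riemannZeta s : ℝ) * (Qk (yy l s) (xx l s t) - Qk (yy l s) (xx l s (t + h))) := by
    have e : ∀ u : ℝ, (l / (2 * Real.pi)) * GG l Z u = ∑ s ∈ Z, (mult riemannZeta s : ℝ) *
        ((l / (2 * Real.pi)) * qk (yy l s) ((s.im - u) * (l / (2 * Real.pi)))) := by
      intro u
      unfold GG xx
      rw [Finset.mul_sum]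
      exact Finset.sum_congr rfl fun s _ => by ring
    simp_rw [e]
    rw [intervalIntegral.integral_finsetSum]
    · refine Finset.sum_congr rfl fun s _ => ?_
      rw [intervalIntegral.integral_const_mul, int_qk]
      rfl
    · intro s _
      have h1 : Continuous fun u : ℝ => (s.im - u) * (l / (2 * Real.pi)) := by fun_prop
      exact (continuous_const.mul (continuous_const.mul ((qk_c _).comp h1))).intervalIntegrable _ _
  rw [h1]
  unfold cn EE
  rw [← Finset.sum_sub_distrib, ← Finset.sum_add_distrib]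
  refine Finset.sum_congr rfl fun s _ => ?_
  have p1 : (0 < xx l s t) ↔ t < s.im := by
    unfold xx
    rw [mul_pos_iff_of_pos_right hw, sub_pos]
  have p2 : (0 < xx l s (t + h)) ↔ t + h < s.im := by
    unfold xx
    rw [mul_pos_iff_of_pos_right hw, sub_pos]
  unfold Jk
  rw [if_congr p1 rfl rfl, if_congr p2 rfl rfl]
  by_cases a1 : t < s.im
  · by_cases a2 : t + h < s.im
    · rw [if_neg (by rintro ⟨-, h⟩; linarith), if_pos a1, if_pos a2]; ring
    · rw [if_pos ⟨a1, not_lt.1 a2⟩, if_pos a1, if_neg a2]; ring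
  · rw [if_neg (by rintro ⟨h, -⟩; exact a1 h), if_neg a1, if_neg (by linarith)]; ring

lemma gau_all {v : ℂ} (hv : |v.im| ≤ 1 / 2) : ‖1 - cexp (-v ^ 2 / 2)‖ ≤ 12 * ‖v‖ ^ 2 := by
  by_cases h : |v.re| ≤ 1 / 2
  · have := Pool.Agent.TH850.UR.gau_near hv h
    nlinarith [sq_nonneg ‖v‖]
  · push Not at h
    have h1 := Pool.Agent.TH850.UR.gau_le hv
    have h2 : ‖1 - cexp (-v ^ 2 / 2)‖ ≤ 3 := by
      refine (norm_sub_le _ _).trans ?_
      rw [norm_one]
      linarith
    have h3 : |v.re| ≤ ‖v‖ := Complex.abs_re_le_norm v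
    have h4 : 1 / 2 ≤ ‖v‖ := by linarith
    nlinarith

lemma scaled (l : ℝ) (s : ℂ) (t : ℝ) :
    (zz s - t) * ((l / (2 * Real.pi) : ℝ) : ℂ) = (xx l s t : ℂ) + (yy l s : ℂ) * I := by
  apply Complex.ext
  · unfold xx yy
    simp only [Complex.mul_re, Complex.sub_re, Complex.ofReal_re, Complex.sub_im, Complex.ofReal_im,
      Complex.add_re, Complex.I_re, Complex.I_im]
    rw [H370.zz_re]
    ring
  · unfold xx yy
    simp only [Complex.mul_im, Complex.sub_re, Complex.ofReal_re, Complex.sub_im, Complex.ofReal_im,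
      Complex.add_im, Complex.I_re, Complex.I_im]
    rw [H370.zz_im]
    ring

/-- the Gaussian factor is negligible -/
lemma HTo_GG : ∃ C : ℝ, 0 < C ∧ ∀ l : ℝ, 0 < l → ∀ U1 U2 : ℝ, 1 ≤ U1 → ∀ t : ℝ,
    |2 * (HTo l U1 U2 t).re - GG l (Zf riemannZeta U1 U2) t| ≤
      C / l ^ 2 * Wt l (Zf riemannZeta U1 U2) t := by
  obtain ⟨C, hC, hk⟩ := kC_decay
  have hpi := Real.pi_pos
  refine ⟨12 * (2 * Real.pi) ^ 2 * C, by positivity, fun l hl U1 U2 hU t => ?_⟩
  have h1 : 2 * (HTo l U1 U2 t).re = (∑ s ∈ Zf riemannZeta U1 U2, (mult riemannZeta s : ℂ) *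
      cexp (-(zz s - t) ^ 2 / 2) * kC ((zz s - t) * (l / (2 * Real.pi) : ℝ))).re := by
    rw [fullo l hU, Complex.ofReal_re]
  have h2 : GG l (Zf riemannZeta U1 U2) t = (∑ s ∈ Zf riemannZeta U1 U2, (mult riemannZeta s : ℂ) *
      kC ((zz s - t) * (l / (2 * Real.pi) : ℝ))).re := by
    unfold GG
    rw [Complex.re_sum]
    refine Finset.sum_congr rfl fun s _ => ?_
    rw [scaled]
    have e : ((mult riemannZeta s : ℕ) : ℂ) = (((mult riemannZeta s : ℕ) : ℝ) : ℂ) := by
      push_cast; rfl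
    rw [e, Complex.re_ofReal_mul]
    rfl
  rw [h1, h2, ← Complex.sub_re, ← Finset.sum_sub_distrib]
  refine (Complex.abs_re_le_norm _).trans ((norm_sum_le _ _).trans ?_)
  rw [Wt_eq, Finset.mul_sum]
  refine Finset.sum_le_sum fun s hs => ?_
  rw [mem_Zf good_zeta hU] at hs
  have him : |(zz s - t : ℂ).im| ≤ 1 / 2 := by
    rw [Complex.sub_im, Complex.ofReal_im, H370.zz_im, sub_zero, abs_neg, abs_le]
    constructor <;> linarith [hs.1, hs.2.1]
  have hg := gau_all him
  have hz := hk ((zz s - t) * (l / (2 * Real.pi) : ℝ))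
  have hsc := scaled l s t
  have hn : ‖(zz s - t : ℂ)‖ ^ 2 = (2 * Real.pi / l) ^ 2 *
      ‖(zz s - t) * ((l / (2 * Real.pi) : ℝ) : ℂ)‖ ^ 2 := by
    rw [norm_mul, Complex.norm_real, Real.norm_of_nonneg (by positivity)]
    field_simp
  rw [hn] at hg
  have himz : ((zz s - t) * ((l / (2 * Real.pi) : ℝ) : ℂ)).im = yy l s := by
    rw [hsc]; simp
  have hrez : ((zz s - t) * ((l / (2 * Real.pi) : ℝ) : ℂ)).re = xx l s t := by
    rw [hsc]; simp
  rw [himz] at hz
  have hxz : xx l s t ^ 2 ≤ ‖(zz s - t) * ((l / (2 * Real.pi) : ℝ) : ℂ)‖ ^ 2 := by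
    rw [← hrez, Complex.sq_norm, Complex.normSq_apply]
    nlinarith [mul_self_nonneg ((zz s - t) * ((l / (2 * Real.pi) : ℝ) : ℂ)).im]
  generalize (zz s - t) * ((l / (2 * Real.pi) : ℝ) : ℂ) = z at hg hz hxz ⊢
  have hfac : (mult riemannZeta s : ℂ) * cexp (-(zz s - t) ^ 2 / 2) * kC z -
      (mult riemannZeta s : ℂ) * kC z =
      -((mult riemannZeta s : ℂ) * ((1 - cexp (-(zz s - t) ^ 2 / 2)) * kC z)) := by ring
  rw [hfac, norm_neg, norm_mul, norm_mul, Complex.norm_natCast]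
  have hE := Real.exp_pos (Real.pi * |yy l s|)
  generalize Real.exp (Real.pi * |yy l s|) = Ey at hz hE ⊢
  generalize ‖1 - cexp (-(zz s - t) ^ 2 / 2)‖ = G at hg ⊢
  have h3 : ‖z‖ ^ 2 * ‖kC z‖ ≤ C * Ey / (1 + xx l s t ^ 2) := by
    rw [le_div_iff₀ (by positivity)]
    have h4 := norm_nonneg (kC z)
    have h5 : ‖z‖ ^ 2 * (1 + xx l s t ^ 2) ≤ (1 + ‖z‖ ^ 2) ^ 2 := by
      nlinarith [sq_nonneg ‖z‖, sq_nonneg (xx l s t)]
    calc ‖z‖ ^ 2 * ‖kC z‖ * (1 + xx l s t ^ 2) = ‖kC z‖ * (‖z‖ ^ 2 * (1 + xx l s t ^ 2)) := by ring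
      _ ≤ ‖kC z‖ * (1 + ‖z‖ ^ 2) ^ 2 := mul_le_mul_of_nonneg_left h5 h4
      _ ≤ _ := hz
  calc (mult riemannZeta s : ℝ) * (G * ‖kC z‖) ≤
      (mult riemannZeta s : ℝ) * (12 * ((2 * Real.pi / l) ^ 2 * ‖z‖ ^ 2) * ‖kC z‖) := by gcongr
    _ = (mult riemannZeta s : ℝ) * (12 * (2 * Real.pi / l) ^ 2 * (‖z‖ ^ 2 * ‖kC z‖)) := by ring
    _ ≤ (mult riemannZeta s : ℝ) * (12 * (2 * Real.pi / l) ^ 2 *
        (C * Ey / (1 + xx l s t ^ 2))) := by gcongr
    _ = _ := by field_simp

/-- the basic formula for the number of zeros in a short interval -/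
theorem basic {lam : ℝ} (hlam : 16 ≤ lam) : ∃ C T0 : ℝ, 0 < C ∧ 10 ≤ T0 ∧ ∀ T : ℝ, T0 ≤ T →
    ∃ U1 U2 : ℝ, T ≤ U1 ∧ U1 ≤ T + 1 ∧ 2 * T - 1 ≤ U2 ∧ U2 ≤ 2 * T ∧
      ∀ t h : ℝ, T + Real.log T ≤ t → 0 ≤ h → t + h ≤ 2 * T - Real.log T →
        |cn (Zf riemannZeta U1 U2) t h - h * Real.log T / (2 * Real.pi) +
            Db (Real.log T / lam) h (XT T) t -
            (EE (Real.log T / lam) (Zf riemannZeta U1 U2) (t + h) -
              EE (Real.log T / lam) (Zf riemannZeta U1 U2) t)| ≤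
          C * (h + ∫ u in t..(t + h), Wt (Real.log T / lam) (Zf riemannZeta U1 U2) u) := by
  obtain ⟨C1, T1, hC1, hT1, hA⟩ := Ac_est hlam
  obtain ⟨C2, hC2, hG⟩ := HTo_GG
  have hlam0 : 0 < lam := by linarith
  have hpi := Real.pi_pos
  obtain ⟨T2, hT2⟩ := (Real.tendsto_log_atTop.eventually_ge_atTop lam).exists_forall_of_atTop
  refine ⟨C1 + C2, max T1 T2, by positivity, hT1.trans (le_max_left _ _), fun T hT => ?_⟩
  have hTT1 : T1 ≤ T := (le_max_left _ _).trans hT
  have hlL := hT2 T ((le_max_right _ _).trans hT)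
  obtain ⟨U1, U2, hU1, hU2, hU3, hU4, hest⟩ := hA T hTT1
  refine ⟨U1, U2, hU1, hU2, hU3, hU4, fun t h ht hh hth => ?_⟩
  have hT10 : 10 ≤ T := hT1.trans hTT1
  have hU : 1 ≤ U1 := by linarith
  have hL0 : 0 < Real.log T := Real.log_pos (by linarith)
  obtain ⟨l, hl⟩ : ∃ l : ℝ, l = Real.log T / lam := ⟨_, rfl⟩
  obtain ⟨Z, hZ⟩ : ∃ Z : Finset ℂ, Z = Zf riemannZeta U1 U2 := ⟨_, rfl⟩
  have hl1 : 1 ≤ l := by rw [hl, le_div_iff₀ hlam0, one_mul]; exact hlL
  have hl0 : 0 < l := by linarith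
  rw [← hl, ← hZ]
  rw [← hl] at hest
  have hGG := hG l hl0 U1 U2 hU
  rw [← hZ] at hGG
  have hDDc : Continuous fun τ : ℝ => (DDo H370.A2.lamC l (XT T) τ).re :=
    Complex.continuous_re.comp (DDo_cont _ _ _)
  have hGc := GG_cont l Z
  have hWc := Wt_cont l Z
  have hHc := HTo_re_cont l (U2 := U2) hU
  rw [cn_eq hl0 Z t hh, Db_eq]
  have e1 : h * Real.log T / (2 * Real.pi) = ∫ u in t..(t + h), (l / (2 * Real.pi)) * lam := by
    rw [intervalIntegral.integral_const, smul_eq_mul, hl]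
    field_simp
    ring
  rw [e1]
  have e2 : (∫ u in t..(t + h), (l / (2 * Real.pi)) * GG l Z u) - EE l Z t + EE l Z (t + h) -
      (∫ u in t..(t + h), (l / (2 * Real.pi)) * lam) +
      (∫ τ in t..(t + h), (l / (2 * Real.pi)) * (2 * (1 / Real.sqrt (2 * Real.pi)) *
      (DDo H370.A2.lamC l (XT T) τ).re)) - (EE l Z (t + h) - EE l Z t) =
      ∫ u in t..(t + h), (l / (2 * Real.pi)) * (GG l Z u - lam +
        2 * (1 / Real.sqrt (2 * Real.pi)) * (DDo H370.A2.lamC l (XT T) u).re) := by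
    have i1 : IntervalIntegrable (fun u => (l / (2 * Real.pi)) * GG l Z u) volume t (t + h) :=
      (continuous_const.mul hGc).intervalIntegrable _ _
    have i2 : IntervalIntegrable (fun _ : ℝ => (l / (2 * Real.pi)) * lam) volume t (t + h) :=
      continuous_const.intervalIntegrable _ _
    have i3 : IntervalIntegrable (fun τ => (l / (2 * Real.pi)) * (2 * (1 / Real.sqrt (2 * Real.pi)) *
      (DDo H370.A2.lamC l (XT T) τ).re)) volume t (t + h) :=
      (continuous_const.mul (continuous_const.mul hDDc)).intervalIntegrable _ _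
    have e3 : (fun u => (l / (2 * Real.pi)) * (GG l Z u - lam +
        2 * (1 / Real.sqrt (2 * Real.pi)) * (DDo H370.A2.lamC l (XT T) u).re)) =
        fun u => ((l / (2 * Real.pi)) * GG l Z u - (l / (2 * Real.pi)) * lam) +
          (l / (2 * Real.pi)) * (2 * (1 / Real.sqrt (2 * Real.pi)) *
            (DDo H370.A2.lamC l (XT T) u).re) := by
      funext u; ring
    rw [e3, intervalIntegral.integral_add (i1.sub i2) i3, intervalIntegral.integral_sub i1 i2]
    ring
  rw [e2]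
  have hle : t ≤ t + h := by linarith
  have hb : ∀ u ∈ Set.Icc t (t + h), ‖(l / (2 * Real.pi)) * (GG l Z u - lam +
        2 * (1 / Real.sqrt (2 * Real.pi)) * (DDo H370.A2.lamC l (XT T) u).re)‖ ≤
      (C1 + C2) * (1 + Wt l Z u) := by
    intro u hu
    have h1 := hest u (by linarith [hu.1]) (by linarith [hu.2])
    have h2 := hGG u
    have hW := Wt_nonneg l Z u
    rw [Real.norm_eq_abs, abs_mul, abs_of_pos (by positivity)]
    have h3 : |GG l Z u - lam + 2 * (1 / Real.sqrt (2 * Real.pi)) *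
        (DDo H370.A2.lamC l (XT T) u).re| ≤ C1 / Real.log T + C2 / l ^ 2 * Wt l Z u := by
      have e : GG l Z u - lam + 2 * (1 / Real.sqrt (2 * Real.pi)) *
        (DDo H370.A2.lamC l (XT T) u).re = (2 * (HTo l U1 U2 u).re -
          (lam - 2 * (1 / Real.sqrt (2 * Real.pi)) * (DDo H370.A2.lamC l (XT T) u).re)) -
          (2 * (HTo l U1 U2 u).re - GG l Z u) := by ring
      rw [e]
      exact (abs_sub _ _).trans (add_le_add h1 h2)
    have hp6 : 6 ≤ 2 * Real.pi := by linarith [Real.pi_gt_three]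
    calc l / (2 * Real.pi) * |GG l Z u - lam + 2 * (1 / Real.sqrt (2 * Real.pi)) *
        (DDo H370.A2.lamC l (XT T) u).re| ≤
        l / (2 * Real.pi) * (C1 / Real.log T + C2 / l ^ 2 * Wt l Z u) := by gcongr
      _ = C1 * (1 / (2 * Real.pi * lam)) + C2 * (1 / (2 * Real.pi * l)) * Wt l Z u := by
          have e4 : Real.log T = l * lam := by rw [hl]; field_simp
          rw [e4]
          field_simp
      _ ≤ C1 * 1 + C2 * 1 * Wt l Z u := by
          gcongr
          · rw [div_le_one (by positivity)]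
            nlinarith
          · rw [div_le_one (by positivity)]
            nlinarith
      _ ≤ _ := by nlinarith
  calc |∫ u in t..(t + h), (l / (2 * Real.pi)) * (GG l Z u - lam +
        2 * (1 / Real.sqrt (2 * Real.pi)) * (DDo H370.A2.lamC l (XT T) u).re)| ≤
      ∫ u in t..(t + h), ‖(l / (2 * Real.pi)) * (GG l Z u - lam +
        2 * (1 / Real.sqrt (2 * Real.pi)) * (DDo H370.A2.lamC l (XT T) u).re)‖ := by
        rw [← Real.norm_eq_abs]
        exact intervalIntegral.norm_integral_le_integral_norm hle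
    _ ≤ ∫ u in t..(t + h), (C1 + C2) * (1 + Wt l Z u) := by
        refine intervalIntegral.integral_mono_on hle (Continuous.intervalIntegrable ?_ _ _)
          (Continuous.intervalIntegrable ?_ _ _) hb
        · exact (continuous_const.mul ((hGc.sub continuous_const).add
            (continuous_const.mul hDDc))).norm
        · exact continuous_const.mul (continuous_const.add hWc)
    _ = _ := by
        rw [intervalIntegral.integral_const_mul, intervalIntegral.integral_add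
          (continuous_const.intervalIntegrable _ _) (hWc.intervalIntegrable _ _),
          intervalIntegral.integral_const, smul_eq_mul]
        ring

end Pool.Agent.L5helper84.UV
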