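import Pool.Agent.L5helper84.UV.Pt

set_option autoImplicit false

/-! # Lower bounds for windows and the mean of the pair counting function -/

namespace Pool.Agent.L5helper84.UV

open Complex Filter Topology MeasureTheory Set
open H370 (mult Zf zset mem_Zf good_zeta zz NN NN_add NN_mono)

/-- lower Riemann sums of monotone functions -/
lemma grid_le {n : ℝ → ℝ} (hn : Monotone n) {δ : ℝ} (hδ : 0 < δ) (J : ℕ) :
    δ * ∑ j ∈ Finset.range J, n (j * δ) ≤ ∫ u in (0 : ℝ)..(J * δ), n u := by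
  induction J with
  | zero => simp
  | succ J ih =>
    rw [Finset.sum_range_succ, mul_add,
      ← intervalIntegral.integral_add_adjacent_intervals (b := J * δ) hn.intervalIntegrable
        hn.intervalIntegrable]
    refine add_le_add ih ?_
    have h1 : (J : ℝ) * δ ≤ ((J + 1 : ℕ) : ℝ) * δ := by
      push_cast
      nlinarith
    calc δ * n (J * δ) = ∫ _u in (J * δ)..(((J + 1 : ℕ) : ℝ) * δ), n (J * δ) := by
          rw [intervalIntegral.integral_const, smul_eq_mul]
          push_cast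
          ring
      _ ≤ ∫ u in (J * δ)..(((J + 1 : ℕ) : ℝ) * δ), n u :=
          intervalIntegral.integral_mono_on h1 (continuous_const.intervalIntegrable _ _)
            hn.intervalIntegrable fun x hx => hn hx.1

lemma grid_Ph {δ : ℝ} (hδ : 0 < δ) (J : ℕ) :
    ∫ u in (0 : ℝ)..(J * δ), Ph u ≤ δ * ∑ j ∈ Finset.range J, Ph (j * δ) + J * δ * δ := by
  induction J with
  | zero => simp
  | succ J ih =>
    rw [Finset.sum_range_succ, mul_add,
      ← intervalIntegral.integral_add_adjacent_intervals (b := J * δ)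
        (Ph_cont.intervalIntegrable _ _) (Ph_cont.intervalIntegrable _ _)]
    have h1 : (J : ℝ) * δ ≤ ((J + 1 : ℕ) : ℝ) * δ := by
      push_cast
      nlinarith
    have h2 : ∫ u in (J * δ)..(((J + 1 : ℕ) : ℝ) * δ), Ph u ≤ δ * Ph (J * δ) + δ * δ := by
      calc ∫ u in (J * δ)..(((J + 1 : ℕ) : ℝ) * δ), Ph u ≤
          ∫ _u in (J * δ)..(((J + 1 : ℕ) : ℝ) * δ), (Ph (J * δ) + δ) := by
            refine intervalIntegral.integral_mono_on h1 (Ph_cont.intervalIntegrable _ _)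
              (continuous_const.intervalIntegrable _ _) fun x hx => ?_
            have h3 := Ph_lip hx.1
            have h4 := hx.2
            push_cast at h4
            nlinarith
        _ = _ := by
            rw [intervalIntegral.integral_const, smul_eq_mul]
            push_cast
            ring
    push_cast
    push_cast at h2
    nlinarith

lemma Ph_mono' : Monotone Ph := fun _ _ h => Ph_mono h

/-- the core inequality -/
theorem core : ∃ C X0 : ℝ, 0 < C ∧ 10 ≤ X0 ∧ ∀ X : ℝ, X0 ≤ X →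
    ∀ Z : Finset ℂ, (∀ s, s ∈ Z ↔ s ∈ zset riemannZeta 0 X) →
    ∀ δ : ℝ, 0 < δ → ∀ J : ℕ, 1 ≤ J * δ → (J * δ) ^ 2 ≤ Real.log X → ∀ e : ℕ → ℝ,
    (∀ j : ℕ, j < J → Pn Z 0 + X * Real.log X / (2 * Real.pi) * (Ph (j * δ) + e j) ≤
      Pn Z (2 * Real.pi / Real.log X * (j * δ))) →
    J * δ * Pn Z 0 ≤ X * Real.log X / (2 * Real.pi) *
      (J * δ + 2 * (J * δ) * δ + C - 2 * δ * ∑ j ∈ Finset.range J, e j) := by
  obtain ⟨C, X0, hC, hX0, h⟩ := pair_mean
  have hpi := Real.pi_pos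
  refine ⟨2 * C, X0, by positivity, hX0, fun X hX Z hZ δ hδ J hJ1 hJ2 e he => ?_⟩
  have h0 := h X hX Z hZ _ hJ1 hJ2
  have hX10 : 10 ≤ X := hX0.trans hX
  have hL0 : 0 < Real.log X := Real.log_pos (by linarith)
  obtain ⟨c, hc⟩ : ∃ c : ℝ, c = 2 * Real.pi / Real.log X := ⟨_, rfl⟩
  have hc0 : 0 < c := by rw [hc]; positivity
  obtain ⟨W, hW⟩ : ∃ W : ℝ, W = X * Real.log X / (2 * Real.pi) := ⟨_, rfl⟩
  have hW0 : 0 < W := by rw [hW]; have : 0 < X := by linarith
                         positivity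
  rw [← hc, ← hW] at h0 he
  rw [← hW]
  obtain ⟨n, hn⟩ : ∃ n : ℝ → ℝ, n = fun u => Pn Z (c * u) := ⟨_, rfl⟩
  have hnm : Monotone n := by
    intro x y hxy
    rw [hn]
    exact Pn_mono Z (mul_le_mul_of_nonneg_left hxy hc0.le)
  obtain ⟨a, ha⟩ : ∃ a : ℝ, a = J * δ := ⟨_, rfl⟩
  obtain ⟨n0, hn0⟩ : ∃ n0 : ℝ, n0 = Pn Z 0 := ⟨_, rfl⟩
  obtain ⟨S, hS⟩ : ∃ S : ℝ, S = δ * ∑ j ∈ Finset.range J, Ph (j * δ) := ⟨_, rfl⟩
  have h1 := grid_le hnm hδ J
  have h2 := grid_Ph hδ J
  rw [← hS] at h2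
  have h3 : a * n0 + W * (S + δ * ∑ j ∈ Finset.range J, e j) ≤
      δ * ∑ j ∈ Finset.range J, n (j * δ) := by
    have e1 : a * n0 + W * (S + δ * ∑ j ∈ Finset.range J, e j) =
        δ * ∑ j ∈ Finset.range J, (n0 + W * (Ph (j * δ) + e j)) := by
      rw [Finset.sum_add_distrib, Finset.sum_const, Finset.card_range, nsmul_eq_mul,
        ← Finset.mul_sum, Finset.sum_add_distrib, hS, ha]
      ring
    rw [e1]
    apply mul_le_mul_of_nonneg_left _ hδ.le
    refine Finset.sum_le_sum fun j hj => ?_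
    rw [hn, hn0]
    exact he j (Finset.mem_range.1 hj)
  rw [← ha] at h0 h1 h2 ⊢
  rw [← hn0] at h0 ⊢
  have h4 : ∫ u in (0 : ℝ)..a, (Pn Z (c * u) - n0 / 2 - W * (1 / 2 + Ph u)) =
      (∫ u in (0 : ℝ)..a, n u) - a * (n0 / 2) - W * (a / 2 + ∫ u in (0 : ℝ)..a, Ph u) := by
    have hG : Continuous fun u => 1 / 2 + Ph u := continuous_const.add Ph_cont
    rw [intervalIntegral.integral_sub ((Pn_ii Z hc0 _ _).sub
      (continuous_const.intervalIntegrable _ _))
      ((hG.intervalIntegrable _ _).const_mul W), intervalIntegral.integral_sub (Pn_ii Z hc0 _ _)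
      (continuous_const.intervalIntegrable _ _), intervalIntegral.integral_const,
      intervalIntegral.integral_const_mul, intervalIntegral.integral_add
      (continuous_const.intervalIntegrable _ _) (Ph_cont.intervalIntegrable _ _),
      intervalIntegral.integral_const, smul_eq_mul, smul_eq_mul, sub_zero, hn]
    ring
  rw [h4] at h0
  have h5 := (abs_le.1 h0).2
  have h6 : W * (∫ u in (0 : ℝ)..a, Ph u) ≤ W * (S + a * δ) := mul_le_mul_of_nonneg_left h2 hW0.le
  nlinarith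

/-- lower bounds for windows, at points of a grid -/
lemma step_grid {Z : Finset ℂ} {c W δ ε : ℝ} (hc : 0 < c) (hW : 0 ≤ W) (hδ : 0 < δ) {j k : ℕ}
    (hjk : j + 1 ≤ k) (h : W * (Ph (k * δ) - Ph ((j + 1 : ℕ) * δ) - ε) ≤
      Wn Z (c * ((j + 1 : ℕ) * δ)) (c * (k * δ))) :
    Pn Z (c * (j * δ)) + W * (Ph (k * δ) - Ph (j * δ) - (δ + ε)) ≤ Pn Z (c * (k * δ)) := by
  have h1 : Wn Z (c * ((j + 1 : ℕ) * δ)) (c * (k * δ)) ≤ Pn Z (c * (k * δ)) - Pn Z (c * (j * δ)) := by
    apply Wn_upper Z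
    · positivity
    · push_cast
      have : c * ((j + 1) * δ) = c * (j * δ) + c * δ := by ring
      rw [this]
      linarith [mul_pos hc hδ]
    · apply mul_le_mul_of_nonneg_left _ hc.le
      apply mul_le_mul_of_nonneg_right _ hδ.le
      exact_mod_cast hjk
  have h2 : Ph ((j + 1 : ℕ) * δ) ≤ Ph (j * δ) + δ := by
    have := Ph_lip (a := j * δ) (b := (j + 1 : ℕ) * δ) (by push_cast; nlinarith)
    push_cast at this ⊢
    linarith
  have h3 : W * Ph ((j + 1 : ℕ) * δ) ≤ W * (Ph (j * δ) + δ) := mul_le_mul_of_nonneg_left h2 hW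
  nlinarith

end Pool.Agent.L5helper84.UV
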