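import Pool.Agent.L5helper84.UV.Mom3

set_option autoImplicit false

/-! # Almost all zeros simple and critical: the diagonal term -/

namespace Pool.Agent.L5helper84.UV

open Complex Filter Topology MeasureTheory Set
open H370 (mult Zf zset mem_Zf good_zeta zz NN NN_add NN_mono)

theorem cube_total : ∃ C X0 : ℝ, 0 < C ∧ 10 ≤ X0 ∧ ∀ X : ℝ, X0 ≤ X →
    ∀ Z : Finset ℂ, (∀ s, s ∈ Z ↔ s ∈ zset riemannZeta 0 X) →
      ∑ s ∈ Z, (mult riemannZeta s : ℝ) * MM Z s ^ 2 ≤ C * (X * Real.log X) := by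
  classical
  obtain ⟨C, T0, hC, hT0, hb⟩ := block3
  have hT00 : 0 < T0 := by linarith
  obtain ⟨C0, hC0⟩ : ∃ C0 : ℝ, C0 = tw (H370.zeta_zeros_finite (2 * T0)).toFinset := ⟨_, rfl⟩
  have hC00 : 0 ≤ C0 := by rw [hC0]; exact tw_nonneg _
  refine ⟨C + C0 ^ 3, 2 * T0, by positivity, by linarith, fun X hX Z hZ => ?_⟩
  have hX0 : 0 < X := by linarith
  have hLX : 1 ≤ Real.log X := by
    rw [Real.le_log_iff_exp_le (by linarith)]
    linarith [Real.exp_one_lt_d9]
  obtain ⟨g, hg⟩ : ∃ g : ℂ → ℝ, g = fun s => (mult riemannZeta s : ℝ) * MM Z s ^ 2 := ⟨_, rfl⟩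
  have hg0 : ∀ s, 0 ≤ g s := by
    intro s
    rw [hg]
    exact mul_nonneg (Nat.cast_nonneg _) (sq_nonneg _)
  have key : ∀ K : ℕ, T0 ≤ X / 2 ^ K → ∑ s ∈ Z.filter (fun s => X / 2 ^ K < s.im), g s ≤
      C * (X * Real.log X) * (1 - 1 / 2 ^ K) := by
    intro K
    induction K with
    | zero =>
      intro _
      have : Z.filter (fun s => X / 2 ^ 0 < s.im) = ∅ := by
        apply Finset.filter_eq_empty_iff.2
        intro s hs hc
        obtain ⟨a1, a2, a3, a4, a5⟩ := (hZ s).1 hs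
        simp at hc
        linarith
      rw [this]
      simp
    | succ K ih =>
      intro hK
      have h2K : (0 : ℝ) < 2 ^ K := by positivity
      have hp : (2 : ℝ) ^ (K + 1) = 2 * 2 ^ K := by ring
      obtain ⟨T, hT⟩ : ∃ T : ℝ, T = X / 2 ^ (K + 1) := ⟨_, rfl⟩
      have h2T : 2 * T = X / 2 ^ K := by rw [hT, hp]; field_simp
      rw [← hT] at hK ⊢
      have hTX : 2 * T ≤ X := by
        rw [h2T]
        exact div_le_self hX0.le (one_le_pow₀ (by norm_num))
      have h1 := ih (by rw [← h2T]; linarith)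
      have h3 := hb T hK X hTX Z hZ
      have hTp : 0 < T := by linarith
      have h4 : Real.log T ≤ Real.log X := Real.log_le_log hTp (by linarith)
      have h5 : ∑ s ∈ Z.filter (fun s => T < s.im), g s =
          (∑ s ∈ Z.filter (fun s => T < s.im ∧ s.im ≤ 2 * T), g s) +
          ∑ s ∈ Z.filter (fun s => X / 2 ^ K < s.im), g s := by
        rw [← h2T, Finset.sum_filter, Finset.sum_filter, Finset.sum_filter,
          ← Finset.sum_add_distrib]
        refine Finset.sum_congr rfl fun s _ => ?_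
        by_cases c1 : T < s.im
        · by_cases c2 : s.im ≤ 2 * T
          · rw [if_pos c1, if_pos ⟨c1, c2⟩, if_neg (by linarith), add_zero]
          · push Not at c2
            rw [if_pos c1, if_neg (by intro hc; linarith [hc.2]), if_pos c2, zero_add]
        · rw [if_neg c1, if_neg (by intro hc; exact c1 hc.1), if_neg (by linarith), add_zero]
      rw [h5]
      have h6 : C * (T * Real.log T) ≤ C * (T * Real.log X) := by gcongr
      have h7 : C * (T * Real.log X) + C * (X * Real.log X) * (1 - 1 / 2 ^ K) =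
          C * (X * Real.log X) * (1 - 1 / 2 ^ (K + 1)) := by
        rw [hT, hp]
        field_simp
        ring
      rw [← h7]
      rw [hg] at h1 ⊢
      linarith
  obtain ⟨K, hK⟩ : ∃ K : ℕ, K = Nat.log 2 ⌊X / T0⌋₊ := ⟨_, rfl⟩
  have hXT : 1 ≤ X / T0 := by rw [le_div_iff₀ hT00]; linarith
  have hfl : ⌊X / T0⌋₊ ≠ 0 := by
    have : 0 < ⌊X / T0⌋₊ := Nat.floor_pos.2 hXT
    omega
  have hK1 : (2 : ℝ) ^ K ≤ X / T0 := by
    have h1 : 2 ^ K ≤ ⌊X / T0⌋₊ := by rw [hK]; exact Nat.pow_log_le_self 2 hfl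
    have h2 : ((2 ^ K : ℕ) : ℝ) ≤ (⌊X / T0⌋₊ : ℝ) := by exact_mod_cast h1
    push_cast at h2
    exact h2.trans (Nat.floor_le (by linarith))
  have hK2 : X / T0 < 2 * 2 ^ K := by
    have h1 : ⌊X / T0⌋₊ < 2 ^ (K + 1) := by rw [hK]; exact Nat.lt_pow_succ_log_self (by norm_num) _
    have h2 : ⌊X / T0⌋₊ + 1 ≤ 2 ^ (K + 1) := h1
    have h3 : ((⌊X / T0⌋₊ : ℝ) + 1) ≤ 2 ^ (K + 1) := by exact_mod_cast h2
    have h4 := Nat.lt_floor_add_one (X / T0)
    have h5 : (2 : ℝ) ^ (K + 1) = 2 * 2 ^ K := by ring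
    linarith
  have h2K : (0 : ℝ) < 2 ^ K := by positivity
  have hV1 : T0 ≤ X / 2 ^ K := by
    rw [le_div_iff₀ h2K]
    rw [le_div_iff₀ hT00] at hK1
    linarith
  have hV2 : X / 2 ^ K ≤ 2 * T0 := by
    rw [div_le_iff₀ h2K]
    rw [div_lt_iff₀ hT00] at hK2
    linarith
  have h1 := key K hV1
  have h2 : ∑ s ∈ Z.filter (fun s => s.im ≤ X / 2 ^ K), g s ≤ C0 ^ 3 := by
    obtain ⟨S, hS⟩ : ∃ S : Finset ℂ, S = Z.filter (fun s => s.im ≤ X / 2 ^ K) := ⟨_, rfl⟩
    rw [← hS]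
    have hsub : ∀ s ∈ S, s ∈ (H370.zeta_zeros_finite (2 * T0)).toFinset := by
      intro s hs
      rw [hS, Finset.mem_filter] at hs
      obtain ⟨a1, a2, a3, a4, a5⟩ := (hZ s).1 hs.1
      rw [Set.Finite.mem_toFinset]
      exact ⟨a1, a2, a3, hs.2.trans hV2, a5⟩
    have hMs : ∀ s ∈ S, MM Z s ≤ C0 := by
      intro s hs
      have e : MM Z s = tw (Z.filter fun s' => s'.im = s.im) := by
        unfold MM tw
        rw [Finset.sum_filter]
        refine Finset.sum_congr rfl fun s' _ => ?_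
        unfold kp
        by_cases hc : s'.im = s.im
        · rw [if_pos hc, if_pos (by constructor <;> linarith), mul_one]
        · rw [if_neg hc, if_neg (by rintro ⟨c1, c2⟩; apply hc; linarith), mul_zero]
      rw [e, hC0]
      apply tw_mono
      intro s' hs'
      rw [Finset.mem_filter] at hs'
      obtain ⟨a1, a2, a3, a4, a5⟩ := (hZ s').1 hs'.1
      rw [hS, Finset.mem_filter] at hs
      rw [Set.Finite.mem_toFinset]
      exact ⟨a1, a2, a3, by rw [hs'.2]; exact hs.2.trans hV2, a5⟩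
    calc ∑ s ∈ S, g s ≤ ∑ s ∈ S, (mult riemannZeta s : ℝ) * C0 ^ 2 := by
          refine Finset.sum_le_sum fun s hs => ?_
          rw [hg]
          apply mul_le_mul_of_nonneg_left _ (Nat.cast_nonneg _)
          exact pow_le_pow_left₀ (MM_nonneg _ _) (hMs s hs) 2
      _ = tw S * C0 ^ 2 := by rw [tw, Finset.sum_mul]
      _ ≤ C0 * C0 ^ 2 := by
          apply mul_le_mul_of_nonneg_right _ (by positivity)
          rw [hC0]
          exact tw_mono hsub
      _ = _ := by ring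
  have h3 : ∑ s ∈ Z, g s = (∑ s ∈ Z.filter (fun s => X / 2 ^ K < s.im), g s) +
      ∑ s ∈ Z.filter (fun s => s.im ≤ X / 2 ^ K), g s := by
    rw [Finset.sum_filter, Finset.sum_filter, ← Finset.sum_add_distrib]
    refine Finset.sum_congr rfl fun s _ => ?_
    by_cases c1 : X / 2 ^ K < s.im
    · rw [if_pos c1, if_neg (by linarith), add_zero]
    · rw [if_neg c1, if_pos (by linarith), zero_add]
  have e : ∑ s ∈ Z, (mult riemannZeta s : ℝ) * MM Z s ^ 2 = ∑ s ∈ Z, g s := by rw [hg]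
  rw [e, h3]
  have h4 : 1 ≤ X * Real.log X := by nlinarith
  have h5 : 0 ≤ C * (X * Real.log X) * (1 / 2 ^ K) := by positivity
  have h6 : C0 ^ 3 ≤ C0 ^ 3 * (X * Real.log X) := le_mul_of_one_le_right (by positivity) h4
  nlinarith

/-- the diagonal term and the zeros which are not simple and critical -/
lemma diag_upper {T : ℝ} {Z : Finset ℂ} (hZ : ∀ s, s ∈ Z ↔ s ∈ zset riemannZeta 0 T) {K : ℝ}
    (hK : 0 < K) : Pn Z 0 ≤ tw Z + K * (tw Z - (sc Z).card) +
      (∑ s ∈ Z, (mult riemannZeta s : ℝ) * MM Z s ^ 2) / K := by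
  classical
  obtain ⟨B, hB⟩ : ∃ B : Finset ℂ, B = Z.filter fun s => ¬ (s.re = 1 / 2 ∧ mult riemannZeta s = 1) :=
    ⟨_, rfl⟩
  have hscB : ∀ f : ℂ → ℝ, ∑ s ∈ Z, f s = (∑ s ∈ sc Z, f s) + ∑ s ∈ B, f s := by
    intro f
    unfold sc
    rw [hB, Finset.sum_filter_add_sum_filter_not]
  have hscm : ∀ s ∈ sc Z, s ∈ Z ∧ s.re = 1 / 2 ∧ mult riemannZeta s = 1 := by
    intro s hs
    unfold sc at hs
    rw [Finset.mem_filter] at hs
    exact ⟨hs.1, hs.2⟩
  have htB : tw B = tw Z - (sc Z).card := by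
    have h1 := hscB fun s => (mult riemannZeta s : ℝ)
    have h2 : ∑ s ∈ sc Z, (mult riemannZeta s : ℝ) = (sc Z).card := by
      rw [Finset.sum_congr rfl (g := fun _ => (1 : ℝ)) (fun s hs => by
        rw [(hscm s hs).2.2]; norm_num)]
      simp
    unfold tw
    rw [h1, h2]
    ring
  -- the simple critical zeros
  have h1 : ∑ s ∈ sc Z, (mult riemannZeta s : ℝ) * MM Z s ≤ tw Z := by
    have e1 : ∑ s ∈ sc Z, (mult riemannZeta s : ℝ) * MM Z s =
        ∑ s' ∈ Z, (mult riemannZeta s' : ℝ) * ∑ s ∈ sc Z, kp (s.im - s'.im) 0 := by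
      rw [Finset.sum_congr rfl (g := fun s => ∑ s' ∈ Z, (mult riemannZeta s' : ℝ) *
        kp (s.im - s'.im) 0) (fun s hs => by
          rw [(hscm s hs).2.2]; unfold MM; norm_num), Finset.sum_comm]
      refine Finset.sum_congr rfl fun s' _ => ?_
      rw [Finset.mul_sum]
    rw [e1]
    unfold tw
    refine Finset.sum_le_sum fun s' _ => ?_
    refine mul_le_of_le_one_right (Nat.cast_nonneg _) ?_
    have e2 : ∑ s ∈ sc Z, kp (s.im - s'.im) 0 =
        (((sc Z).filter fun s => s.im = s'.im).card : ℝ) := by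
      rw [Finset.card_filter]
      push_cast
      refine Finset.sum_congr rfl fun s _ => ?_
      unfold kp
      by_cases hc : s.im = s'.im
      · rw [if_pos hc, if_pos (by constructor <;> linarith)]
      · rw [if_neg hc, if_neg (by rintro ⟨c1, c2⟩; apply hc; linarith)]
    rw [e2]
    have h2 : ((sc Z).filter fun s => s.im = s'.im).card ≤ 1 := by
      rw [Finset.card_le_one]
      intro a ha b hb
      rw [Finset.mem_filter] at ha hb
      apply Complex.ext
      · rw [(hscm a ha.1).2.1, (hscm b hb.1).2.1]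
      · rw [ha.2, hb.2]
    exact_mod_cast h2
  -- the others
  have h2 : ∑ s ∈ B, (mult riemannZeta s : ℝ) * MM Z s ≤ K * tw B +
      (∑ s ∈ Z, (mult riemannZeta s : ℝ) * MM Z s ^ 2) / K := by
    have h3 : ∑ s ∈ B, (mult riemannZeta s : ℝ) * MM Z s ≤
        ∑ s ∈ B, (K * (mult riemannZeta s : ℝ) + (mult riemannZeta s : ℝ) * MM Z s ^ 2 / K) := by
      refine Finset.sum_le_sum fun s _ => ?_
      have hm : (0 : ℝ) ≤ (mult riemannZeta s : ℝ) := Nat.cast_nonneg _
      have hM := MM_nonneg Z s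
      have h4 : MM Z s ≤ K + MM Z s ^ 2 / K := by
        rcases le_or_gt (MM Z s) K with h5 | h5
        · have : 0 ≤ MM Z s ^ 2 / K := by positivity
          linarith
        · have : MM Z s ≤ MM Z s ^ 2 / K := by
            rw [le_div_iff₀ hK]
            nlinarith
          linarith
      calc (mult riemannZeta s : ℝ) * MM Z s ≤ (mult riemannZeta s : ℝ) *
            (K + MM Z s ^ 2 / K) := mul_le_mul_of_nonneg_left h4 hm
        _ = _ := by ring
    refine h3.trans ?_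
    rw [Finset.sum_add_distrib, ← Finset.mul_sum, ← Finset.sum_div]
    have h4 : ∑ s ∈ B, (mult riemannZeta s : ℝ) * MM Z s ^ 2 ≤
        ∑ s ∈ Z, (mult riemannZeta s : ℝ) * MM Z s ^ 2 := by
      apply Finset.sum_le_sum_of_subset_of_nonneg
      · rw [hB]; exact Finset.filter_subset _ _
      · intro s _ _
        exact mul_nonneg (Nat.cast_nonneg _) (sq_nonneg _)
    have h5 := div_le_div_of_nonneg_right h4 hK.le
    unfold tw
    linarith
  rw [Pn_zero_MM, hscB]
  rw [← htB]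
  linarith

/-- if almost all zeros are simple and critical then the diagonal term is asymptotic to the
number of zeros -/
theorem diag_of_simple {Z : ℝ → Finset ℂ} (hZ : ∀ T s, s ∈ Z T ↔ s ∈ zset riemannZeta 0 T)
    {𝓕 : Filter ℝ} (hF : 𝓕 ≤ atTop)
    (hyp : ∀ ε : ℝ, 0 < ε → ∀ᶠ T in 𝓕, (1 - ε) * tw (Z T) ≤ (sc (Z T)).card)
    {η : ℝ} (hη : 0 < η) : ∀ᶠ T in 𝓕, Pn (Z T) 0 ≤ WW T * (1 + η) := by
  obtain ⟨C, X0, hC, hX0, hcube⟩ := cube_total
  have hpi := Real.pi_pos
  obtain ⟨K, hK⟩ : ∃ K : ℝ, K = 3 * (2 * Real.pi * C) / η := ⟨_, rfl⟩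
  have hK0 : 0 < K := by rw [hK]; positivity
  obtain ⟨ε, hε⟩ : ∃ ε : ℝ, ε = min 1 (η / (6 * (K + 1))) := ⟨_, rfl⟩
  have hε0 : 0 < ε := by rw [hε]; positivity
  have hε1 : ε ≤ 1 := by rw [hε]; exact min_le_left _ _
  have hε2 : ε * (6 * (K + 1)) ≤ η := by
    have : ε ≤ η / (6 * (K + 1)) := by rw [hε]; exact min_le_right _ _
    rwa [le_div_iff₀ (by positivity)] at this
  filter_upwards [hyp ε hε0, hF (tw_asymp hZ (ε := min ε (η / 3)) (by positivity)),
    hF (eventually_ge_atTop X0)] with T h1 h2 h3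
  have hT10 : 10 ≤ T := hX0.trans h3
  have hL0 : 0 < Real.log T := Real.log_pos (by linarith)
  have hW0 : 0 < WW T := by
    have : 0 < T := by linarith
    unfold WW
    positivity
  have h4 := diag_upper (hZ T) hK0
  have h5 := hcube T h3 (Z T) (hZ T)
  obtain ⟨N, hN⟩ : ∃ N : ℝ, N = tw (Z T) := ⟨_, rfl⟩
  obtain ⟨W, hW⟩ : ∃ W : ℝ, W = WW T := ⟨_, rfl⟩
  rw [← hN] at h1 h2 h4
  rw [← hW] at h2 hW0 ⊢
  have h6 : (∑ s ∈ Z T, (mult riemannZeta s : ℝ) * MM (Z T) s ^ 2) / K ≤ η / 3 * W := by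
    rw [div_le_iff₀ hK0]
    refine h5.trans (le_of_eq ?_)
    rw [hK, hW]
    unfold WW
    field_simp
  have h7 : N ≤ (1 + η / 3) * W := h2.2.trans (by
    have := min_le_right ε (η / 3)
    nlinarith)
  have h8 : N ≤ 2 * W := h2.2.trans (by
    have := min_le_left ε (η / 3)
    nlinarith)
  have h9 : N - (sc (Z T)).card ≤ ε * N := by linarith
  have h10 : K * (N - (sc (Z T)).card) ≤ K * (ε * (2 * W)) := by
    apply mul_le_mul_of_nonneg_left _ hK0.le
    refine h9.trans ?_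
    exact mul_le_mul_of_nonneg_left h8 hε0.le
  have h11 : K * (ε * (2 * W)) ≤ η / 3 * W := by
    have : ε * K * 6 ≤ η := by nlinarith
    nlinarith
  nlinarith

end Pool.Agent.L5helper84.UV
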