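import Pool.Agent.W354.LS.Kern

set_option autoImplicit false

/-! # The integrals of the pair correlation density -/

namespace Pool.Agent.L5helper84.UV

open Filter Topology MeasureTheory Set
open Pool.Agent.W354.LS

/-- the pair correlation density -/
noncomputable def Fm (u : ℝ) : ℝ := 1 - (Real.sin (Real.pi * u) / (Real.pi * u)) ^ 2

/-- the square of the normalised sine quotient -/
noncomputable def sq2 (u : ℝ) : ℝ := Real.sinc (Real.pi * u) ^ 2

lemma sq2_cont : Continuous sq2 := by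
  unfold sq2
  exact (Real.continuous_sinc.comp (continuous_const.mul continuous_id)).pow 2

lemma sq2_nonneg (u : ℝ) : 0 ≤ sq2 u := sq_nonneg _

lemma sq2_le (u : ℝ) : sq2 u ≤ 1 := by
  unfold sq2
  have := Real.abs_sinc_le_one (Real.pi * u)
  rw [← sq_abs]
  exact pow_le_one₀ (abs_nonneg _) this

lemma sq2_neg (u : ℝ) : sq2 (-u) = sq2 u := by
  unfold sq2
  rw [mul_neg, Real.sinc_neg]

lemma Fm_eq {u : ℝ} (hu : u ≠ 0) : Fm u = 1 - sq2 u := by
  unfold Fm sq2
  rw [Real.sinc_of_ne_zero (mul_ne_zero Real.pi_ne_zero hu)]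

lemma Fm_nonneg (u : ℝ) : 0 ≤ Fm u := by
  rcases eq_or_ne u 0 with h | h
  · rw [h]; unfold Fm; simp
  · rw [Fm_eq h]; linarith [sq2_le u]

lemma Fm_le (u : ℝ) : Fm u ≤ 1 := by
  unfold Fm
  linarith [sq_nonneg (Real.sin (Real.pi * u) / (Real.pi * u))]

lemma Fm_int (a b : ℝ) : ∫ u in a..b, Fm u = (b - a) - ∫ u in a..b, sq2 u := by
  have h1 : ∫ u in a..b, Fm u = ∫ u in a..b, (1 - sq2 u) := by
    apply intervalIntegral.integral_congr_ae
    have h2 : ∀ᵐ u : ℝ, u ≠ 0 := by
      rw [ae_iff]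
      simp
    filter_upwards [h2] with u hu _
    exact Fm_eq hu
  rw [h1, intervalIntegral.integral_sub (continuous_const.intervalIntegrable _ _)
    (sq2_cont.intervalIntegrable _ _), intervalIntegral.integral_const]
  simp

/-- primitive of the density -/
noncomputable def Ph (u : ℝ) : ℝ := ∫ x in (0 : ℝ)..u, Fm x

/-- primitive of the square -/
noncomputable def Sq (u : ℝ) : ℝ := ∫ x in (0 : ℝ)..u, sq2 x

lemma Ph_eq (u : ℝ) : Ph u = u - Sq u := by
  unfold Ph Sq
  rw [Fm_int]
  simp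

lemma Sq_deriv (u : ℝ) : HasDerivAt Sq (sq2 u) u :=
  intervalIntegral.integral_hasDerivAt_right (sq2_cont.intervalIntegrable _ _)
    (sq2_cont.stronglyMeasurableAtFilter _ _) sq2_cont.continuousAt

lemma Sq_cont : Continuous Sq := continuous_iff_continuousAt.2 fun u => (Sq_deriv u).continuousAt

lemma Ph_cont : Continuous Ph := by
  have : Ph = fun u => u - Sq u := funext Ph_eq
  rw [this]
  exact continuous_id.sub Sq_cont

lemma Ph_zero : Ph 0 = 0 := by unfold Ph; simp

lemma Ph_sub (a b : ℝ) : Ph b - Ph a = ∫ u in a..b, Fm u := by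
  rw [Fm_int, Ph_eq, Ph_eq]
  have := intervalIntegral.integral_interval_sub_left (sq2_cont.intervalIntegrable 0 b)
    (sq2_cont.intervalIntegrable 0 a) (μ := volume)
  unfold Sq
  linarith

lemma Ph_mono {a b : ℝ} (h : a ≤ b) : Ph a ≤ Ph b := by
  have h1 := Ph_sub a b
  have h2 : 0 ≤ ∫ u in a..b, Fm u := intervalIntegral.integral_nonneg h fun u _ => Fm_nonneg u
  linarith

lemma Ph_lip {a b : ℝ} (h : a ≤ b) : Ph b ≤ Ph a + (b - a) := by
  have h1 := Ph_sub a b
  have h2 : 0 ≤ ∫ u in a..b, sq2 u := intervalIntegral.integral_nonneg h fun u _ => sq2_nonneg u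
  rw [Fm_int] at h1
  linarith

lemma Sq_half {u : ℝ} (hu : 0 < u) : |Sq u - 1 / 2| ≤ 1 / u := by
  have hk : ∀ t, KT 1 t = sq2 t := by
    intro t
    unfold KT sq2
    simp
  have h1 := KT_mid (δ := 1) (R := u) one_pos hu
  have h2 : ∫ t in (-u)..u, KT 1 t ≤ 1 := by
    have h3 := KT_total (δ := 1) one_pos
    refine le_trans ?_ h3.le
    rw [intervalIntegral.integral_of_le (by linarith)]
    exact setIntegral_le_integral (KT_integrable one_pos)
      (Filter.Eventually.of_forall fun z => KT_nonneg zero_le_one z)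
  have h4 : ∫ t in (-u)..u, KT 1 t = 2 * Sq u := by
    simp_rw [hk]
    have h5 : ∫ t in (-u)..0, sq2 t = Sq u := by
      unfold Sq
      have := intervalIntegral.integral_comp_neg (a := 0) (b := u) sq2
      rw [neg_zero] at this
      rw [← this]
      simp_rw [sq2_neg]
    rw [← intervalIntegral.integral_add_adjacent_intervals (b := 0)
      (sq2_cont.intervalIntegrable _ _) (sq2_cont.intervalIntegrable _ _), h5]
    unfold Sq
    ring
  rw [h4] at h1 h2
  have h5 : 2 / (1 * u) = 2 * (1 / u) := by rw [one_mul]; ring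
  rw [h5] at h1
  have h6 : 0 < 1 / u := by positivity
  rw [abs_le]
  constructor <;> linarith

lemma sq2_cos {u : ℝ} (hu : u ≠ 0) :
    2 * u * sq2 u = (1 - Real.cos (2 * Real.pi * u)) / (Real.pi ^ 2 * u) := by
  unfold sq2
  rw [Real.sinc_of_ne_zero (mul_ne_zero Real.pi_ne_zero hu)]
  have h1 : Real.cos (2 * Real.pi * u) = 1 - 2 * Real.sin (Real.pi * u) ^ 2 := by
    have := Real.cos_two_mul (Real.pi * u)
    have h2 := Real.sin_sq_add_cos_sq (Real.pi * u)
    rw [mul_assoc, this]
    linarith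
  rw [h1]
  have := Real.pi_ne_zero
  field_simp
  ring

/-- the second primitive -/
theorem sinc_int : ∃ C : ℝ, 0 < C ∧ ∀ a : ℝ, 1 ≤ a →
    |2 * (∫ u in (0 : ℝ)..a, (1 / 2 + Ph u)) - (a ^ 2 + Real.log a / Real.pi ^ 2)| ≤ C := by
  have hpi := Real.pi_pos
  have hpi3 := Real.pi_gt_three
  obtain ⟨R, hR⟩ : ∃ R : ℝ → ℝ, R = fun u => ∫ x in (0 : ℝ)..u, (1 / 2 - Sq x) := ⟨_, rfl⟩
  have hcR : Continuous fun x => 1 / 2 - Sq x := continuous_const.sub Sq_cont
  have hRd : ∀ u, HasDerivAt R (1 / 2 - Sq u) u := by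
    intro u
    rw [hR]
    exact intervalIntegral.integral_hasDerivAt_right (hcR.intervalIntegrable _ _)
      (hcR.stronglyMeasurableAtFilter _ _) hcR.continuousAt
  obtain ⟨H, hH⟩ : ∃ H : ℝ → ℝ, H = fun u => Real.sin (2 * Real.pi * u) / (2 * Real.pi * u) :=
    ⟨_, rfl⟩
  obtain ⟨Th, hTh⟩ : ∃ Th : ℝ → ℝ, Th = fun u => 2 * R u - 2 * u * (1 / 2 - Sq u) -
    Real.log u / Real.pi ^ 2 + H u / Real.pi ^ 2 := ⟨_, rfl⟩
  have hHd : ∀ u, 0 < u → HasDerivAt H (Real.cos (2 * Real.pi * u) / u -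
      Real.sin (2 * Real.pi * u) / (2 * Real.pi * u ^ 2)) u := by
    intro u hu
    rw [hH]
    have h1 : HasDerivAt (fun u : ℝ => 2 * Real.pi * u) (2 * Real.pi) u := by
      simpa using (hasDerivAt_id u).const_mul (2 * Real.pi)
    have h2 := h1.sin.div h1 (by positivity)
    refine h2.congr_deriv ?_
    field_simp
  have hThd : ∀ u, 0 < u → HasDerivAt Th (-(Real.sin (2 * Real.pi * u) /
      (2 * Real.pi ^ 3 * u ^ 2))) u := by
    intro u hu
    rw [hTh]
    have h1 := (hRd u).const_mul 2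
    have h2 : HasDerivAt (fun u => 2 * u * (1 / 2 - Sq u)) (2 * (1 / 2 - Sq u) -
        2 * u * sq2 u) u := by
      have h3 : HasDerivAt (fun u : ℝ => 2 * u) 2 u := by
        simpa using (hasDerivAt_id u).const_mul 2
      have h4 := (Sq_deriv u).const_sub (1 / 2)
      refine (h3.mul h4).congr_deriv ?_
      ring
    have h5 := (Real.hasDerivAt_log hu.ne').div_const (Real.pi ^ 2)
    have h6 := (hHd u hu).div_const (Real.pi ^ 2)
    refine (((h1.sub h2).sub h5).add h6).congr_deriv ?_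
    rw [sq2_cos hu.ne']
    field_simp
    ring
  have hvar : ∀ a, 1 ≤ a → |Th a - Th 1| ≤ 1 := by
    intro a ha
    have hc : ContinuousOn (fun u : ℝ => -(Real.sin (2 * Real.pi * u) /
      (2 * Real.pi ^ 3 * u ^ 2))) (Set.uIcc 1 a) := by
      rw [Set.uIcc_of_le ha]
      intro u hu
      have hu0 : 0 < u := by linarith [hu.1]
      apply ContinuousAt.continuousWithinAt
      apply ContinuousAt.neg
      apply ContinuousAt.div (by fun_prop) (by fun_prop)
      positivity
    have h1 : ∫ u in (1 : ℝ)..a, (-(Real.sin (2 * Real.pi * u) /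
      (2 * Real.pi ^ 3 * u ^ 2))) = Th a - Th 1 := by
      apply intervalIntegral.integral_eq_sub_of_hasDerivAt
      · intro u hu
        rw [Set.uIcc_of_le ha] at hu
        exact hThd u (by linarith [hu.1])
      · exact hc.intervalIntegrable
    have hc2 : ContinuousOn (fun u : ℝ => 1 / u ^ 2) (Set.uIcc 1 a) := by
      rw [Set.uIcc_of_le ha]
      intro u hu
      have hu0 : 0 < u := by linarith [hu.1]
      apply ContinuousAt.continuousWithinAt
      apply ContinuousAt.div (by fun_prop) (by fun_prop)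
      positivity
    have h2 : ∫ u in (1 : ℝ)..a, 1 / u ^ 2 = 1 - 1 / a := by
      have h3 : ∀ u ∈ Set.uIcc 1 a, HasDerivAt (fun u : ℝ => -u⁻¹) (1 / u ^ 2) u := by
        intro u hu
        rw [Set.uIcc_of_le ha] at hu
        have hu0 : u ≠ 0 := by linarith [hu.1]
        refine (hasDerivAt_inv hu0).neg.congr_deriv ?_
        field_simp
      rw [intervalIntegral.integral_eq_sub_of_hasDerivAt h3 hc2.intervalIntegrable]
      simp
      ring
    rw [← h1]
    have h3 : |∫ u in (1 : ℝ)..a, (-(Real.sin (2 * Real.pi * u) /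
      (2 * Real.pi ^ 3 * u ^ 2)))| ≤ ∫ u in (1 : ℝ)..a, 1 / u ^ 2 := by
      rw [← Real.norm_eq_abs]
      refine (intervalIntegral.norm_integral_le_integral_norm ha).trans ?_
      refine intervalIntegral.integral_mono_on ha hc.intervalIntegrable.norm
        hc2.intervalIntegrable fun u hu => ?_
      have hu0 : 0 < u := by linarith [hu.1]
      rw [Real.norm_eq_abs, abs_neg, abs_div, abs_of_pos (by positivity :
        0 < 2 * Real.pi ^ 3 * u ^ 2)]
      have h4 := Real.abs_sin_le_one (2 * Real.pi * u)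
      have h5 : (1 : ℝ) ≤ 2 * Real.pi ^ 3 := by
        have : (1 : ℝ) ≤ Real.pi ^ 3 := one_le_pow₀ (by linarith)
        linarith
      apply div_le_div₀ zero_le_one h4 (by positivity)
      have : 0 ≤ u ^ 2 := by positivity
      nlinarith
    refine h3.trans ?_
    rw [h2]
    have : 0 < 1 / a := by positivity
    linarith
  refine ⟨|Th 1| + 4, by positivity, fun a ha => ?_⟩
  have ha0 : 0 < a := by linarith
  have e1 : 2 * (∫ u in (0 : ℝ)..a, (1 / 2 + Ph u)) = a ^ 2 + 2 * R a := by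
    have e2 : (fun u => 1 / 2 + Ph u) = fun u => u + (1 / 2 - Sq u) := by
      funext u
      rw [Ph_eq]
      ring
    rw [e2, intervalIntegral.integral_add (f := fun u : ℝ => u)
      (continuous_id.intervalIntegrable _ _) (hcR.intervalIntegrable _ _), hR]
    simp only
    rw [show (∫ x in (0 : ℝ)..a, x) = a ^ 2 / 2 by rw [integral_id]; ring]
    ring
  have e3 : 2 * (∫ u in (0 : ℝ)..a, (1 / 2 + Ph u)) - (a ^ 2 + Real.log a / Real.pi ^ 2) =
      (Th a - Th 1) + Th 1 + 2 * a * (1 / 2 - Sq a) - H a / Real.pi ^ 2 := by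
    rw [e1, hTh]
    ring
  rw [e3]
  have b1 : |2 * a * (1 / 2 - Sq a)| ≤ 2 := by
    rw [abs_mul, abs_of_pos (by positivity), abs_sub_comm]
    have := Sq_half ha0
    calc 2 * a * |Sq a - 1 / 2| ≤ 2 * a * (1 / a) := by gcongr
      _ = 2 := by field_simp
  have b2 : |H a / Real.pi ^ 2| ≤ 1 := by
    rw [hH]
    simp only
    rw [abs_div, abs_div, abs_of_pos (by positivity : 0 < 2 * Real.pi * a),
      abs_of_pos (by positivity : 0 < Real.pi ^ 2)]
    have h4 := Real.abs_sin_le_one (2 * Real.pi * a)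
    have h5 : |Real.sin (2 * Real.pi * a)| / (2 * Real.pi * a) ≤ 1 := by
      rw [div_le_one (by positivity)]
      refine h4.trans ?_
      nlinarith
    rw [div_le_one (by positivity)]
    refine h5.trans ?_
    nlinarith
  have b3 := hvar a ha
  calc |Th a - Th 1 + Th 1 + 2 * a * (1 / 2 - Sq a) - H a / Real.pi ^ 2| ≤
      |Th a - Th 1| + |Th 1| + |2 * a * (1 / 2 - Sq a)| + |H a / Real.pi ^ 2| := by
        refine (abs_sub _ _).trans (add_le_add ((abs_add_le _ _).trans (add_le_add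
          (abs_add_le _ _) le_rfl)) le_rfl)
    _ ≤ 1 + |Th 1| + 2 + 1 := by gcongr
    _ = |Th 1| + 4 := by ring

end Pool.Agent.L5helper84.UV
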