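import Pool.Agent.L5helper84.UV.Tot
import Pool.Agent.L5helper84.UV.Sinc
import Pool.Agent.W54.TCF.NT

set_option autoImplicit false

/-! # The mean of the pair correlation function -/

namespace Pool.Agent.L5helper84.UV

open Complex Filter Topology MeasureTheory Set
open H370 (mult Zf zset mem_Zf good_zeta zz NN NN_add NN_mono)

/-- the pair indicator -/
noncomputable def kp (x v : ℝ) : ℝ := if 0 ≤ x ∧ x ≤ v then 1 else 0

/-- the number of ordered pairs with difference of the ordinates in `[0, v]` -/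
noncomputable def Pn (Z : Finset ℂ) (v : ℝ) : ℝ := ∑ s ∈ Z, ∑ s' ∈ Z,
  (mult riemannZeta s : ℝ) * (mult riemannZeta s' : ℝ) * kp (s.im - s'.im) v

lemma kp_nonneg (x v : ℝ) : 0 ≤ kp x v := by unfold kp; split_ifs <;> norm_num

lemma kp_le (x v : ℝ) : kp x v ≤ 1 := by unfold kp; split_ifs <;> norm_num

lemma kp_mono (x : ℝ) {v v' : ℝ} (h : v ≤ v') : kp x v ≤ kp x v' := by
  unfold kp
  by_cases hc : 0 ≤ x ∧ x ≤ v
  · rw [if_pos hc, if_pos ⟨hc.1, hc.2.trans h⟩]
  · rw [if_neg hc]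
    split_ifs <;> norm_num

lemma kp_meas (x : ℝ) : Measurable (kp x) := by
  unfold kp
  refine Measurable.ite ?_ measurable_const measurable_const
  by_cases h : 0 ≤ x
  · have : {v : ℝ | 0 ≤ x ∧ x ≤ v} = Set.Ici x := by
      ext v
      simp [h]
    rw [this]
    exact measurableSet_Ici
  · have : {v : ℝ | 0 ≤ x ∧ x ≤ v} = ∅ := by
      ext v
      simp [h]
    rw [this]
    exact MeasurableSet.empty

lemma kp_ii (x a b : ℝ) : IntervalIntegrable (kp x) volume a b :=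
  bdd_ii (kp_meas x) (M := 1) (fun t => by
    rw [abs_of_nonneg (kp_nonneg _ _)]; exact kp_le _ _) a b

lemma kp_int {h : ℝ} (hh : 0 ≤ h) (x : ℝ) :
    ∫ v in (0 : ℝ)..h, kp x v = if 0 ≤ x then max (h - x) 0 else 0 := by
  by_cases hx : 0 ≤ x
  · rw [if_pos hx]
    have h1 : ∫ v in (0 : ℝ)..h, kp x v =
        ∫ v in (0 : ℝ)..h, (Set.Ioi x).indicator (fun _ => (1 : ℝ)) v := by
      apply intervalIntegral.integral_congr_ae
      have h2 : ∀ᵐ u : ℝ, u ≠ x := by
        rw [ae_iff]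
        simp
      filter_upwards [h2] with u hu _
      unfold kp
      by_cases h3 : x ≤ u
      · rw [if_pos ⟨hx, h3⟩, Set.indicator_of_mem]
        exact lt_of_le_of_ne h3 (Ne.symm hu)
      · rw [if_neg (fun hc => h3 hc.2), Set.indicator_of_notMem]
        intro h4
        exact h3 (le_of_lt h4)
    rw [h1, intervalIntegral.integral_of_le hh, setIntegral_indicator measurableSet_Ioi]
    have h2 : Set.Ioc 0 h ∩ Set.Ioi x = Set.Ioc x h := by
      rw [Set.Ioc_inter_Ioi, max_eq_right hx]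
    rw [h2, setIntegral_const, smul_eq_mul, mul_one, Measure.real, Real.volume_Ioc]
    rcases le_total x h with h3 | h3
    · rw [ENNReal.toReal_ofReal (by linarith), max_eq_left (by linarith)]
    · rw [ENNReal.ofReal_of_nonpos (by linarith), max_eq_right (by linarith)]
      simp
  · rw [if_neg hx]
    have : ∀ v, kp x v = 0 := by
      intro v
      unfold kp
      rw [if_neg (fun hc => hx hc.1)]
    simp_rw [this]
    simp

lemma Pn_nonneg (Z : Finset ℂ) (v : ℝ) : 0 ≤ Pn Z v :=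
  Finset.sum_nonneg fun _ _ => Finset.sum_nonneg fun _ _ =>
    mul_nonneg (mul_nonneg (Nat.cast_nonneg _) (Nat.cast_nonneg _)) (kp_nonneg _ _)

lemma Pn_mono (Z : Finset ℂ) : Monotone (Pn Z) := by
  intro v v' h
  exact Finset.sum_le_sum fun _ _ => Finset.sum_le_sum fun _ _ =>
    mul_le_mul_of_nonneg_left (kp_mono _ h) (mul_nonneg (Nat.cast_nonneg _) (Nat.cast_nonneg _))

lemma Pn_int (Z : Finset ℂ) {h : ℝ} (hh : 0 ≤ h) : ∫ v in (0 : ℝ)..h, Pn Z v =
    ∑ s ∈ Z, ∑ s' ∈ Z, (mult riemannZeta s : ℝ) * (mult riemannZeta s' : ℝ) *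
      (if 0 ≤ s.im - s'.im then max (h - (s.im - s'.im)) 0 else 0) := by
  have ii : ∀ s s' : ℂ, IntervalIntegrable (fun v => (mult riemannZeta s : ℝ) *
      (mult riemannZeta s' : ℝ) * kp (s.im - s'.im) v) volume 0 h := by
    intro s s'
    exact (kp_ii _ _ _).const_mul _
  unfold Pn
  rw [intervalIntegral.integral_finsetSum fun s _ => ?_]
  · refine Finset.sum_congr rfl fun s hs => ?_
    rw [intervalIntegral.integral_finsetSum fun s' _ => ii s s']
    refine Finset.sum_congr rfl fun s' _ => ?_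
    rw [intervalIntegral.integral_const_mul, kp_int hh]
  · have : (fun v => ∑ s' ∈ Z, (mult riemannZeta s : ℝ) *
      (mult riemannZeta s' : ℝ) * kp (s.im - s'.im) v) = ∑ s' ∈ Z, fun v =>
      (mult riemannZeta s : ℝ) * (mult riemannZeta s' : ℝ) * kp (s.im - s'.im) v := by
      funext t
      rw [Finset.sum_apply]
    rw [this]
    exact IntervalIntegrable.sum _ fun s' _ => ii s s'

/-- the sum over pairs -/
theorem pair_id (Z : Finset ℂ) {h : ℝ} (hh : 0 ≤ h) : ∑ s ∈ Z, ∑ s' ∈ Z,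
      (mult riemannZeta s : ℝ) * (mult riemannZeta s' : ℝ) * max (h - |s.im - s'.im|) 0 =
    2 * (∫ v in (0 : ℝ)..h, Pn Z v) - h * Pn Z 0 := by
  have hsym : ∑ s ∈ Z, ∑ s' ∈ Z, (mult riemannZeta s : ℝ) * (mult riemannZeta s' : ℝ) *
      (if 0 ≤ s'.im - s.im then max (h - (s'.im - s.im)) 0 else 0) =
      ∑ s ∈ Z, ∑ s' ∈ Z, (mult riemannZeta s : ℝ) * (mult riemannZeta s' : ℝ) *
      (if 0 ≤ s.im - s'.im then max (h - (s.im - s'.im)) 0 else 0) := by
    rw [Finset.sum_comm]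
    refine Finset.sum_congr rfl fun s _ => Finset.sum_congr rfl fun s' _ => ?_
    ring
  have key : ∀ x : ℝ, max (h - |x|) 0 = (if 0 ≤ x then max (h - x) 0 else 0) +
      (if 0 ≤ -x then max (h - (-x)) 0 else 0) - h * kp x 0 := by
    intro x
    unfold kp
    rcases lt_trichotomy x 0 with hx | hx | hx
    · rw [if_neg (by linarith), if_pos (by linarith), if_neg (by intro hc; linarith [hc.1]),
        abs_of_neg hx]
      ring
    · subst hx
      simp [hh]
    · rw [if_pos hx.le, if_neg (by linarith), if_neg (by intro hc; linarith [hc.2]),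
        abs_of_pos hx]
      ring
  rw [Pn_int Z hh, two_mul]
  nth_rewrite 1 [← hsym]
  unfold Pn
  rw [Finset.mul_sum, ← Finset.sum_add_distrib, ← Finset.sum_sub_distrib]
  refine Finset.sum_congr rfl fun s _ => ?_
  rw [Finset.mul_sum, ← Finset.sum_add_distrib, ← Finset.sum_sub_distrib]
  refine Finset.sum_congr rfl fun s' _ => ?_
  rw [key (s.im - s'.im), neg_sub]
  ring

/-- the integral in the scaled variable -/
lemma Pn_scale (Z : Finset ℂ) {c a : ℝ} (hc : 0 < c) :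
    ∫ v in (0 : ℝ)..(c * a), Pn Z v = c * ∫ u in (0 : ℝ)..a, Pn Z (c * u) := by
  rw [intervalIntegral.integral_comp_mul_left (Pn Z) hc.ne', mul_zero, smul_eq_mul]
  field_simp

lemma Pn_ii (Z : Finset ℂ) {c : ℝ} (hc : 0 < c) (a b : ℝ) :
    IntervalIntegrable (fun u => Pn Z (c * u)) volume a b := by
  apply Monotone.intervalIntegrable
  intro u v h
  exact Pn_mono Z (mul_le_mul_of_nonneg_left h hc.le)

/-- the mean of the pair counting function -/
theorem pair_mean0 : ∃ C X0 : ℝ, 0 < C ∧ 10 ≤ X0 ∧ ∀ X : ℝ, X0 ≤ X →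
    ∀ Z : Finset ℂ, (∀ s, s ∈ Z ↔ s ∈ zset riemannZeta 0 X) →
    ∀ a : ℝ, 1 ≤ a → a ^ 2 ≤ Real.log X →
      |2 * (∫ u in (0 : ℝ)..a, Pn Z (2 * Real.pi / Real.log X * u)) - a * Pn Z 0 -
        X * Real.log X / (2 * Real.pi) * (a ^ 2 + Real.log a / Real.pi ^ 2)| ≤
        C * (X * Real.log X / (2 * Real.pi)) := by
  obtain ⟨lam, C, X1, hlam, hC, hX1, htot⟩ := total
  have hpi := Real.pi_pos
  have hpi3 := Real.pi_gt_three
  obtain ⟨X2, hX2⟩ := (Real.tendsto_log_atTop.eventually_ge_atTop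
    ((2 * lam) ^ 2)).exists_forall_of_atTop
  obtain ⟨C', hC'⟩ : ∃ C' : ℝ, C' = C + (2 * (2 * lam) ^ 2) := ⟨_, rfl⟩
  refine ⟨C', max X1 X2, by rw [hC']; positivity, hX1.trans (le_max_left _ _),
    fun X hX Z hZ a ha ha2 => ?_⟩
  have hXX1 : X1 ≤ X := (le_max_left _ _).trans hX
  have hX10 : 10 ≤ X := hX1.trans hXX1
  have hlX := hX2 X ((le_max_right _ _).trans hX)
  obtain ⟨L, hL⟩ : ∃ L : ℝ, L = Real.log X := ⟨_, rfl⟩
  have h1 := htot X hXX1 Z hZ
  rw [← hL] at ha2 hlX h1 ⊢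
  have hL1 : 1 ≤ L := by nlinarith
  have hL0 : 0 < L := by linarith
  have hXp : 0 < X := by linarith
  have ha0 : 0 < a := by linarith
  have haL : a ≤ L := by nlinarith
  have hpt : ∀ b : ℝ, 0 ≤ b → b ≤ L → 0 ≤ 2 * Real.pi * b / L ∧ 2 * Real.pi * b / L ≤ 7 := by
    intro b hb hbL
    refine ⟨by positivity, ?_⟩
    rw [div_le_iff₀ hL0]
    have : 2 * Real.pi ≤ 7 := by linarith [Real.pi_lt_d2]
    nlinarith
  -- the second moment
  have h2 : |(∫ t in (-8 : ℝ)..X, cn Z t (2 * Real.pi * a / L) ^ 2) -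
        X * (a ^ 2 + Real.log a / Real.pi ^ 2)| ≤ C' * X := by
    rcases le_or_gt (2 * lam) a with h3 | h3
    · refine (h1 a h3 ha2).trans ?_
      rw [hC']
      nlinarith [sq_nonneg (2 * lam)]
    · have h4 := h1 (2 * lam) le_rfl hlX
      obtain ⟨b, hb⟩ : ∃ b : ℝ, b = 2 * lam := ⟨_, rfl⟩
      rw [← hb] at h3 h4 hC' hlX
      have hb1 : 1 ≤ b := by linarith
      have hbL : b ≤ L := by nlinarith
      have h5 : (∫ t in (-8 : ℝ)..X, cn Z t (2 * Real.pi * a / L) ^ 2) ≤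
          ∫ t in (-8 : ℝ)..X, cn Z t (2 * Real.pi * b / L) ^ 2 := by
        refine intervalIntegral.integral_mono_on (by linarith) (cn_sq_ii _ _ _ _)
          (cn_sq_ii _ _ _ _) fun t _ => ?_
        apply pow_le_pow_left₀ (cn_nonneg _ _ _)
        apply cn_mono
        gcongr
      have h6 : 0 ≤ (∫ t in (-8 : ℝ)..X, cn Z t (2 * Real.pi * a / L) ^ 2) :=
        intervalIntegral.integral_nonneg (by linarith) fun t _ => sq_nonneg _
      have hmm : ∀ c : ℝ, 1 ≤ c → c ≤ b → 0 ≤ c ^ 2 + Real.log c / Real.pi ^ 2 ∧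
          c ^ 2 + Real.log c / Real.pi ^ 2 ≤ 2 * b ^ 2 := by
        intro c hc hcb
        have g1 : 0 ≤ Real.log c := Real.log_nonneg hc
        have g2 : Real.log c ≤ c := by
          have := Real.log_le_sub_one_of_pos (show 0 < c by linarith)
          linarith
        have g3 : Real.log c / Real.pi ^ 2 ≤ Real.log c := div_le_self g1 (by nlinarith)
        refine ⟨by positivity, ?_⟩
        nlinarith
      obtain ⟨g1, g2⟩ := hmm a ha h3.le
      obtain ⟨g3, g4⟩ := hmm b hb1 le_rfl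
      have h7 := abs_le.1 h4
      have h8 : X * (b ^ 2 + Real.log b / Real.pi ^ 2) ≤ X * (2 * b ^ 2) :=
        mul_le_mul_of_nonneg_left g4 hXp.le
      have h9 : X * (a ^ 2 + Real.log a / Real.pi ^ 2) ≤ X * (2 * b ^ 2) :=
        mul_le_mul_of_nonneg_left g2 hXp.le
      have h10 : 0 ≤ X * (a ^ 2 + Real.log a / Real.pi ^ 2) := by positivity
      have h11 : C' * X = C * X + X * (2 * b ^ 2) := by rw [hC']; ring
      rw [h11, abs_le]
      have h12 : 0 ≤ C * X := by positivity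
      constructor <;> linarith [h7.1, h7.2]
  obtain ⟨q1, q2⟩ := hpt a ha0.le haL
  rw [int_cn_sq (fun s hs => ?_) (by linarith), pair_id Z q1] at h2
  · have e1 : 2 * Real.pi * a / L = 2 * Real.pi / L * a := by ring
    rw [e1, Pn_scale Z (by positivity)] at h2
    obtain ⟨J, hJ⟩ : ∃ J : ℝ, J = ∫ u in (0 : ℝ)..a, Pn Z (2 * Real.pi / L * u) := ⟨_, rfl⟩
    rw [← hJ] at h2 ⊢
    have e2 : 2 * J - a * Pn Z 0 - X * L / (2 * Real.pi) * (a ^ 2 + Real.log a / Real.pi ^ 2) =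
        L / (2 * Real.pi) * (2 * (2 * Real.pi / L * J) - 2 * Real.pi / L * a * Pn Z 0 -
          X * (a ^ 2 + Real.log a / Real.pi ^ 2)) := by
      field_simp
    rw [e2, abs_mul, abs_of_pos (by positivity)]
    calc L / (2 * Real.pi) * |2 * (2 * Real.pi / L * J) - 2 * Real.pi / L * a * Pn Z 0 -
          X * (a ^ 2 + Real.log a / Real.pi ^ 2)| ≤ L / (2 * Real.pi) * (C' * X) := by
          gcongr
      _ = _ := by ring
  · obtain ⟨a1, a2, a3, a4, a5⟩ := (hZ s).1 hs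
    exact ⟨by linarith, a4⟩

/-- the mean of the pair counting function, in terms of the pair correlation density -/
theorem pair_mean : ∃ C X0 : ℝ, 0 < C ∧ 10 ≤ X0 ∧ ∀ X : ℝ, X0 ≤ X →
    ∀ Z : Finset ℂ, (∀ s, s ∈ Z ↔ s ∈ zset riemannZeta 0 X) →
    ∀ a : ℝ, 1 ≤ a → a ^ 2 ≤ Real.log X →
      |∫ u in (0 : ℝ)..a, (Pn Z (2 * Real.pi / Real.log X * u) - Pn Z 0 / 2 -
        X * Real.log X / (2 * Real.pi) * (1 / 2 + Ph u))| ≤
        C * (X * Real.log X / (2 * Real.pi)) := by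
  obtain ⟨C, X0, hC, hX0, h⟩ := pair_mean0
  obtain ⟨C1, hC1, hs⟩ := sinc_int
  have hpi := Real.pi_pos
  refine ⟨C + C1, X0, by positivity, hX0, fun X hX Z hZ a ha ha2 => ?_⟩
  have h1 := h X hX Z hZ a ha ha2
  have h2 := hs a ha
  have hX10 : 10 ≤ X := hX0.trans hX
  have hL0 : 0 < Real.log X := Real.log_pos (by linarith)
  obtain ⟨c, hc⟩ : ∃ c : ℝ, c = 2 * Real.pi / Real.log X := ⟨_, rfl⟩
  have hc0 : 0 < c := by rw [hc]; positivity
  obtain ⟨W, hW⟩ : ∃ W : ℝ, W = X * Real.log X / (2 * Real.pi) := ⟨_, rfl⟩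
  have hW0 : 0 < W := by rw [hW]; have : 0 < X := by linarith
                         positivity
  rw [← hc, ← hW] at h1 ⊢
  have hP : Continuous fun u => 1 / 2 + Ph u := continuous_const.add Ph_cont
  rw [intervalIntegral.integral_sub ((Pn_ii Z hc0 _ _).sub (continuous_const.intervalIntegrable _ _))
    ((hP.intervalIntegrable _ _).const_mul W), intervalIntegral.integral_sub (Pn_ii Z hc0 _ _)
    (continuous_const.intervalIntegrable _ _), intervalIntegral.integral_const,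
    intervalIntegral.integral_const_mul, smul_eq_mul, sub_zero]
  obtain ⟨I1, hI1⟩ : ∃ I1 : ℝ, I1 = ∫ u in (0 : ℝ)..a, Pn Z (c * u) := ⟨_, rfl⟩
  obtain ⟨I2, hI2⟩ : ∃ I2 : ℝ, I2 = ∫ u in (0 : ℝ)..a, (1 / 2 + Ph u) := ⟨_, rfl⟩
  rw [← hI1] at h1 ⊢
  rw [← hI2] at h2 ⊢
  have h3 : |W * (2 * I2 - (a ^ 2 + Real.log a / Real.pi ^ 2))| ≤ W * C1 := by
    rw [abs_mul, abs_of_pos hW0]
    exact mul_le_mul_of_nonneg_left h2 hW0.le
  have h4 := abs_le.1 h1
  have h5 := abs_le.1 h3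
  have h6 : 0 ≤ C * W := by positivity
  have h7 : 0 ≤ C1 * W := by positivity
  rw [abs_le]
  constructor <;> nlinarith [h4.1, h4.2, h5.1, h5.2]

end Pool.Agent.L5helper84.UV
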