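import Pool.Agent.L5helper84.UV.Pair

set_option autoImplicit false

/-! # Pointwise bounds for the pair counting function -/

namespace Pool.Agent.L5helper84.UV

open Complex Filter Topology MeasureTheory Set
open H370 (mult Zf zset mem_Zf good_zeta zz NN NN_add NN_mono)

theorem pair_pt : ∃ C X0 : ℝ, 0 < C ∧ 10 ≤ X0 ∧ ∀ X : ℝ, X0 ≤ X →
    ∀ Z : Finset ℂ, (∀ s, s ∈ Z ↔ s ∈ zset riemannZeta 0 X) →
    ∀ u : ℝ, 0 ≤ u → (u + 1) ^ 2 ≤ Real.log X →
      |Pn Z (2 * Real.pi / Real.log X * u) - Pn Z 0 / 2 -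
        X * Real.log X / (2 * Real.pi) * (1 / 2 + Ph u)| ≤
        C * (X * Real.log X / (2 * Real.pi)) := by
  obtain ⟨C, X0, hC, hX0, h⟩ := pair_mean
  have hpi := Real.pi_pos
  refine ⟨2 * (C + 2) + 2, X0, by positivity, hX0, fun X hX Z hZ u hu hu2 => ?_⟩
  have hX10 : 10 ≤ X := hX0.trans hX
  have hL0 : 0 < Real.log X := Real.log_pos (by linarith)
  have h0 := h X hX Z hZ
  obtain ⟨c, hc⟩ : ∃ c : ℝ, c = 2 * Real.pi / Real.log X := ⟨_, rfl⟩
  have hc0 : 0 < c := by rw [hc]; positivity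
  obtain ⟨W, hW⟩ : ∃ W : ℝ, W = X * Real.log X / (2 * Real.pi) := ⟨_, rfl⟩
  have hW0 : 0 < W := by rw [hW]; have : 0 < X := by linarith
                         positivity
  rw [← hc, ← hW] at h0 ⊢
  obtain ⟨n, hn⟩ : ∃ n : ℝ → ℝ, n = fun u => Pn Z (c * u) - Pn Z 0 / 2 := ⟨_, rfl⟩
  have hnm : Monotone n := by
    intro x y hxy
    rw [hn]
    simp only
    have := Pn_mono Z (mul_le_mul_of_nonneg_left hxy hc0.le)
    linarith
  have hn0 : ∀ v, 0 ≤ v → 0 ≤ n v := by
    intro v hv
    rw [hn]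
    simp only
    have h1 : Pn Z 0 ≤ Pn Z (c * v) := Pn_mono Z (by positivity)
    have h2 := Pn_nonneg Z 0
    linarith
  have hni : ∀ a b, IntervalIntegrable n volume a b := fun a b => hnm.intervalIntegrable
  have hG : Continuous fun u => 1 / 2 + Ph u := continuous_const.add Ph_cont
  have hGi : ∀ a b, IntervalIntegrable (fun u => W * (1 / 2 + Ph u)) volume a b := fun a b =>
    (hG.intervalIntegrable _ _).const_mul W
  have hL1 : 1 ≤ Real.log X := by nlinarith
  -- bounds for the density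
  have hPb : ∀ v w, 0 ≤ v → v ≤ w → w ≤ v + 1 → (w - v) * (W * (1 / 2 + Ph v)) ≤
      (∫ x in v..w, W * (1 / 2 + Ph x)) ∧ (∫ x in v..w, W * (1 / 2 + Ph x)) ≤
      (w - v) * (W * (1 / 2 + Ph w)) := by
    intro v w hv hvw _
    have i1 : ∀ z, ∫ _x in v..w, W * (1 / 2 + Ph z) = (w - v) * (W * (1 / 2 + Ph z)) := by
      intro z
      rw [intervalIntegral.integral_const, smul_eq_mul]
    rw [← i1 v, ← i1 w]
    constructor
    · refine intervalIntegral.integral_mono_on hvw (continuous_const.intervalIntegrable _ _)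
        (hGi _ _) fun x hx => ?_
      have := Ph_mono hx.1
      gcongr
    · refine intervalIntegral.integral_mono_on hvw (hGi _ _)
        (continuous_const.intervalIntegrable _ _) fun x hx => ?_
      have := Ph_mono hx.2
      gcongr
  have hmain : ∀ v, 0 ≤ v → v ^ 2 ≤ Real.log X →
      |(∫ x in (0 : ℝ)..v, n x) - ∫ x in (0 : ℝ)..v, W * (1 / 2 + Ph x)| ≤ (C + 2) * W := by
    intro v hv hv2
    have key : ∀ v, 1 ≤ v → v ^ 2 ≤ Real.log X →
        |(∫ x in (0 : ℝ)..v, n x) - ∫ x in (0 : ℝ)..v, W * (1 / 2 + Ph x)| ≤ C * W := by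
      intro v hv1 hv2
      rw [← intervalIntegral.integral_sub (hni _ _) (hGi _ _)]
      have := h0 v hv1 hv2
      rw [hn]
      exact this
    rcases le_or_gt 1 v with h1 | h1
    · refine (key v h1 hv2).trans ?_
      nlinarith
    · have h2 := key 1 le_rfl (by linarith)
      have h3 := (hPb 0 1 le_rfl zero_le_one (by norm_num)).2
      have h4 := hPb 0 v le_rfl hv (by linarith)
      have h5 : ∫ x in (0 : ℝ)..v, n x ≤ ∫ x in (0 : ℝ)..1, n x := by
        apply intervalIntegral.integral_mono_interval le_rfl hv h1.le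
        · rw [Filter.EventuallyLE, ae_restrict_iff' measurableSet_Ioc]
          exact Filter.Eventually.of_forall fun x hx => hn0 x hx.1.le
        · exact hni _ _
      have h6 : 0 ≤ ∫ x in (0 : ℝ)..v, n x :=
        intervalIntegral.integral_nonneg hv fun x hx => hn0 x hx.1
      have h7 : Ph 1 ≤ 1 := by
        have := Ph_lip (a := 0) (b := 1) zero_le_one
        rw [Ph_zero] at this
        linarith
      have h8 : Ph v ≤ 1 := (Ph_mono h1.le).trans h7
      have h9 : 0 ≤ Ph v := by have := Ph_mono hv; rwa [Ph_zero] at this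
      have h10 : (v - 0) * (W * (1 / 2 + Ph v)) ≤ 1 * (W * (3 / 2)) := by
        apply mul_le_mul (by linarith) _ (by positivity) zero_le_one
        apply mul_le_mul_of_nonneg_left _ hW0.le
        linarith
      have h11 : (1 - 0) * (W * (1 / 2 + Ph 1)) ≤ 1 * (W * (3 / 2)) := by
        apply mul_le_mul (by linarith) _ _ zero_le_one
        · apply mul_le_mul_of_nonneg_left _ hW0.le
          linarith
        · have : 0 ≤ Ph 1 := by have := Ph_mono (zero_le_one (α := ℝ)); rwa [Ph_zero] at this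
          positivity
      have h12 : 0 ≤ (v - 0) * (W * (1 / 2 + Ph 0)) := by
        rw [Ph_zero, sub_zero]
        positivity
      have h13 := abs_le.1 h2
      rw [abs_le]
      constructor <;> nlinarith [h13.1, h13.2]
  have hdiff : ∀ v w, 0 ≤ v → v ≤ w → w ^ 2 ≤ Real.log X →
      |(∫ x in v..w, n x) - ∫ x in v..w, W * (1 / 2 + Ph x)| ≤ 2 * ((C + 2) * W) := by
    intro v w hv hvw hw2
    have h1 := hmain v hv (by nlinarith)
    have h2 := hmain w (by linarith) hw2
    have e1 := intervalIntegral.integral_interval_sub_left (hni 0 w) (hni 0 v)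
    have e2 := intervalIntegral.integral_interval_sub_left (hGi 0 w) (hGi 0 v)
    rw [← e1, ← e2]
    have h3 := abs_le.1 h1
    have h4 := abs_le.1 h2
    rw [abs_le]
    constructor <;> linarith [h3.1, h3.2, h4.1, h4.2]
  have hnu : Pn Z (c * u) - Pn Z 0 / 2 = n u := by rw [hn]
  rw [hnu, abs_le]
  have hPu1 : Ph (u + 1) ≤ Ph u + 1 := by
    have := Ph_lip (a := u) (b := u + 1) (by linarith)
    linarith
  constructor
  · rcases le_or_gt 1 u with h1 | h1
    · have h2 := (abs_le.1 (hdiff (u - 1) u (by linarith) (by linarith) (by nlinarith))).1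
      have h3 := (hPb (u - 1) u (by linarith) (by linarith) (by linarith)).1
      have h4 : ∫ x in (u - 1)..u, n x ≤ n u := by
        calc ∫ x in (u - 1)..u, n x ≤ ∫ _x in (u - 1)..u, n u :=
              intervalIntegral.integral_mono_on (by linarith) (hni _ _)
                (continuous_const.intervalIntegrable _ _) fun x hx => hnm hx.2
          _ = n u := by rw [intervalIntegral.integral_const, smul_eq_mul]; ring
      have h5 : Ph u ≤ Ph (u - 1) + 1 := by
        have := Ph_lip (a := u - 1) (b := u) (by linarith)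
        linarith
      have h6 : (u - (u - 1)) * (W * (1 / 2 + Ph (u - 1))) = W * (1 / 2 + Ph (u - 1)) := by ring
      rw [h6] at h3
      have h7 : W * (Ph u - 1) ≤ W * Ph (u - 1) := mul_le_mul_of_nonneg_left (by linarith) hW0.le
      nlinarith
    · have h2 := hn0 u hu
      have h7 : Ph u ≤ 1 := by
        have := Ph_lip (a := 0) (b := u) hu
        rw [Ph_zero] at this
        linarith
      have h8 : W * (1 / 2 + Ph u) ≤ W * (3 / 2) := mul_le_mul_of_nonneg_left (by linarith) hW0.le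
      nlinarith [mul_pos hC hW0]
  · have h2 := (abs_le.1 (hdiff u (u + 1) hu (by linarith) hu2)).2
    have h3 := (hPb u (u + 1) hu (by linarith) le_rfl).2
    have h4 : n u ≤ ∫ x in u..(u + 1), n x := by
      calc n u = ∫ _x in u..(u + 1), n u := by
            rw [intervalIntegral.integral_const, smul_eq_mul]; ring
        _ ≤ ∫ x in u..(u + 1), n x :=
            intervalIntegral.integral_mono_on (by linarith)
              (continuous_const.intervalIntegrable _ _) (hni _ _) fun x hx => hnm hx.1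
    have h6 : (u + 1 - u) * (W * (1 / 2 + Ph (u + 1))) = W * (1 / 2 + Ph (u + 1)) := by ring
    rw [h6] at h3
    have h7 : W * Ph (u + 1) ≤ W * (Ph u + 1) := mul_le_mul_of_nonneg_left hPu1 hW0.le
    nlinarith

/-- pairs with difference in a window -/
noncomputable def Wn (Z : Finset ℂ) (p q : ℝ) : ℝ := ∑ s ∈ Z, ∑ s' ∈ Z,
  (mult riemannZeta s : ℝ) * (mult riemannZeta s' : ℝ) *
    (if p ≤ s.im - s'.im ∧ s.im - s'.im ≤ q then 1 else 0)

lemma Wn_lower (Z : Finset ℂ) {p q : ℝ} (hp : 0 < p) : Pn Z q - Pn Z p ≤ Wn Z p q := by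
  unfold Pn Wn
  rw [← Finset.sum_sub_distrib]
  refine Finset.sum_le_sum fun s _ => ?_
  rw [← Finset.sum_sub_distrib]
  refine Finset.sum_le_sum fun s' _ => ?_
  rw [← mul_sub]
  apply mul_le_mul_of_nonneg_left _ (mul_nonneg (Nat.cast_nonneg _) (Nat.cast_nonneg _))
  unfold kp
  split_ifs with h1 h2 h3 h4 h5 h6 <;> first | linarith | (exfalso; grind)

lemma Wn_upper (Z : Finset ℂ) {p q p' : ℝ} (hp : 0 < p) (hp' : p' < p) (hpq : p ≤ q) :
    Wn Z p q ≤ Pn Z q - Pn Z p' := by
  unfold Pn Wn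
  rw [← Finset.sum_sub_distrib]
  refine Finset.sum_le_sum fun s _ => ?_
  rw [← Finset.sum_sub_distrib]
  refine Finset.sum_le_sum fun s' _ => ?_
  rw [← mul_sub]
  apply mul_le_mul_of_nonneg_left _ (mul_nonneg (Nat.cast_nonneg _) (Nat.cast_nonneg _))
  unfold kp
  split_ifs with h1 h2 h3 h4 h5 h6 <;> first | linarith | (exfalso; grind)

/-- the bounded error in every window -/
theorem pair_win : ∃ C X0 : ℝ, 0 < C ∧ 10 ≤ X0 ∧ ∀ X : ℝ, X0 ≤ X →
    ∀ Z : Finset ℂ, (∀ s, s ∈ Z ↔ s ∈ zset riemannZeta 0 X) →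
    ∀ α β : ℝ, 0 < α → α ≤ β → (β + 1) ^ 2 ≤ Real.log X →
      |Wn Z (2 * Real.pi / Real.log X * α) (2 * Real.pi / Real.log X * β) -
        X * Real.log X / (2 * Real.pi) * (Ph β - Ph α)| ≤
        C * (X * Real.log X / (2 * Real.pi)) := by
  obtain ⟨C, X0, hC, hX0, h⟩ := pair_pt
  have hpi := Real.pi_pos
  refine ⟨2 * C + 1, X0, by positivity, hX0, fun X hX Z hZ α β hα hαβ hβ2 => ?_⟩
  have hX10 : 10 ≤ X := hX0.trans hX
  have hL0 : 0 < Real.log X := Real.log_pos (by linarith)
  have h0 := h X hX Z hZ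
  obtain ⟨c, hc⟩ : ∃ c : ℝ, c = 2 * Real.pi / Real.log X := ⟨_, rfl⟩
  have hc0 : 0 < c := by rw [hc]; positivity
  obtain ⟨W, hW⟩ : ∃ W : ℝ, W = X * Real.log X / (2 * Real.pi) := ⟨_, rfl⟩
  have hW0 : 0 < W := by rw [hW]; have : 0 < X := by linarith
                         positivity
  rw [← hc, ← hW] at h0 ⊢
  obtain ⟨α', h1, h2, h3⟩ : ∃ α' : ℝ, 0 ≤ α' ∧ α' < α ∧ α - 1 ≤ α' := by
    rcases le_or_gt 1 α with h1 | h1
    · exact ⟨α - 1, by linarith, by linarith, le_rfl⟩
    · exact ⟨0, le_rfl, hα, by linarith⟩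
  have hb := abs_le.1 (h0 β (by linarith) hβ2)
  have ha := abs_le.1 (h0 α hα.le (by nlinarith))
  have ha' := abs_le.1 (h0 α' h1 (by nlinarith))
  have l1 := Wn_lower Z (p := c * α) (q := c * β) (by positivity)
  have l2 := Wn_upper Z (p := c * α) (q := c * β) (p' := c * α') (by positivity)
    (mul_lt_mul_of_pos_left h2 hc0) (mul_le_mul_of_nonneg_left hαβ hc0.le)
  have l3 : Ph α ≤ Ph α' + 1 := by
    have := Ph_lip h2.le
    linarith
  have l4 : W * Ph α ≤ W * (Ph α' + 1) := mul_le_mul_of_nonneg_left l3 hW0.le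
  rw [abs_le]
  constructor
  · nlinarith [hb.1, ha.2]
  · nlinarith [hb.2, ha'.1]

end Pool.Agent.L5helper84.UV
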