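import Pool.Agent.L5helper84.UV.Half
import Pool.Agent.H370R2.RightZeros

set_option autoImplicit false

/-! # The diagonal term and simple zeros on the critical line -/

namespace Pool.Agent.L5helper84.UV

open Complex Filter Topology MeasureTheory Set
open H370 (mult Zf zset mem_Zf good_zeta zz NN NN_add NN_mono)
open scoped ComplexConjugate

/-- the simple zeros on the critical line -/
noncomputable def sc (Z : Finset ℂ) : Finset ℂ := by
  classical
  exact Z.filter fun s => s.re = 1 / 2 ∧ mult riemannZeta s = 1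

/-- the inner sum of the diagonal term -/
lemma inner_ge {T : ℝ} {Z : Finset ℂ} (hZ : ∀ s, s ∈ Z ↔ s ∈ zset riemannZeta 0 T) {s : ℂ}
    (hs : s ∈ Z) (h1 : 1 ≤ s.im) :
    2 - (if s.re = 1 / 2 ∧ mult riemannZeta s = 1 then 1 else 0) ≤
      ∑ s' ∈ Z, (mult riemannZeta s' : ℝ) * kp (s.im - s'.im) 0 := by
  classical
  obtain ⟨a1, a2, a3, a4, a5⟩ := (hZ s).1 hs
  have hkp : kp 0 0 = 1 := by unfold kp; simp
  have hpos : ∀ s' ∈ Z, 0 ≤ (mult riemannZeta s' : ℝ) * kp (s.im - s'.im) 0 := fun s' _ =>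
    mul_nonneg (Nat.cast_nonneg _) (kp_nonneg _ _)
  have hms : 1 ≤ mult riemannZeta s := H370.Loc.mult_pos' good_zeta a3 a5
  by_cases hre : s.re = 1 / 2
  · have h2 : (mult riemannZeta s : ℝ) * kp (s.im - s.im) 0 ≤
        ∑ s' ∈ Z, (mult riemannZeta s' : ℝ) * kp (s.im - s'.im) 0 :=
      Finset.single_le_sum (f := fun s' => (mult riemannZeta s' : ℝ) * kp (s.im - s'.im) 0)
        hpos hs
    rw [sub_self, hkp, mul_one] at h2
    refine le_trans ?_ h2
    by_cases hm : mult riemannZeta s = 1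
    · rw [if_pos ⟨hre, hm⟩, hm]
      norm_num
    · rw [if_neg (fun h => hm h.2)]
      have : 2 ≤ mult riemannZeta s := by omega
      have : (2 : ℝ) ≤ (mult riemannZeta s : ℝ) := by exact_mod_cast this
      linarith
  · rw [if_neg (fun h => hre h.1)]
    obtain ⟨s', hs'⟩ : ∃ s' : ℂ, s' = 1 - conj s := ⟨_, rfl⟩
    have hm' : mult riemannZeta s' = mult riemannZeta s := by
      rw [hs']
      exact H370.mult_refl good_zeta a1 a2 h1
    have e1 : s'.re = 1 - s.re := by rw [hs']; simp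
    have e2 : s'.im = s.im := by rw [hs']; simp
    have hne : s ≠ s' := by
      intro h
      rw [← h] at e1
      apply hre
      linarith
    have hmem : s' ∈ Z := by
      rw [hZ]
      refine ⟨by linarith, by linarith, by linarith, by linarith, ?_⟩
      have h3 : analyticOrderNatAt riemannZeta s' ≠ 0 := by
        change mult riemannZeta s' ≠ 0
        omega
      by_contra h4
      apply h3
      have han : AnalyticAt ℂ riemannZeta s' := good_zeta.an s' (by linarith)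
      have h5 := han.analyticOrderAt_eq_zero.2 h4
      unfold analyticOrderNatAt
      rw [h5]
      rfl
    have h2 : ∑ x ∈ ({s, s'} : Finset ℂ), (mult riemannZeta x : ℝ) * kp (s.im - x.im) 0 ≤
        ∑ s' ∈ Z, (mult riemannZeta s' : ℝ) * kp (s.im - s'.im) 0 := by
      apply Finset.sum_le_sum_of_subset_of_nonneg
      · intro x hx
        rw [Finset.mem_insert, Finset.mem_singleton] at hx
        rcases hx with hx | hx
        · rw [hx]; exact hs
        · rw [hx]; exact hmem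
      · intro x hx _
        exact hpos x hx
    rw [Finset.sum_pair hne, e2, sub_self, hkp, hm'] at h2
    have : (1 : ℝ) ≤ (mult riemannZeta s : ℝ) := by exact_mod_cast hms
    linarith

/-- the diagonal term and the simple critical zeros -/
theorem Pn_zero_sc : ∃ C0 : ℝ, 0 ≤ C0 ∧ ∀ T : ℝ, ∀ Z : Finset ℂ,
    (∀ s, s ∈ Z ↔ s ∈ zset riemannZeta 0 T) → 2 * tw Z - (sc Z).card - C0 ≤ Pn Z 0 := by
  classical
  obtain ⟨C1, hC1⟩ : ∃ C1 : ℝ, C1 = tw (H370.zeta_zeros_finite 1).toFinset := ⟨_, rfl⟩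
  have hC10 : 0 ≤ C1 := by rw [hC1]; exact tw_nonneg _
  refine ⟨2 * C1, by positivity, fun T Z hZ => ?_⟩
  have h1 : tw (Z.filter fun s => s.im < 1) ≤ C1 := by
    rw [hC1]
    apply tw_mono
    intro s hs
    rw [Finset.mem_filter] at hs
    rw [Set.Finite.mem_toFinset]
    obtain ⟨a1, a2, a3, a4, a5⟩ := (hZ s).1 hs.1
    exact ⟨a1, a2, a3, by linarith [hs.2], a5⟩
  have h2 : ((sc Z).card : ℝ) = ∑ s ∈ Z, (if s.re = 1 / 2 ∧ mult riemannZeta s = 1 then 1 else 0) := by
    unfold sc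
    rw [Finset.card_filter]
    push_cast
    rfl
  have h3 : 2 * tw Z - (sc Z).card - 2 * tw (Z.filter fun s => s.im < 1) ≤ Pn Z 0 := by
    rw [h2]
    unfold tw Pn
    rw [Finset.sum_filter, Finset.mul_sum, Finset.mul_sum, ← Finset.sum_sub_distrib,
      ← Finset.sum_sub_distrib]
    refine Finset.sum_le_sum fun s hs => ?_
    obtain ⟨a1, a2, a3, a4, a5⟩ := (hZ s).1 hs
    have hms : 1 ≤ mult riemannZeta s := H370.Loc.mult_pos' good_zeta a3 a5
    have hmr : (1 : ℝ) ≤ (mult riemannZeta s : ℝ) := by exact_mod_cast hms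
    have e : ∑ s' ∈ Z, (mult riemannZeta s : ℝ) * (mult riemannZeta s' : ℝ) *
        kp (s.im - s'.im) 0 = (mult riemannZeta s : ℝ) *
        ∑ s' ∈ Z, (mult riemannZeta s' : ℝ) * kp (s.im - s'.im) 0 := by
      rw [Finset.mul_sum]
      refine Finset.sum_congr rfl fun s' _ => ?_
      ring
    rw [e]
    by_cases him : s.im < 1
    · rw [if_pos him]
      have h4 : 0 ≤ ∑ s' ∈ Z, (mult riemannZeta s' : ℝ) * kp (s.im - s'.im) 0 :=
        Finset.sum_nonneg fun s' _ => mul_nonneg (Nat.cast_nonneg _) (kp_nonneg _ _)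
      have h5 : (0 : ℝ) ≤ (if s.re = 1 / 2 ∧ mult riemannZeta s = 1 then 1 else 0) := by
        split_ifs <;> norm_num
      have h6 : 0 ≤ (mult riemannZeta s : ℝ) *
        ∑ s' ∈ Z, (mult riemannZeta s' : ℝ) * kp (s.im - s'.im) 0 :=
        mul_nonneg (by linarith) h4
      linarith
    · rw [if_neg him]
      push Not at him
      have h4 := inner_ge hZ hs him
      have h6 : (mult riemannZeta s : ℝ) * (2 - (if s.re = 1 / 2 ∧ mult riemannZeta s = 1 then 1
          else 0)) ≤ (mult riemannZeta s : ℝ) *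
        ∑ s' ∈ Z, (mult riemannZeta s' : ℝ) * kp (s.im - s'.im) 0 :=
        mul_le_mul_of_nonneg_left h4 (by linarith)
      refine le_trans ?_ h6
      by_cases hc : s.re = 1 / 2 ∧ mult riemannZeta s = 1
      · rw [if_pos hc, hc.2]
        norm_num
      · rw [if_neg hc]
        linarith
  linarith

/-- a bound for the diagonal term gives simple critical zeros -/
theorem simple_lower {Z : ℝ → Finset ℂ} (hZ : ∀ T s, s ∈ Z T ↔ s ∈ zset riemannZeta 0 T)
    {𝓕 : Filter ℝ} (hF : 𝓕 ≤ atTop) {κ : ℝ} (hκ : 0 ≤ κ)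
    (hyp : ∀ η : ℝ, 0 < η → ∀ᶠ T in 𝓕, Pn (Z T) 0 ≤ WW T * (1 + κ + η))
    {η : ℝ} (hη : 0 < η) : ∀ᶠ T in 𝓕, (1 - κ - η) * tw (Z T) ≤ (sc (Z T)).card := by
  obtain ⟨C0, hC0, h0⟩ := Pn_zero_sc
  obtain ⟨ε, hε⟩ : ∃ ε : ℝ, ε = min (1 / 2) (η / (2 * (κ + 5))) := ⟨_, rfl⟩
  have hε0 : 0 < ε := by rw [hε]; positivity
  have hε1 : ε ≤ 1 / 2 := by rw [hε]; exact min_le_left _ _
  have hε2 : ε * (2 * (κ + 5)) ≤ η := by
    have : ε ≤ η / (2 * (κ + 5)) := by rw [hε]; exact min_le_right _ _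
    rwa [le_div_iff₀ (by positivity)] at this
  have hWt : Tendsto WW atTop atTop := by
    unfold WW
    apply Tendsto.atTop_div_const (by positivity)
    exact tendsto_id.atTop_mul_atTop₀ Real.tendsto_log_atTop
  filter_upwards [hyp ε hε0, hF (tw_asymp hZ hε0),
    hF (hWt.eventually_ge_atTop (C0 / ε)), hF (hWt.eventually_ge_atTop 1)] with T h1 h2 h3 h4
  have h5 := h0 T (Z T) (hZ T)
  have h6 : C0 ≤ ε * WW T := by
    rw [div_le_iff₀ hε0] at h3
    linarith
  obtain ⟨W, hW⟩ : ∃ W : ℝ, W = WW T := ⟨_, rfl⟩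
  obtain ⟨N, hN⟩ : ∃ N : ℝ, N = tw (Z T) := ⟨_, rfl⟩
  rw [← hW] at h1 h2 h4 h6
  rw [← hN] at h2 h5 ⊢
  have hN0 : 0 < N := by nlinarith [h2.1]
  -- `W ≤ (1 + 2 ε) N`
  have h7 : W ≤ (1 + 2 * ε) * N := by
    have : (1 + 2 * ε) * ((1 - ε) * W) ≤ (1 + 2 * ε) * N :=
      mul_le_mul_of_nonneg_left h2.1 (by linarith)
    have h8 : 1 ≤ (1 + 2 * ε) * (1 - ε) := by nlinarith
    nlinarith
  have h8 : (sc (Z T)).card ≥ 2 * N - W * (1 + κ + 2 * ε) := by nlinarith
  have h9 : W * (1 + κ + 2 * ε) ≤ (1 + 2 * ε) * N * (1 + κ + 2 * ε) :=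
    mul_le_mul_of_nonneg_right h7 (by positivity)
  have h10 : (1 + 2 * ε) * (1 + κ + 2 * ε) ≤ 1 + κ + η := by nlinarith
  nlinarith

lemma sc_le (Z : Finset ℂ) : ((sc Z).card : ℝ) ≤ tw Z := by
  classical
  unfold sc tw
  rw [Finset.card_filter]
  push_cast
  refine Finset.sum_le_sum fun s _ => ?_
  split_ifs with h
  · rw [h.2]; norm_num
  · exact Nat.cast_nonneg _

end Pool.Agent.L5helper84.UV
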