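import Pool.Agent.L5helper84.UV.Sinc

set_option autoImplicit false

/-! # Positivity and size of the pair correlation density -/

namespace Pool.Agent.L5helper84.UV

open Filter Topology MeasureTheory Set

lemma Fm_pos {u : ℝ} (hu : 0 < u) : 0 < Fm u := by
  have hpi := Real.pi_pos
  have hx : 0 < Real.pi * u := by positivity
  unfold Fm
  have h1 := Real.sin_sq_lt_sq hx.ne'
  have h2 : (Real.sin (Real.pi * u) / (Real.pi * u)) ^ 2 < 1 := by
    rw [div_pow, div_lt_one (by positivity)]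
    exact h1
  linarith

lemma Fm_sq {u : ℝ} (hu : 0 < u) : Fm u ≤ Real.pi ^ 2 / 3 * u ^ 2 := by
  have hpi := Real.pi_pos
  have hx : 0 < Real.pi * u := by positivity
  obtain ⟨x, hxd⟩ : ∃ x : ℝ, x = Real.pi * u := ⟨_, rfl⟩
  have e : Real.pi ^ 2 / 3 * u ^ 2 = x ^ 2 / 3 := by rw [hxd]; ring
  unfold Fm
  rw [← hxd, e]
  rw [← hxd] at hx
  rcases le_or_gt (x ^ 2) 6 with h6 | h6
  · have h1 := Real.sin_ge_sub_cube hx.le
    have h2 : 1 - x ^ 2 / 6 ≤ Real.sin x / x := by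
      rw [le_div_iff₀ hx]
      calc (1 - x ^ 2 / 6) * x = x - x ^ 3 / 6 := by ring
        _ ≤ _ := h1
    have h3 : (1 - x ^ 2 / 6) ^ 2 ≤ (Real.sin x / x) ^ 2 :=
      pow_le_pow_left₀ (by linarith) h2 2
    nlinarith [sq_nonneg (x ^ 2)]
  · have := sq_nonneg (Real.sin x / x)
    linarith

lemma Fm_ii (a b : ℝ) : IntervalIntegrable Fm volume a b := by
  have h1 : IntervalIntegrable (fun u => 1 - sq2 u) volume a b :=
    (continuous_const.sub sq2_cont).intervalIntegrable _ _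
  refine h1.congr_ae ?_
  have h2 : ∀ᵐ u : ℝ, u ≠ 0 := by
    rw [ae_iff]
    simp
  refine ae_restrict_of_ae ?_
  filter_upwards [h2] with u hu
  exact (Fm_eq hu).symm

lemma Ph_strict {a b : ℝ} (ha : 0 < a) (hab : a < b) : Ph a < Ph b := by
  have h1 := Ph_sub a b
  have h2 : 0 < ∫ u in a..b, Fm u := by
    apply intervalIntegral.intervalIntegral_pos_of_pos_on (Fm_ii a b) _ hab
    intro x hx
    exact Fm_pos (by linarith [hx.1])
  linarith

lemma Ph_cubic {v : ℝ} (hv : 0 ≤ v) : Ph v ≤ Real.pi ^ 2 / 9 * v ^ 3 := by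
  unfold Ph
  have h1 : ∫ x in (0 : ℝ)..v, Fm x ≤ ∫ x in (0 : ℝ)..v, Real.pi ^ 2 / 3 * x ^ 2 := by
    apply intervalIntegral.integral_mono_on_of_le_Ioo hv (Fm_ii _ _)
      ((continuous_const.mul (continuous_pow 2)).intervalIntegrable _ _)
    intro x hx
    exact Fm_sq hx.1
  refine h1.trans (le_of_eq ?_)
  rw [intervalIntegral.integral_const_mul, integral_pow]
  norm_num
  ring

lemma Ph_int_le {l : ℝ} (hl : 0 < l) :
    2 / l * ∫ v in (0 : ℝ)..l, Ph v ≤ Real.pi ^ 2 * l ^ 3 / 18 := by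
  have h1 : ∫ x in (0 : ℝ)..l, Ph x ≤ ∫ x in (0 : ℝ)..l, Real.pi ^ 2 / 9 * x ^ 3 := by
    refine intervalIntegral.integral_mono_on hl.le (Ph_cont.intervalIntegrable _ _)
      ((continuous_const.mul (continuous_pow 3)).intervalIntegrable _ _) fun x hx => ?_
    exact Ph_cubic hx.1
  rw [intervalIntegral.integral_const_mul, integral_pow] at h1
  calc 2 / l * ∫ v in (0 : ℝ)..l, Ph v ≤
      2 / l * (Real.pi ^ 2 / 9 * ((l ^ (3 + 1) - 0 ^ (3 + 1)) / ((3 : ℕ) + 1))) := by gcongr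
    _ = _ := by
      push_cast
      field_simp
      ring

lemma Ph_int_nonneg {l : ℝ} (hl : 0 < l) : 0 ≤ 2 / l * ∫ v in (0 : ℝ)..l, Ph v := by
  apply mul_nonneg (by positivity)
  exact intervalIntegral.integral_nonneg hl.le fun x hx => by
    have := Ph_mono hx.1
    rwa [Ph_zero] at this

lemma Ph_int_small {l : ℝ} (hl : 0 < l) : 2 / l * ∫ v in (0 : ℝ)..l, Ph v ≤ l := by
  have h1 : ∫ x in (0 : ℝ)..l, Ph x ≤ ∫ x in (0 : ℝ)..l, x := by
    refine intervalIntegral.integral_mono_on hl.le (Ph_cont.intervalIntegrable _ _)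
      (continuous_id.intervalIntegrable _ _) fun x hx => ?_
    have h3 := Ph_lip (a := 0) (b := x) hx.1
    rw [Ph_zero] at h3
    linarith
  rw [integral_id] at h1
  calc 2 / l * ∫ v in (0 : ℝ)..l, Ph v ≤ 2 / l * ((l ^ 2 - 0 ^ 2) / 2) := by gcongr
    _ = l := by field_simp; ring

end Pool.Agent.L5helper84.UV
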