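import Pool.Agent.L5helper84.UV.Blk

set_option autoImplicit false

/-! # The second moment of the counts over the whole range -/

namespace Pool.Agent.L5helper84.UV

open Complex Filter Topology MeasureTheory Set
open H370 (mult Zf zset mem_Zf good_zeta zz NN NN_add NN_mono)

theorem block : ∃ lam C T0 : ℝ, 16 ≤ lam ∧ 0 < C ∧ 10 ≤ T0 ∧ ∀ T : ℝ, T0 ≤ T → ∀ X : ℝ, 2 * T ≤ X →
    Real.log X ≤ 2 * Real.log T → ∀ Z : Finset ℂ, (∀ s, s ∈ Z ↔ s ∈ zset riemannZeta 0 X) →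
    ∀ a : ℝ, 2 * lam ≤ a → a ^ 2 ≤ Real.log X →
      |(∫ t in T..(2 * T), cn Z t (2 * Real.pi * a / Real.log X) ^ 2) -
        T * (a ^ 2 + Real.log a / Real.pi ^ 2)| ≤ C * (1 + (Real.log X - Real.log T)) * T := by
  obtain ⟨lam, C, T0, hlam, hC, hT0, hb⟩ := block0
  have hpi := Real.pi_pos
  have hpi3 := Real.pi_gt_three
  refine ⟨lam, C + 3, T0, hlam, by positivity, hT0, fun T hT X hX hXT Z hZ a ha ha2 => ?_⟩
  have hT10 : 10 ≤ T := hT0.trans hT
  have hT0' : 0 < T := by linarith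
  have hLT : Real.log T ≤ Real.log X := Real.log_le_log (by linarith) (by linarith)
  obtain ⟨L, hL⟩ : ∃ L : ℝ, L = Real.log T := ⟨_, rfl⟩
  obtain ⟨M, hM⟩ : ∃ M : ℝ, M = Real.log X := ⟨_, rfl⟩
  have hL1 : 1 ≤ L := by
    rw [hL, Real.le_log_iff_exp_le (by linarith)]
    linarith [Real.exp_one_lt_d9]
  have hbb := hb T hT X hX Z hZ (a * L / M) (2 * Real.pi * a / Real.log X)
  rw [← hL, ← hM] at hXT hLT hbb ⊢
  rw [← hM] at ha2
  have hM0 : 0 < M := by linarith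
  have ha0 : 0 < a := by linarith
  obtain ⟨b, hbd⟩ : ∃ b : ℝ, b = a * L / M := ⟨_, rfl⟩
  have hba : b ≤ a := by
    rw [hbd, div_le_iff₀ hM0]
    exact mul_le_mul_of_nonneg_left hLT ha0.le
  have hb2 : a ≤ 2 * b := by
    rw [hbd, mul_div_assoc', le_div_iff₀ hM0]
    nlinarith
  have hb0 : 0 < b := by linarith
  rw [← hbd] at hbb
  have h1 := hbb (by linarith) (by nlinarith) (by rw [hbd]; field_simp) hXT
  have hd1 : a ^ 2 - b ^ 2 ≤ 2 * (M - L) := by
    have e : a - b = a * (M - L) / M := by rw [hbd]; field_simp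
    have e2 : a ^ 2 - b ^ 2 = (a + b) * (a * (M - L) / M) := by rw [← e]; ring
    rw [e2, mul_div_assoc', div_le_iff₀ hM0]
    have h3 : (a + b) * a ≤ 2 * M := by nlinarith
    nlinarith
  have hd1' : 0 ≤ a ^ 2 - b ^ 2 := by nlinarith
  have hd2 : Real.log a - Real.log b ≤ M - L := by
    rw [← Real.log_div ha0.ne' hb0.ne']
    have e : a / b = M / L := by rw [hbd]; field_simp
    rw [e]
    have := Real.log_le_sub_one_of_pos (show 0 < M / L by positivity)
    refine this.trans ?_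
    have e2 : M / L - 1 = (M - L) / L := by field_simp
    rw [e2]
    exact div_le_self (by linarith) hL1
  have hd2' : 0 ≤ Real.log a - Real.log b := by
    have := Real.log_le_log hb0 hba
    linarith
  have hd3 : (Real.log a - Real.log b) / Real.pi ^ 2 ≤ M - L :=
    (div_le_self hd2' (by nlinarith)).trans hd2
  have hd3' : 0 ≤ (Real.log a - Real.log b) / Real.pi ^ 2 := by positivity
  have hd4 : |T * (b ^ 2 + Real.log b / Real.pi ^ 2) - T * (a ^ 2 + Real.log a / Real.pi ^ 2)| ≤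
      3 * (M - L) * T := by
    have e : T * (b ^ 2 + Real.log b / Real.pi ^ 2) - T * (a ^ 2 + Real.log a / Real.pi ^ 2) =
      -(T * ((a ^ 2 - b ^ 2) + (Real.log a - Real.log b) / Real.pi ^ 2)) := by ring
    rw [e, abs_neg, abs_of_nonneg (by positivity)]
    nlinarith
  refine (abs_sub_le _ (T * (b ^ 2 + Real.log b / Real.pi ^ 2)) _).trans ?_
  have : 0 ≤ C * (M - L) * T := by
    have : 0 ≤ M - L := by linarith
    positivity
  nlinarith

theorem total : ∃ lam C X0 : ℝ, 16 ≤ lam ∧ 0 < C ∧ 10 ≤ X0 ∧ ∀ X : ℝ, X0 ≤ X →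
    ∀ Z : Finset ℂ, (∀ s, s ∈ Z ↔ s ∈ zset riemannZeta 0 X) →
    ∀ a : ℝ, 2 * lam ≤ a → a ^ 2 ≤ Real.log X →
      |(∫ t in (-8 : ℝ)..X, cn Z t (2 * Real.pi * a / Real.log X) ^ 2) -
        X * (a ^ 2 + Real.log a / Real.pi ^ 2)| ≤ C * X := by
  obtain ⟨lam, C, T0, hlam, hC, hT0, hb⟩ := block
  obtain ⟨C3, hC3, hcb⟩ := cn_bound
  have hpi := Real.pi_pos
  have hpi3 := Real.pi_gt_three
  obtain ⟨K', hK'⟩ : ∃ K' : ℝ, K' = 4 * (256 * C3 ^ 2 + 4) := ⟨_, rfl⟩
  have hK0 : 0 < K' := by rw [hK']; positivity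
  have hlit : ∀ᶠ Y : ℝ in atTop, K' * Real.log Y ^ 2 ≤ Y := by
    have h1 := (Real.isLittleO_pow_log_id_atTop (n := 2)).bound (c := 1 / K') (by positivity)
    filter_upwards [h1, eventually_ge_atTop 1] with T h2 h3
    rw [Real.norm_of_nonneg (pow_nonneg (Real.log_nonneg h3) 2)] at h2
    simp only [id, Real.norm_of_nonneg (show (0 : ℝ) ≤ T by linarith)] at h2
    rw [div_mul_eq_mul_div, one_mul, le_div_iff₀ hK0] at h2
    linarith
  have hev := (Real.tendsto_sqrt_atTop.eventually (hlit.and (eventually_ge_atTop (max T0 16)))).exists_forall_of_atTop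
  obtain ⟨X0, hX0⟩ := hev
  refine ⟨lam, 3 * C + 1, max X0 10, hlam, by positivity, le_max_right _ _,
    fun X hX Z hZ a ha ha2 => ?_⟩
  obtain ⟨hY1, hY2⟩ := hX0 X ((le_max_left _ _).trans hX)
  have hX10 : 10 ≤ X := (le_max_right _ _).trans hX
  have hXp : 0 < X := by linarith
  obtain ⟨Y, hY⟩ : ∃ Y : ℝ, Y = Real.sqrt X := ⟨_, rfl⟩
  rw [← hY] at hY1 hY2
  have hYT : T0 ≤ Y := (le_max_left _ _).trans hY2
  have hY16 : 16 ≤ Y := (le_max_right _ _).trans hY2
  have hYY : Y ^ 2 = X := by rw [hY]; exact Real.sq_sqrt hXp.le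
  have hlY : Real.log X = 2 * Real.log Y := by rw [← hYY, Real.log_pow]; norm_num
  obtain ⟨h, hh⟩ : ∃ h : ℝ, h = 2 * Real.pi * a / Real.log X := ⟨_, rfl⟩
  rw [← hh]
  obtain ⟨L, hL⟩ : ∃ L : ℝ, L = Real.log X := ⟨_, rfl⟩
  have ha0 : 0 < a := by linarith
  have hL1 : 1 ≤ L := by
    rw [hL, Real.le_log_iff_exp_le (by linarith)]
    linarith [Real.exp_one_lt_d9]
  rw [← hL] at hh hlY ha2
  have haL : a ≤ L := by nlinarith
  have hh0 : 0 ≤ h := by rw [hh]; positivity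
  have hh7 : h ≤ 7 := by
    rw [hh, div_le_iff₀ (by linarith)]
    have : 2 * Real.pi ≤ 7 := by linarith [Real.pi_lt_d2]
    nlinarith
  obtain ⟨M, hM⟩ : ∃ M : ℝ, M = a ^ 2 + Real.log a / Real.pi ^ 2 := ⟨_, rfl⟩
  rw [← hM]
  have hla0 : 0 ≤ Real.log a := Real.log_nonneg (by linarith)
  have hM0 : 0 ≤ M := by rw [hM]; positivity
  have hM2 : M ≤ 2 * L := by
    have h1 : Real.log a / Real.pi ^ 2 ≤ Real.log a := div_le_self hla0 (by nlinarith)
    have h2 : Real.log a ≤ a := by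
      have := Real.log_le_sub_one_of_pos ha0
      linarith
    rw [hM]
    linarith
  -- the dyadic induction
  have key : ∀ K : ℕ, (2 : ℝ) ^ K ≤ Y →
      |(∫ t in (X / 2 ^ K)..X, cn Z t h ^ 2) - X * (1 - 1 / 2 ^ K) * M| ≤
        C * X * (3 - (K + 3) / 2 ^ K) := by
    intro K
    induction K with
    | zero =>
      intro _
      simp
    | succ K ih =>
      intro hK
      have h2K : (0 : ℝ) < 2 ^ K := by positivity
      have hp : (2 : ℝ) ^ (K + 1) = 2 * 2 ^ K := by ring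
      have hK1 : (2 : ℝ) ^ K ≤ Y := by linarith
      have h1 := ih hK1
      obtain ⟨T, hT⟩ : ∃ T : ℝ, T = X / 2 ^ (K + 1) := ⟨_, rfl⟩
      have h2T : 2 * T = X / 2 ^ K := by rw [hT, hp]; field_simp
      have hYT' : Y ≤ T := by
        rw [hT, le_div_iff₀ (by positivity), ← hYY, sq]
        exact mul_le_mul_of_nonneg_left hK (by linarith)
      have hTX : 2 * T ≤ X := by
        rw [h2T]
        exact div_le_self hXp.le (one_le_pow₀ (by norm_num))
      have hTp : 0 < T := by linarith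
      have hlT : Real.log Y ≤ Real.log T := Real.log_le_log (by linarith) hYT'
      have h3 := hb T (hYT.trans hYT') X hTX (by rw [← hL, hlY]; linarith) Z hZ a ha
        (by rw [← hL]; exact ha2)
      rw [← hL, ← hh, ← hM] at h3
      have h4 : L - Real.log T ≤ K + 1 := by
        rw [hT, Real.log_div hXp.ne' (by positivity), Real.log_pow, ← hL]
        push_cast
        have : Real.log 2 ≤ 1 := by linarith [Real.log_two_lt_d9]
        nlinarith [(Nat.cast_nonneg K : (0 : ℝ) ≤ K)]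
      have h5 : |(∫ t in T..(2 * T), cn Z t h ^ 2) - T * M| ≤ C * (K + 2) * T := by
        refine h3.trans ?_
        apply mul_le_mul_of_nonneg_right _ hTp.le
        apply mul_le_mul_of_nonneg_left _ hC.le
        linarith
      rw [← intervalIntegral.integral_add_adjacent_intervals (b := X / 2 ^ K)
        (cn_sq_ii _ _ _ _) (cn_sq_ii _ _ _ _), ← hT, ← h2T]
      have e1 : (∫ t in T..(2 * T), cn Z t h ^ 2) + (∫ t in (2 * T)..X, cn Z t h ^ 2) -
          X * (1 - 1 / 2 ^ (K + 1)) * M = ((∫ t in T..(2 * T), cn Z t h ^ 2) - T * M) +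
          ((∫ t in (X / 2 ^ K)..X, cn Z t h ^ 2) - X * (1 - 1 / 2 ^ K) * M) := by
        rw [h2T, hT, hp]
        field_simp
        ring
      rw [e1]
      refine (abs_add_le _ _).trans ((add_le_add h5 h1).trans (le_of_eq ?_))
      rw [hT, hp]
      push_cast
      field_simp
      ring
  -- the choice of the number of blocks
  obtain ⟨K, hK⟩ : ∃ K : ℕ, K = Nat.log 2 ⌊Y⌋₊ := ⟨_, rfl⟩
  have hfl : ⌊Y⌋₊ ≠ 0 := by
    have : 0 < ⌊Y⌋₊ := Nat.floor_pos.2 (by linarith)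
    omega
  have hK1 : (2 : ℝ) ^ K ≤ Y := by
    have h1 : 2 ^ K ≤ ⌊Y⌋₊ := by rw [hK]; exact Nat.pow_log_le_self 2 hfl
    have h2 : ((2 ^ K : ℕ) : ℝ) ≤ (⌊Y⌋₊ : ℝ) := by exact_mod_cast h1
    push_cast at h2
    exact h2.trans (Nat.floor_le (by linarith))
  have hK2 : Y < 2 * 2 ^ K := by
    have h1 : ⌊Y⌋₊ < 2 ^ (K + 1) := by rw [hK]; exact Nat.lt_pow_succ_log_self (by norm_num) _
    have h2 : ⌊Y⌋₊ + 1 ≤ 2 ^ (K + 1) := h1
    have h3 : ((⌊Y⌋₊ : ℝ) + 1) ≤ 2 ^ (K + 1) := by exact_mod_cast h2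
    have h4 := Nat.lt_floor_add_one Y
    have h5 : (2 : ℝ) ^ (K + 1) = 2 * 2 ^ K := by ring
    linarith
  have h1 := key K hK1
  have h2K : (0 : ℝ) < 2 ^ K := by positivity
  obtain ⟨W, hW⟩ : ∃ W : ℝ, W = X / 2 ^ K := ⟨_, rfl⟩
  have hW0 : 0 < W := by rw [hW]; positivity
  have hW2 : W ≤ 2 * Y := by
    rw [hW, div_le_iff₀ h2K, ← hYY]
    nlinarith
  have h3 : |(∫ t in W..X, cn Z t h ^ 2) - X * M| ≤ 3 * C * X + W * M := by
    rw [← hW] at h1
    have e1 : X * (1 - 1 / 2 ^ K) * M = X * M - W * M := by rw [hW]; ring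
    rw [e1] at h1
    have h2 : C * X * (3 - (K + 3) / 2 ^ K) ≤ 3 * C * X := by
      have : 0 ≤ C * X * ((K + 3) / 2 ^ K) := by positivity
      nlinarith
    have h4 := abs_le.1 (h1.trans h2)
    have h5 : 0 ≤ W * M := by positivity
    rw [abs_le]
    constructor <;> linarith [h4.1, h4.2]
  have hpt : ∀ t, cn Z t h ^ 2 ≤ 64 * C3 ^ 2 * L ^ 2 := by
    intro t
    have h1 := hcb X hX10 Z (fun s hs => (hZ s).1 hs) t h hh0
    rw [← hL] at h1
    have h2 : C3 * (h + 1) * L ≤ C3 * 8 * L := by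
      have : h + 1 ≤ 8 := by linarith
      gcongr
    have h3 := cn_nonneg Z t h
    calc cn Z t h ^ 2 ≤ (C3 * 8 * L) ^ 2 := pow_le_pow_left₀ h3 (h1.trans h2) 2
      _ = _ := by ring
  have h0 : 0 ≤ (∫ t in (-8 : ℝ)..W, cn Z t h ^ 2) :=
    intervalIntegral.integral_nonneg (by linarith) fun t _ => sq_nonneg _
  have h0' : (∫ t in (-8 : ℝ)..W, cn Z t h ^ 2) ≤ 64 * C3 ^ 2 * L ^ 2 * (W + 8) := by
    calc (∫ t in (-8 : ℝ)..W, cn Z t h ^ 2) ≤ ∫ _t in (-8 : ℝ)..W, 64 * C3 ^ 2 * L ^ 2 :=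
          intervalIntegral.integral_mono_on (by linarith) (cn_sq_ii _ _ _ _)
            (continuous_const.intervalIntegrable _ _) fun t _ => hpt t
      _ = _ := by rw [intervalIntegral.integral_const, smul_eq_mul]; ring
  rw [← intervalIntegral.integral_add_adjacent_intervals (b := W)
        (cn_sq_ii _ _ _ _) (cn_sq_ii _ _ _ _)]
  have hfin : 64 * C3 ^ 2 * L ^ 2 * (W + 8) + W * M ≤ X := by
    have q1 : W + 8 ≤ 4 * Y := by linarith
    have q2 : W * M ≤ (2 * Y) * (2 * L ^ 2) := by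
      apply mul_le_mul hW2 _ hM0 (by linarith)
      nlinarith
    calc 64 * C3 ^ 2 * L ^ 2 * (W + 8) + W * M ≤ 64 * C3 ^ 2 * L ^ 2 * (4 * Y) +
          (2 * Y) * (2 * L ^ 2) := by gcongr
      _ = Y * (K' * Real.log Y ^ 2) := by rw [hK', hlY]; ring
      _ ≤ Y * Y := mul_le_mul_of_nonneg_left hY1 (by linarith)
      _ = X := by rw [← hYY]; ring
  have h4 := abs_le.1 h3
  rw [abs_le]
  have h5 : 0 ≤ W * M := by positivity
  constructor
  · nlinarith [h4.1]
  · nlinarith [h4.2]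

end Pool.Agent.L5helper84.UV
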