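import Pool.Agent.TH850.UV.DbMs
import Pool.Agent.TH850.UV.Kern
import Pool.Agent.TH850.UR.Maj

set_option autoImplicit false

/-! # The weighted local sums over the zeros -/

namespace Pool.Agent.L5helper84.UV

open Filter Topology MeasureTheory Complex Set
open H370 (mult Zf zset mem_Zf good_zeta)

/-- the weighted local sum -/
noncomputable def Wt (l : ℝ) (Z : Finset ℂ) (t : ℝ) : ℝ :=
  ∑ s ∈ Z, (mult riemannZeta s : ℝ) *
    (Real.exp (Real.pi * |(s.re - 1 / 2) * (l / (2 * Real.pi))|) /
      (1 + ((s.im - t) * (l / (2 * Real.pi))) ^ 2))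

lemma Wt_nonneg (l : ℝ) (Z : Finset ℂ) (t : ℝ) : 0 ≤ Wt l Z t := by
  unfold Wt
  positivity

lemma Wt_cont (l : ℝ) (Z : Finset ℂ) : Continuous (Wt l Z) := by
  unfold Wt
  refine continuous_finsetSum _ fun s _ => continuous_const.mul ?_
  refine continuous_const.div (by fun_prop) fun t => ?_
  positivity

end Pool.Agent.L5helper84.UV
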