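import Pool.Agent.Q97.UM.Base2
import Pool.Agent.Q257.UM.STM
import Pool.Agent.L5helper84.UV.Wdef

set_option autoImplicit false

/-! # The second moment of the weighted local sums over the zeros, without hypotheses -/

namespace Pool.Agent.L5helper84.UV

open Filter Topology MeasureTheory Complex Set
open Pool.Agent.Q97.UM (SS ZD mz)
open H370 (mult Zf zset mem_Zf good_zeta)

/-- the mean square of `SS` -/
theorem SS_sq : ∃ δ C : ℝ, 0 < δ ∧ δ ≤ 1 ∧ 0 < C ∧ ∀ᶠ T : ℝ in atTop,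
    ∫ t in (T / 4)..(8 * T), SS δ T t ^ 2 ≤ C * T := by
  obtain ⟨θ, c, C, hθ, hθ1, hc, hC, hT⟩ := Pool.Agent.Q97.UM.b_TAIL
  have hS := Pool.Agent.Q257.UM.ST.t_STM Pool.Agent.Q84.UM.t_DPM Pool.Agent.Q84.UM.t_MVL
    Pool.Agent.Q178.UM.ZF2.t_ZF2
  have hδ : 0 < min 1 (c / 48) := lt_min one_pos (by positivity)
  obtain ⟨C', hC', h⟩ := hS θ c C hθ hθ1 hc hC hT 2 (min 1 (c / 48)) hδ (by
    have := min_le_right 1 (c / 48)
    push_cast
    linarith)
  refine ⟨min 1 (c / 48), C' + 1, hδ, min_le_left _ _, by linarith, ?_⟩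
  filter_upwards [h, eventually_ge_atTop 1] with T hT1 hT0
  have h1 := hT1 1 (by
    rw [Nat.cast_one]
    exact Real.one_le_rpow hT0 (by positivity)) (fun _ => 1)
  have e1 : ∀ t : ℝ, ‖Pool.Agent.Q97.UM.dp 1 (fun _ => 1) t‖ ^ 2 = 1 := by
    intro t
    unfold Pool.Agent.Q97.UM.dp
    simp
  have e2 : Pool.Agent.Q97.UM.N2 1 (fun _ => 1) = 1 := by
    unfold Pool.Agent.Q97.UM.N2
    simp
  simp_rw [e1, e2, mul_one] at h1
  refine h1.trans ?_
  nlinarith

lemma SS_cont {δ T : ℝ} (hT : 1 ≤ T) : Continuous (SS δ T) := by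
  unfold Pool.Agent.Q97.UM.SS
  have hL : 0 ≤ Real.log T := Real.log_nonneg hT
  refine continuous_finsetSum _ fun s _ => continuous_const.mul ?_
  refine continuous_const.div (by fun_prop) fun t => ?_
  positivity

lemma term_le {δ lam L : ℝ} (hlam : 1 ≤ lam) (hd : 1 / (2 * lam) ≤ 2 * δ) (hL : 0 ≤ L) (b g : ℝ) :
    Real.exp (Real.pi * |b * (L / lam / (2 * Real.pi))|) / (1 + (g * (L / lam / (2 * Real.pi))) ^ 2) ≤
      2 * (1 + 2 * Real.pi * lam) ^ 2 * (Real.exp (2 * δ * (L * |b|)) / (1 + L * |g|) ^ 2) := by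
  have hpi := Real.pi_pos
  have hlam0 : 0 < lam := by linarith
  have h1 : Real.pi * |b * (L / lam / (2 * Real.pi))| ≤ 2 * δ * (L * |b|) := by
    rw [abs_mul, abs_of_nonneg (by positivity : 0 ≤ L / lam / (2 * Real.pi))]
    have e : Real.pi * (|b| * (L / lam / (2 * Real.pi))) = 1 / (2 * lam) * (L * |b|) := by
      field_simp
    rw [e]
    exact mul_le_mul_of_nonneg_right hd (by positivity)
  have h2 := Real.exp_le_exp.2 h1
  set x := g * (L / lam / (2 * Real.pi)) with hx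
  have h3 : L * |g| = 2 * Real.pi * lam * |x| := by
    rw [hx, abs_mul, abs_of_nonneg (by positivity : 0 ≤ L / lam / (2 * Real.pi))]
    field_simp
  have h4 : (1 + L * |g|) ^ 2 ≤ 2 * (1 + 2 * Real.pi * lam) ^ 2 * (1 + x ^ 2) := by
    rw [h3]
    have h5 : 1 + 2 * Real.pi * lam * |x| ≤ (1 + 2 * Real.pi * lam) * (1 + |x|) := by
      have : 0 ≤ 2 * Real.pi * lam := by positivity
      nlinarith [abs_nonneg x]
    calc (1 + 2 * Real.pi * lam * |x|) ^ 2 ≤ ((1 + 2 * Real.pi * lam) * (1 + |x|)) ^ 2 := by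
          gcongr
      _ = (1 + 2 * Real.pi * lam) ^ 2 * (1 + |x|) ^ 2 := by ring
      _ ≤ (1 + 2 * Real.pi * lam) ^ 2 * (2 * (1 + x ^ 2)) := by
          apply mul_le_mul_of_nonneg_left _ (sq_nonneg _)
          rw [← sq_abs x]
          nlinarith [sq_nonneg (1 - |x|)]
      _ = _ := by ring
  have h6 : 0 < (1 + L * |g|) ^ 2 := by positivity
  have h7 : 0 < 1 + x ^ 2 := by positivity
  rw [div_le_iff₀ h7]
  have h8 : Real.exp (2 * δ * (L * |b|)) ≤ 2 * (1 + 2 * Real.pi * lam) ^ 2 *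
      (Real.exp (2 * δ * (L * |b|)) / (1 + L * |g|) ^ 2) * (1 + x ^ 2) := by
    rw [mul_div_assoc', div_mul_eq_mul_div, le_div_iff₀ h6]
    have := Real.exp_pos (2 * δ * (L * |b|))
    nlinarith
  exact h2.trans h8

lemma Zf_sub_ZD {T U1 U2 : ℝ} (hT : 16 ≤ T) (h1 : T ≤ U1) (h2 : U2 ≤ 2 * T) :
    Zf riemannZeta U1 U2 ⊆ ZD T := by
  intro s hs
  unfold Pool.Agent.Q97.UM.ZD
  rw [mem_Zf good_zeta (by linarith)] at hs
  rw [mem_Zf good_zeta (by linarith)]
  obtain ⟨a1, a2, a3, a4, a5⟩ := hs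
  refine ⟨a1, a2, by linarith, by linarith, a5⟩

lemma Wt_le_SS {δ lam T U1 U2 : ℝ} (hlam : 1 ≤ lam) (hd : 1 / (2 * lam) ≤ 2 * δ) (hT : 16 ≤ T)
    (h1 : T ≤ U1) (h2 : U2 ≤ 2 * T) (t : ℝ) :
    Wt (Real.log T / lam) (Zf riemannZeta U1 U2) t ≤
      2 * (1 + 2 * Real.pi * lam) ^ 2 * SS δ T t := by
  have hL : 0 ≤ Real.log T := Real.log_nonneg (by linarith)
  unfold Wt Pool.Agent.Q97.UM.SS
  rw [Finset.mul_sum]
  refine le_trans (Finset.sum_le_sum fun s _ => ?_)
    (Finset.sum_le_sum_of_subset_of_nonneg (Zf_sub_ZD hT h1 h2) fun s _ _ => by positivity)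
  have h3 := term_le hlam hd hL (s.re - 1 / 2) (s.im - t)
  calc (mult riemannZeta s : ℝ) *
        (Real.exp (Real.pi * |(s.re - 1 / 2) * (Real.log T / lam / (2 * Real.pi))|) /
          (1 + ((s.im - t) * (Real.log T / lam / (2 * Real.pi))) ^ 2)) ≤
      (mult riemannZeta s : ℝ) * (2 * (1 + 2 * Real.pi * lam) ^ 2 *
        (Real.exp (2 * δ * (Real.log T * |s.re - 1 / 2|)) /
          (1 + Real.log T * |s.im - t|) ^ 2)) :=
        mul_le_mul_of_nonneg_left h3 (Nat.cast_nonneg _)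
    _ = _ := by
        unfold Pool.Agent.Q97.UM.mz H370.mult
        ring

/-- the mean square and the maximum of the weighted local sum -/
theorem Wt_sq : ∃ lam C : ℝ, 16 ≤ lam ∧ 0 < C ∧ ∀ᶠ T : ℝ in atTop, ∀ U1 U2 : ℝ, T ≤ U1 → U2 ≤ 2 * T →
    (∀ A B : ℝ, T / 2 ≤ A → A ≤ B → B ≤ 4 * T →
      ∫ t in A..B, Wt (Real.log T / lam) (Zf riemannZeta U1 U2) t ^ 2 ≤ C * T) ∧
    ∀ t : ℝ, T / 2 ≤ t → t ≤ 4 * T →
      Wt (Real.log T / lam) (Zf riemannZeta U1 U2) t ^ 2 ≤ C * (T * Real.log T) := by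
  obtain ⟨δ, C, hδ, hδ1, hC, hS⟩ := SS_sq
  have hpi := Real.pi_pos
  obtain ⟨lam, hlamd⟩ : ∃ lam : ℝ, lam = max 16 (1 / (4 * δ)) := ⟨_, rfl⟩
  have hlam : 16 ≤ lam := by rw [hlamd]; exact le_max_left _ _
  have hlam1 : 1 / (4 * δ) ≤ lam := by rw [hlamd]; exact le_max_right _ _
  have hlam0 : 0 < lam := by linarith
  have hd : 1 / (2 * lam) ≤ 2 * δ := by
    rw [div_le_iff₀ (by positivity)] at hlam1 ⊢
    nlinarith
  obtain ⟨K, hK⟩ : ∃ K : ℝ, K = 2 * (1 + 2 * Real.pi * lam) ^ 2 := ⟨_, rfl⟩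
  have hK0 : 0 < K := by rw [hK]; positivity
  refine ⟨lam, 10 * K ^ 2 * C, hlam, by positivity, ?_⟩
  filter_upwards [hS, eventually_ge_atTop 16, Real.tendsto_log_atTop.eventually_ge_atTop
    (2 * Real.pi * lam)] with T h1 hT hL U1 U2 hU1 hU2
  have hT0 : 0 < T := by linarith
  have hL0 : 0 < Real.log T := Real.log_pos (by linarith)
  obtain ⟨l, hl⟩ : ∃ l : ℝ, l = Real.log T / lam := ⟨_, rfl⟩
  have hl0 : 0 < l := by rw [hl]; positivity
  have hl2 : 2 * Real.pi ≤ l := by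
    rw [hl, le_div_iff₀ hlam0]; exact hL
  have hWc := Wt_cont l (Zf riemannZeta U1 U2)
  have hSc := SS_cont (δ := δ) (T := T) (by linarith)
  have hW : ∀ t, Wt l (Zf riemannZeta U1 U2) t ≤ K * SS δ T t := by
    intro t
    rw [hl, hK]
    exact Wt_le_SS (by linarith) hd hT hU1 hU2 t
  have hW0 : ∀ t, 0 ≤ Wt l (Zf riemannZeta U1 U2) t := Wt_nonneg l _
  have hWsq : ∀ t, Wt l (Zf riemannZeta U1 U2) t ^ 2 ≤ K ^ 2 * SS δ T t ^ 2 := by
    intro t
    rw [← mul_pow]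
    exact pow_le_pow_left₀ (hW0 t) (hW t) 2
  have key : ∀ A B : ℝ, T / 4 ≤ A → A ≤ B → B ≤ 8 * T →
      ∫ t in A..B, Wt l (Zf riemannZeta U1 U2) t ^ 2 ≤ K ^ 2 * C * T := by
    intro A B hA hAB hB
    calc ∫ t in A..B, Wt l (Zf riemannZeta U1 U2) t ^ 2 ≤ ∫ t in A..B, K ^ 2 * SS δ T t ^ 2 :=
          intervalIntegral.integral_mono_on hAB ((hWc.pow 2).intervalIntegrable _ _)
            ((continuous_const.mul (hSc.pow 2)).intervalIntegrable _ _) fun t _ => hWsq t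
      _ ≤ ∫ t in (T / 4)..(8 * T), K ^ 2 * SS δ T t ^ 2 :=
          intervalIntegral.integral_mono_interval hA hAB hB
            (Eventually.of_forall fun t => by positivity)
            ((continuous_const.mul (hSc.pow 2)).intervalIntegrable _ _)
      _ = K ^ 2 * ∫ t in (T / 4)..(8 * T), SS δ T t ^ 2 := by
          rw [intervalIntegral.integral_const_mul]
      _ ≤ K ^ 2 * (C * T) := mul_le_mul_of_nonneg_left h1 (sq_nonneg _)
      _ = _ := by ring
  rw [← hl]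
  refine ⟨fun A B hA hAB hB => (key A B (by linarith) hAB (by linarith)).trans ?_, fun t ht1 ht2 => ?_⟩
  · have : 0 ≤ K ^ 2 * C * T := by positivity
    linarith
  · -- pointwise
    have hcmp : ∀ u ∈ Set.Icc t (t + 2 * Real.pi / l),
        Wt l (Zf riemannZeta U1 U2) t ^ 2 ≤ 9 * Wt l (Zf riemannZeta U1 U2) u ^ 2 := by
      intro u hu
      have h3 : Wt l (Zf riemannZeta U1 U2) t ≤ 3 * Wt l (Zf riemannZeta U1 U2) u := by
        unfold Wt
        rw [Finset.mul_sum]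
        refine Finset.sum_le_sum fun s _ => ?_
        have hE := Real.exp_pos (Real.pi * |(s.re - 1 / 2) * (l / (2 * Real.pi))|)
        set Ee := Real.exp (Real.pi * |(s.re - 1 / 2) * (l / (2 * Real.pi))|) with hEe
        have hd1 : |(s.im - u) * (l / (2 * Real.pi)) - (s.im - t) * (l / (2 * Real.pi))| ≤ 1 := by
          have e : (s.im - u) * (l / (2 * Real.pi)) - (s.im - t) * (l / (2 * Real.pi)) =
              -((u - t) * (l / (2 * Real.pi))) := by ring
          rw [e, abs_neg, abs_of_nonneg (mul_nonneg (by linarith [hu.1]) (by positivity))]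
          have h4 : u - t ≤ 2 * Real.pi / l := by linarith [hu.2]
          calc (u - t) * (l / (2 * Real.pi)) ≤ (2 * Real.pi / l) * (l / (2 * Real.pi)) :=
                mul_le_mul_of_nonneg_right h4 (by positivity)
            _ = 1 := by field_simp
        generalize (s.im - u) * (l / (2 * Real.pi)) = x at hd1 ⊢
        generalize (s.im - t) * (l / (2 * Real.pi)) = y at hd1 ⊢
        have h5 : 1 + x ^ 2 ≤ 3 * (1 + y ^ 2) := by
          have h6 := abs_le.1 hd1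
          nlinarith [sq_nonneg (x - 2 * y), sq_nonneg (x - y)]
        have h7 : Ee / (1 + y ^ 2) ≤ 3 * (Ee / (1 + x ^ 2)) := by
          rw [mul_div_assoc', div_le_div_iff₀ (by positivity) (by positivity)]
          nlinarith
        calc (mult riemannZeta s : ℝ) * (Ee / (1 + y ^ 2)) ≤
            (mult riemannZeta s : ℝ) * (3 * (Ee / (1 + x ^ 2))) :=
              mul_le_mul_of_nonneg_left h7 (Nat.cast_nonneg _)
          _ = _ := by ring
      calc Wt l (Zf riemannZeta U1 U2) t ^ 2 ≤ (3 * Wt l (Zf riemannZeta U1 U2) u) ^ 2 :=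
            pow_le_pow_left₀ (hW0 t) h3 2
        _ = _ := by ring
    have hr0 : 0 < 2 * Real.pi / l := by positivity
    have hr1 : 2 * Real.pi / l ≤ 1 := by rw [div_le_one hl0]; exact hl2
    have h4 : (2 * Real.pi / l) * Wt l (Zf riemannZeta U1 U2) t ^ 2 ≤
        ∫ u in t..(t + 2 * Real.pi / l), 9 * Wt l (Zf riemannZeta U1 U2) u ^ 2 := by
      have h5 : ∫ u in t..(t + 2 * Real.pi / l), Wt l (Zf riemannZeta U1 U2) t ^ 2 =
          (2 * Real.pi / l) * Wt l (Zf riemannZeta U1 U2) t ^ 2 := by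
        rw [intervalIntegral.integral_const, smul_eq_mul, add_sub_cancel_left]
      rw [← h5]
      exact intervalIntegral.integral_mono_on (by linarith) (continuous_const.intervalIntegrable _ _)
        ((continuous_const.mul (hWc.pow 2)).intervalIntegrable _ _) hcmp
    rw [intervalIntegral.integral_const_mul] at h4
    have h6 := key t (t + 2 * Real.pi / l) (by linarith) (by linarith) (by linarith)
    have h7 : (2 * Real.pi / l) * Wt l (Zf riemannZeta U1 U2) t ^ 2 ≤ 9 * (K ^ 2 * C * T) :=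
      h4.trans (mul_le_mul_of_nonneg_left h6 (by norm_num))
    rw [div_mul_eq_mul_div, div_le_iff₀ hl0] at h7
    have h8 : l ≤ Real.log T := by
      rw [hl, div_le_iff₀ hlam0]
      nlinarith
    have h9 : 0 ≤ Wt l (Zf riemannZeta U1 U2) t ^ 2 := sq_nonneg _
    have h10 : 1 ≤ 2 * Real.pi := by linarith [Real.pi_gt_three]
    calc Wt l (Zf riemannZeta U1 U2) t ^ 2 ≤ 2 * Real.pi * Wt l (Zf riemannZeta U1 U2) t ^ 2 := by
          nlinarith
      _ ≤ 9 * (K ^ 2 * C * T) * l := h7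
      _ ≤ 9 * (K ^ 2 * C * T) * Real.log T :=
          mul_le_mul_of_nonneg_left h8 (by positivity)
      _ ≤ _ := by
          have : 0 ≤ K ^ 2 * C * T * Real.log T := by positivity
          nlinarith

end Pool.Agent.L5helper84.UV
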