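import Pool.Agent.L5helper84.UV.Cross
import Pool.Agent.L5helper84.UV.W2

set_option autoImplicit false

/-! # The number variance in a dyadic interval -/

namespace Pool.Agent.L5helper84.UV

open Complex Filter Topology MeasureTheory Set
open H370 (mult Zf zset mem_Zf good_zeta zz)
open Pool.Agent.TH850.UV

/-- measurable bounded functions are integrable -/
lemma bdd_ii {f : ℝ → ℝ} (hm : Measurable f) {M : ℝ} (hb : ∀ t, |f t| ≤ M) (A B : ℝ) :
    IntervalIntegrable f volume A B := by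
  refine (continuous_const (y := M)).intervalIntegrable A B |>.mono_fun hm.aestronglyMeasurable ?_
  refine Eventually.of_forall fun t => ?_
  simp only [Real.norm_eq_abs]
  exact (hb t).trans (le_abs_self _)

/-- the Cauchy-Schwarz inequality -/
lemma cs_sq {f : ℝ → ℝ} (hf : Continuous f) {a b : ℝ} (hab : a ≤ b) :
    (∫ t in a..b, f t) ^ 2 ≤ (b - a) * ∫ t in a..b, f t ^ 2 := by
  rcases hab.eq_or_lt with h | h
  · subst h; simp
  · have h0 : 0 < b - a := by linarith
    obtain ⟨c, hc⟩ : ∃ c, c = (∫ t in a..b, f t) / (b - a) := ⟨_, rfl⟩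
    have h1 : 0 ≤ ∫ t in a..b, (f t - c) ^ 2 :=
      intervalIntegral.integral_nonneg hab fun t _ => sq_nonneg _
    have h2 : ∫ t in a..b, (f t - c) ^ 2 =
        (∫ t in a..b, f t ^ 2) - 2 * c * (∫ t in a..b, f t) + c ^ 2 * (b - a) := by
      have e : (fun t => (f t - c) ^ 2) = fun t => (f t ^ 2 - 2 * c * f t) + c ^ 2 := by
        funext t; ring
      rw [e, intervalIntegral.integral_add (Continuous.intervalIntegrable (by fun_prop) _ _)
        (Continuous.intervalIntegrable (by fun_prop) _ _),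
        intervalIntegral.integral_sub (Continuous.intervalIntegrable (by fun_prop) _ _)
        (Continuous.intervalIntegrable (by fun_prop) _ _), intervalIntegral.integral_const_mul,
        intervalIntegral.integral_const, smul_eq_mul]
      ring
    rw [h2] at h1
    have h3 : (∫ t in a..b, f t) = c * (b - a) := by rw [hc]; field_simp
    rw [h3] at h1 ⊢
    nlinarith

/-- sliding averages -/
lemma slide {W : ℝ → ℝ} (hW : Continuous W) {A B h M : ℝ} (hAB : A ≤ B) (hh : 0 ≤ h)
    (hM : ∀ v : ℝ, 0 ≤ v → v ≤ h → ∫ t in A..B, W (t + v) ^ 2 ≤ M) :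
    ∫ t in A..B, (∫ u in t..(t + h), W u) ^ 2 ≤ h ^ 2 * M := by
  have h1 : ∀ t, ∫ u in t..(t + h), W u = ∫ v in (0 : ℝ)..h, W (t + v) := by
    intro t
    have := intervalIntegral.integral_comp_add_left (a := (0 : ℝ)) (b := h) W t
    rw [add_zero] at this
    exact this.symm
  simp_rw [h1]
  have hc2 : Continuous fun p : ℝ × ℝ => W (p.1 + p.2) ^ 2 := by fun_prop
  have hcc : Continuous fun t => ∫ v in (0 : ℝ)..h, W (t + v) ^ 2 := by
    apply intervalIntegral.continuous_parametric_intervalIntegral_of_continuous' (f := fun t v => W (t + v) ^ 2)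
    exact hc2
  have hcc1 : Continuous fun t => ∫ v in (0 : ℝ)..h, W (t + v) := by
    apply intervalIntegral.continuous_parametric_intervalIntegral_of_continuous' (f := fun t v => W (t + v))
    exact (by fun_prop : Continuous fun p : ℝ × ℝ => W (p.1 + p.2))
  calc ∫ t in A..B, (∫ v in (0 : ℝ)..h, W (t + v)) ^ 2 ≤
      ∫ t in A..B, h * ∫ v in (0 : ℝ)..h, W (t + v) ^ 2 := by
        refine intervalIntegral.integral_mono_on hAB ((hcc1.pow 2).intervalIntegrable _ _)
          ((continuous_const.mul hcc).intervalIntegrable _ _) fun t _ => ?_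
        have := cs_sq (f := fun v => W (t + v)) (by fun_prop) hh
        rwa [sub_zero] at this
    _ = h * ∫ v in (0 : ℝ)..h, ∫ t in A..B, W (t + v) ^ 2 := by
        rw [intervalIntegral.integral_const_mul]
        congr 1
        apply intervalIntegral_intervalIntegral_swap
        have h2 : IntegrableOn (Function.uncurry fun t v => W (t + v) ^ 2)
            (Set.uIcc A B ×ˢ Set.uIcc 0 h) :=
          ContinuousOn.integrableOn_compact (isCompact_uIcc.prod isCompact_uIcc) hc2.continuousOn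
        exact h2.mono_set (Set.prod_mono Set.uIoc_subset_uIcc Set.uIoc_subset_uIcc)
    _ ≤ h * ∫ v in (0 : ℝ)..h, M := by
        apply mul_le_mul_of_nonneg_left _ hh
        have hcv : Continuous fun v => ∫ t in A..B, W (t + v) ^ 2 := by
          apply intervalIntegral.continuous_parametric_intervalIntegral_of_continuous' (f := fun v t => W (t + v) ^ 2)
          exact (by fun_prop : Continuous fun p : ℝ × ℝ => W (p.2 + p.1) ^ 2)
        exact intervalIntegral.integral_mono_on hh (hcv.intervalIntegrable _ _)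
          (continuous_const.intervalIntegrable _ _) fun v hv => hM v hv.1 hv.2
    _ = h ^ 2 * M := by
        rw [intervalIntegral.integral_const, smul_eq_mul]
        ring

lemma cn_meas (Z : Finset ℂ) (h : ℝ) : Measurable fun t => cn Z t h := by
  unfold cn
  refine Finset.measurable_fun_sum _ fun s _ => Measurable.const_mul ?_ _
  refine Measurable.ite ?_ measurable_const measurable_const
  exact (measurableSet_lt measurable_id measurable_const).inter
    (measurableSet_le measurable_const (measurable_id.add_const h))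

lemma cn_bd (Z : Finset ℂ) (t h : ℝ) : |cn Z t h| ≤ ∑ s ∈ Z, (mult riemannZeta s : ℝ) := by
  unfold cn
  refine (Finset.abs_sum_le_sum_abs _ _).trans (Finset.sum_le_sum fun s _ => ?_)
  rw [abs_mul, abs_of_nonneg (Nat.cast_nonneg _)]
  refine mul_le_of_le_one_right (Nat.cast_nonneg _) ?_
  split_ifs <;> norm_num

lemma Wt_bd (l : ℝ) (Z : Finset ℂ) (t : ℝ) : Wt l Z t ≤ ∑ s ∈ Z, (mult riemannZeta s : ℝ) *
    Real.exp (Real.pi * |yy l s|) := by
  rw [Wt_eq]
  refine Finset.sum_le_sum fun s _ => mul_le_mul_of_nonneg_left ?_ (Nat.cast_nonneg _)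
  exact div_le_self (Real.exp_pos _).le (by nlinarith [sq_nonneg (xx l s t)])

lemma h_small {B L a : ℝ} (hB : 1 ≤ B) (hL : 0 < L) (ha : 16 ≤ a) (hab : a * Real.log a ≤ B * L) :
    (1 + Real.log a) * (2 * Real.pi * a / L) ^ 2 ≤ 8 * Real.pi ^ 2 * B ^ 2 := by
  have hpi := Real.pi_pos
  have hlog : 1 ≤ Real.log a := by
    rw [Real.le_log_iff_exp_le (by linarith)]
    linarith [Real.exp_one_lt_d9]
  have ha0 : 0 < a := by linarith
  have h1 : (1 + Real.log a) * a ^ 2 ≤ 2 * (a * Real.log a) ^ 2 := by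
    have h2 : 1 + Real.log a ≤ 2 * Real.log a ^ 2 := by nlinarith
    calc (1 + Real.log a) * a ^ 2 ≤ 2 * Real.log a ^ 2 * a ^ 2 := by gcongr
      _ = _ := by ring
  have h3 : (a * Real.log a) ^ 2 ≤ (B * L) ^ 2 := by
    have : 0 ≤ a * Real.log a := by positivity
    exact pow_le_pow_left₀ this hab 2
  have e : (1 + Real.log a) * (2 * Real.pi * a / L) ^ 2 =
      4 * Real.pi ^ 2 / L ^ 2 * ((1 + Real.log a) * a ^ 2) := by
    field_simp
    ring
  rw [e]
  calc 4 * Real.pi ^ 2 / L ^ 2 * ((1 + Real.log a) * a ^ 2) ≤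
      4 * Real.pi ^ 2 / L ^ 2 * (2 * (B * L) ^ 2) := by
        apply mul_le_mul_of_nonneg_left _ (by positivity)
        linarith
    _ = _ := by field_simp; ring

theorem var1 : ∃ lam : ℝ, 16 ≤ lam ∧ (∃ C2 : ℝ, 0 < C2 ∧ ∀ᶠ T : ℝ in atTop, ∀ U1 U2 : ℝ, T ≤ U1 →
      U2 ≤ 2 * T → (∀ A B : ℝ, T / 2 ≤ A → A ≤ B → B ≤ 4 * T →
        ∫ t in A..B, Wt (Real.log T / lam) (Zf riemannZeta U1 U2) t ^ 2 ≤ C2 * T)) ∧
    ∀ B : ℝ, 1 ≤ B → ∃ C : ℝ, 0 < C ∧ ∀ᶠ T : ℝ in atTop,
    ∃ U1 U2 : ℝ, T ≤ U1 ∧ U1 ≤ T + 1 ∧ 2 * T - 1 ≤ U2 ∧ U2 ≤ 2 * T ∧ ∀ a : ℝ, lam ≤ a →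
      a * Real.log a ≤ B * Real.log T →
      |(∫ t in (T + Real.log T)..(2 * T - Real.log T - 7),
        (cn (Zf riemannZeta U1 U2) t (2 * Real.pi * a / Real.log T) - a) ^ 2) -
        T / Real.pi ^ 2 * Real.log a| ≤ C * T := by
  obtain ⟨lam, C2, hlam, hC2, hW⟩ := Wt_sq
  refine ⟨lam, hlam, ⟨C2, hC2, ?_⟩, fun B hB => ?_⟩
  · filter_upwards [hW] with T h U1 U2 h1 h2 using (h U1 U2 h1 h2).1
  obtain ⟨C1, T1, hC1, hT1, hDb⟩ := Db_ms hlam B hB
  obtain ⟨C3, T3, hC3, hT3, hbas⟩ := basic hlam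
  obtain ⟨C4, hC4, hcr⟩ := cross hlam hC2 hW
  obtain ⟨CE, hCE, hEle⟩ := EE_le
  have hpi := Real.pi_pos
  have hpi3 := Real.pi_gt_three
  obtain ⟨K, hK⟩ : ∃ K : ℝ, K = 8 * Real.pi ^ 2 * B ^ 2 := ⟨_, rfl⟩
  have hK0 : 0 < K := by rw [hK]; positivity
  obtain ⟨MR, hMR⟩ : ∃ MR : ℝ, MR = 2 * C3 ^ 2 * (1 + C2) := ⟨_, rfl⟩
  have hMR0 : 0 < MR := by rw [hMR]; positivity
  refine ⟨C1 + 4 * C4 + (1 + C1) + K * MR + 3 * (2 * (CE ^ 2 * C2) + K * MR), by positivity, ?_⟩
  filter_upwards [hW, hcr, eventually_ge_atTop T1, eventually_ge_atTop T3,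
    Real.tendsto_log_atTop.eventually_ge_atTop (Real.exp B), eventually_ge_atTop (Real.exp 1),
    Real.tendsto_log_atTop.eventually_ge_atTop 1,
    (Real.isLittleO_log_id_atTop.bound (c := 1 / 8) (by norm_num)), eventually_ge_atTop 100]
    with T hWT hcrT hTT1 hTT3 hLB hTe hL1 hlo hT100
  obtain ⟨U1, U2, hU1, hU2, hU3, hU4, hbT⟩ := hbas T hTT3
  refine ⟨U1, U2, hU1, hU2, hU3, hU4, fun a hla hab => ?_⟩
  have hT0 : 0 < T := by linarith
  have hL0 : 0 < Real.log T := by linarith
  have hlo2 : Real.log T ≤ T / 8 := by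
    rw [Real.norm_of_nonneg hL0.le] at hlo
    simp only [id, Real.norm_of_nonneg hT0.le] at hlo
    linarith
  have hWW := hWT U1 U2 hU1 hU4
  have hcc := hcrT U1 U2 hU1 hU4
  have hD := hDb T hTT1 a hla hab
  have ha16 : 16 ≤ a := hlam.trans hla
  have haL : a ≤ Real.log T := range_le (by linarith) (by linarith) hLB hab
  have hhs := h_small hB hL0 ha16 hab
  rw [← hK] at hhs
  obtain ⟨h, hh⟩ : ∃ h : ℝ, h = 2 * Real.pi * a / Real.log T := ⟨_, rfl⟩
  rw [← hh] at hD hhs ⊢
  have hh0 : 0 ≤ h := by rw [hh]; positivity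
  have hh7 : h ≤ 7 := by
    rw [hh, div_le_iff₀ hL0]
    have : 2 * Real.pi ≤ 7 := by linarith [Real.pi_lt_d2]
    nlinarith
  have hha : h * Real.log T / (2 * Real.pi) = a := by rw [hh]; field_simp
  obtain ⟨Z, hZ⟩ : ∃ Z : Finset ℂ, Z = Zf riemannZeta U1 U2 := ⟨_, rfl⟩
  obtain ⟨l, hl⟩ : ∃ l : ℝ, l = Real.log T / lam := ⟨_, rfl⟩
  have hl0 : 0 < l := by rw [hl]; positivity
  rw [← hZ] at hWW hcc ⊢
  rw [← hl] at hWW hcc hD
  obtain ⟨A, hA⟩ : ∃ A : ℝ, A = T + Real.log T := ⟨_, rfl⟩
  obtain ⟨E, hE⟩ : ∃ E : ℝ, E = 2 * T - Real.log T - 7 := ⟨_, rfl⟩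
  rw [← hA, ← hE] at hD ⊢
  have hAE : A ≤ E := by rw [hA, hE]; linarith
  have hTA : T ≤ A := by rw [hA]; linarith
  have hE2 : E ≤ 2 * T := by rw [hE]; linarith
  -- the functions
  obtain ⟨f, hf⟩ : ∃ f : ℝ → ℝ, f = Db l h (XT T) := ⟨_, rfl⟩
  obtain ⟨e, he⟩ : ∃ e : ℝ → ℝ, e = fun t => EE l Z (t + h) - EE l Z (t + 0) := ⟨_, rfl⟩
  obtain ⟨R, hR⟩ : ∃ R : ℝ → ℝ, R = fun t => cn Z t h - a + f t - e t := ⟨_, rfl⟩
  rw [← hf] at hD
  have hfm : Measurable f := by rw [hf]; exact (Db_cont l h (XT T)).measurable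
  have hfb : ∀ t, |f t| ≤ XT T := by intro t; rw [hf]; exact Db_abs hl0 h (XT T) t
  have hem : Measurable e := by
    rw [he]
    exact ((EE_meas l Z).comp (measurable_add_const h)).sub
      ((EE_meas l Z).comp (measurable_add_const 0))
  obtain ⟨ME, hME⟩ : ∃ ME : ℝ, ME = CE * ∑ s ∈ Z, (mult riemannZeta s : ℝ) *
    Real.exp (Real.pi * |yy l s|) := ⟨_, rfl⟩
  have hEb : ∀ t, |EE l Z t| ≤ ME := fun t => by
    rw [hME]
    exact (hEle l Z t).trans (mul_le_mul_of_nonneg_left (Wt_bd l Z t) hCE.le)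
  have heb : ∀ t, |e t| ≤ 2 * ME := by
    intro t
    rw [he]
    have h1 := hEb (t + h)
    have h2 := hEb (t + 0)
    refine (abs_sub _ _).trans ?_
    linarith
  obtain ⟨MC, hMC⟩ : ∃ MC : ℝ, MC = ∑ s ∈ Z, (mult riemannZeta s : ℝ) := ⟨_, rfl⟩
  have hcm := cn_meas Z h
  have hcb : ∀ t, |cn Z t h| ≤ MC := fun t => by rw [hMC]; exact cn_bd Z t h
  have hRm : Measurable R := by
    rw [hR]
    exact ((hcm.sub_const a).add hfm).sub hem
  have hRb : ∀ t, |R t| ≤ MC + |a| + XT T + 2 * ME := by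
    intro t
    rw [hR]
    refine (abs_sub _ _).trans (add_le_add ((abs_add_le _ _).trans (add_le_add
      ((abs_sub _ _).trans (add_le_add (hcb t) le_rfl)) (hfb t))) (heb t))
  have hME0 : 0 ≤ ME := (abs_nonneg _).trans (hEb 0)
  have hMC0 : 0 ≤ MC := (abs_nonneg _).trans (hcb 0)
  have sqb : ∀ {x M : ℝ}, |x| ≤ M → |x ^ 2| ≤ M ^ 2 := by
    intro x M hx
    rw [abs_pow]
    exact pow_le_pow_left₀ (abs_nonneg _) hx 2
  have mulb : ∀ {x y M N : ℝ}, |x| ≤ M → |y| ≤ N → |x * y| ≤ M * N := by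
    intro x y M N hx hy
    rw [abs_mul]
    exact mul_le_mul hx hy (abs_nonneg _) ((abs_nonneg _).trans hx)
  -- bound for R
  have hRle : ∀ t ∈ Set.Icc A E, |R t| ≤ C3 * (h + ∫ u in t..(t + h), Wt l Z u) := by
    intro t ht
    have h1 := hbT t h (by rw [← hA]; exact ht.1) hh0 (by have := ht.2; rw [hE] at this; linarith)
    rw [← hZ, ← hl, hha] at h1
    rw [hR, hf, he]
    simp only [add_zero]
    exact h1
  have hWc := Wt_cont l Z
  have hsl : ∫ t in A..E, (∫ u in t..(t + h), Wt l Z u) ^ 2 ≤ h ^ 2 * (C2 * T) := by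
    refine slide hWc hAE hh0 fun v hv0 hvh => ?_
    rw [intervalIntegral.integral_comp_add_right (fun t => Wt l Z t ^ 2) v]
    exact hWW.1 (A + v) (E + v) (by linarith) (by linarith) (by linarith)
  have hIc : Continuous fun t => ∫ u in t..(t + h), Wt l Z u := by
    have h1 : ∀ t, ∫ u in t..(t + h), Wt l Z u = ∫ v in (0 : ℝ)..h, Wt l Z (t + v) := by
      intro t
      have := intervalIntegral.integral_comp_add_left (a := (0 : ℝ)) (b := h) (Wt l Z) t
      rw [add_zero] at this
      exact this.symm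
    simp_rw [h1]
    apply intervalIntegral.continuous_parametric_intervalIntegral_of_continuous' (f := fun t v => Wt l Z (t + v))
    exact hWc.comp (by fun_prop : Continuous fun p : ℝ × ℝ => p.1 + p.2)
  have hR2 : ∫ t in A..E, R t ^ 2 ≤ h ^ 2 * MR * T := by
    calc ∫ t in A..E, R t ^ 2 ≤
        ∫ t in A..E, (2 * C3 ^ 2 * h ^ 2 + 2 * C3 ^ 2 * (∫ u in t..(t + h), Wt l Z u) ^ 2) := by
          refine intervalIntegral.integral_mono_on hAE
            (bdd_ii (hRm.pow_const 2) (fun t => sqb (hRb t)) _ _)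
            ((continuous_const.add (continuous_const.mul (hIc.pow 2))).intervalIntegrable _ _)
            fun t ht => ?_
          have h1 := hRle t ht
          rw [← sq_abs]
          have h2 : |R t| ^ 2 ≤ (C3 * (h + ∫ u in t..(t + h), Wt l Z u)) ^ 2 :=
            pow_le_pow_left₀ (abs_nonneg _) h1 2
          refine h2.trans ?_
          rw [mul_pow]
          have h3 : (h + ∫ u in t..(t + h), Wt l Z u) ^ 2 ≤
              2 * h ^ 2 + 2 * (∫ u in t..(t + h), Wt l Z u) ^ 2 := by
            nlinarith [sq_nonneg (h - ∫ u in t..(t + h), Wt l Z u)]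
          have h4 : 0 ≤ C3 ^ 2 := sq_nonneg _
          nlinarith
      _ = 2 * C3 ^ 2 * h ^ 2 * (E - A) +
          2 * C3 ^ 2 * ∫ t in A..E, (∫ u in t..(t + h), Wt l Z u) ^ 2 := by
          have i1 : IntervalIntegrable (fun t : ℝ => 2 * C3 ^ 2 *
              (∫ u in t..(t + h), Wt l Z u) ^ 2) volume A E :=
            (continuous_const.mul (hIc.pow 2)).intervalIntegrable _ _
          rw [intervalIntegral.integral_add (continuous_const.intervalIntegrable _ _) i1,
            intervalIntegral.integral_const, intervalIntegral.integral_const_mul, smul_eq_mul]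
          ring
      _ ≤ 2 * C3 ^ 2 * h ^ 2 * T + 2 * C3 ^ 2 * (h ^ 2 * (C2 * T)) := by
          have : E - A ≤ T := by linarith
          gcongr
      _ = _ := by rw [hMR]; ring
  have hlog1 : 1 ≤ Real.log a := by
    rw [Real.le_log_iff_exp_le (by linarith)]
    linarith [Real.exp_one_lt_d9]
  obtain ⟨q, hq⟩ : ∃ q : ℝ, q = 1 + Real.log a := ⟨_, rfl⟩
  have hq1 : 1 ≤ q := by rw [hq]; linarith
  rw [← hq] at hhs
  have hh2K : h ^ 2 ≤ K := by nlinarith [sq_nonneg h]
  have hR2' : ∫ t in A..E, R t ^ 2 ≤ K * MR * T := by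
    refine hR2.trans ?_
    gcongr
  have hR2q : q * ∫ t in A..E, R t ^ 2 ≤ K * MR * T := by
    calc q * ∫ t in A..E, R t ^ 2 ≤ q * (h ^ 2 * MR * T) :=
          mul_le_mul_of_nonneg_left hR2 (by linarith)
      _ = (q * h ^ 2) * MR * T := by ring
      _ ≤ K * MR * T := by gcongr
  -- the square of the error function
  have hE2' : ∀ σ : ℝ, 0 ≤ σ → σ ≤ 7 → ∫ t in A..E, EE l Z (t + σ) ^ 2 ≤ CE ^ 2 * C2 * T := by
    intro σ h0 h1
    have hWs : Continuous fun t => CE ^ 2 * Wt l Z (t + σ) ^ 2 :=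
      continuous_const.mul ((hWc.comp (continuous_add_const σ)).pow 2)
    calc ∫ t in A..E, EE l Z (t + σ) ^ 2 ≤ ∫ t in A..E, CE ^ 2 * Wt l Z (t + σ) ^ 2 := by
          refine intervalIntegral.integral_mono_on hAE
            (bdd_ii (((EE_meas l Z).comp (measurable_add_const σ)).pow_const 2)
              (fun t => sqb (hEb (t + σ))) _ _) (hWs.intervalIntegrable _ _) fun t _ => ?_
          rw [← mul_pow, ← sq_abs]
          exact pow_le_pow_left₀ (abs_nonneg _) (hEle l Z (t + σ)) 2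
      _ = CE ^ 2 * ∫ t in (A + σ)..(E + σ), Wt l Z t ^ 2 := by
          rw [intervalIntegral.integral_const_mul,
            intervalIntegral.integral_comp_add_right (fun t => Wt l Z t ^ 2) σ]
      _ ≤ CE ^ 2 * (C2 * T) := by
          apply mul_le_mul_of_nonneg_left _ (sq_nonneg _)
          exact hWW.1 _ _ (by linarith) (by linarith) (by linarith)
      _ = _ := by ring
  have i_f2 : IntervalIntegrable (fun t => f t ^ 2) volume A E :=
    bdd_ii (hfm.pow_const 2) (fun t => sqb (hfb t)) _ _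
  have i_fe : IntervalIntegrable (fun t => f t * e t) volume A E :=
    bdd_ii (hfm.mul hem) (fun t => mulb (hfb t) (heb t)) _ _
  have i_fR : IntervalIntegrable (fun t => f t * R t) volume A E :=
    bdd_ii (hfm.mul hRm) (fun t => mulb (hfb t) (hRb t)) _ _
  have i_R2 : IntervalIntegrable (fun t => R t ^ 2) volume A E :=
    bdd_ii (hRm.pow_const 2) (fun t => sqb (hRb t)) _ _
  have i_eR : IntervalIntegrable (fun t => (e t + R t) ^ 2) volume A E :=
    bdd_ii ((hem.add hRm).pow_const 2)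
      (fun t => sqb ((abs_add_le _ _).trans (add_le_add (heb t) (hRb t)))) _ _
  have i_e1 : IntervalIntegrable (fun t => EE l Z (t + h) ^ 2) volume A E :=
    bdd_ii (((EE_meas l Z).comp (measurable_add_const h)).pow_const 2)
      (fun t => sqb (hEb (t + h))) _ _
  have i_e0 : IntervalIntegrable (fun t => EE l Z (t + 0) ^ 2) volume A E :=
    bdd_ii (((EE_meas l Z).comp (measurable_add_const 0)).pow_const 2)
      (fun t => sqb (hEb (t + 0))) _ _
  -- decomposition
  have hdec : ∫ t in A..E, (cn Z t h - a) ^ 2 = (∫ t in A..E, f t ^ 2) -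
      2 * (∫ t in A..E, f t * e t) - 2 * (∫ t in A..E, f t * R t) +
      ∫ t in A..E, (e t + R t) ^ 2 := by
    have e1 : (fun t => (cn Z t h - a) ^ 2) = fun t => ((f t ^ 2 - 2 * (f t * e t)) -
        2 * (f t * R t)) + (e t + R t) ^ 2 := by
      funext t
      have : cn Z t h - a = -f t + e t + R t := by rw [hR]; ring
      rw [this]
      ring
    rw [e1, intervalIntegral.integral_add ((i_f2.sub (i_fe.const_mul 2)).sub (i_fR.const_mul 2)) i_eR,
      intervalIntegral.integral_sub (i_f2.sub (i_fe.const_mul 2)) (i_fR.const_mul 2),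
      intervalIntegral.integral_sub i_f2 (i_fe.const_mul 2), intervalIntegral.integral_const_mul,
      intervalIntegral.integral_const_mul]
  -- the cross term
  have b1 : |∫ t in A..E, f t * e t| ≤ 2 * C4 * T := by
    have c1 := hcc h h A E hh0 (by linarith) hTA hAE hE2
    have c0 := hcc h 0 A E le_rfl hT0.le hTA hAE hE2
    have i1 : IntervalIntegrable (fun t => f t * EE l Z (t + h)) volume A E :=
      bdd_ii (hfm.mul ((EE_meas l Z).comp (measurable_add_const h)))
        (fun t => mulb (hfb t) (hEb (t + h))) _ _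
    have i0 : IntervalIntegrable (fun t => f t * EE l Z (t + 0)) volume A E :=
      bdd_ii (hfm.mul ((EE_meas l Z).comp (measurable_add_const 0)))
        (fun t => mulb (hfb t) (hEb (t + 0))) _ _
    have e1 : ∫ t in A..E, f t * e t = (∫ t in A..E, f t * EE l Z (t + h)) -
        ∫ t in A..E, f t * EE l Z (t + 0) := by
      rw [← intervalIntegral.integral_sub i1 i0]
      refine intervalIntegral.integral_congr fun t _ => ?_
      rw [he]
      ring
    rw [e1]
    rw [← hf] at c1 c0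
    refine (abs_sub _ _).trans ?_
    linarith
  have b2 : |2 * ∫ t in A..E, f t * R t| ≤ (1 + C1) * T + K * MR * T := by
    have h1 : |2 * ∫ t in A..E, f t * R t| ≤ ∫ t in A..E, (1 / q * f t ^ 2 + q * R t ^ 2) := by
      rw [← intervalIntegral.integral_const_mul, ← Real.norm_eq_abs]
      refine (intervalIntegral.norm_integral_le_integral_norm hAE).trans ?_
      refine intervalIntegral.integral_mono_on hAE (i_fR.const_mul 2).norm
        ((i_f2.const_mul _).add (i_R2.const_mul _)) fun t _ => ?_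
      rw [Real.norm_eq_abs]
      have hq0 : 0 < q := by linarith
      have h2 : 0 ≤ 1 / q * (|f t| - q * |R t|) ^ 2 := by positivity
      have h3 : 1 / q * (|f t| - q * |R t|) ^ 2 = 1 / q * f t ^ 2 + q * R t ^ 2 -
          2 * (|f t| * |R t|) := by
        rw [← sq_abs (f t), ← sq_abs (R t)]
        field_simp
        ring
      rw [abs_mul, abs_mul, abs_of_pos (by norm_num : (0 : ℝ) < 2)]
      linarith
    refine h1.trans ?_
    rw [intervalIntegral.integral_add (i_f2.const_mul _) (i_R2.const_mul _),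
      intervalIntegral.integral_const_mul, intervalIntegral.integral_const_mul]
    have h2 : 1 / q * ∫ t in A..E, f t ^ 2 ≤ (1 + C1) * T := by
      have h3 := (abs_le.1 hD).2
      have h4 : ∫ t in A..E, f t ^ 2 ≤ q * ((1 + C1) * T) := by
        have h5 : T / Real.pi ^ 2 * Real.log a ≤ T * Real.log a := by
          apply mul_le_mul_of_nonneg_right _ (by linarith)
          apply div_le_self hT0.le
          nlinarith
        have h6 : T * Real.log a + C1 * T ≤ q * ((1 + C1) * T) := by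
          rw [hq]
          have : 0 ≤ C1 * T * Real.log a := by positivity
          nlinarith
        linarith
      rw [one_div, inv_mul_le_iff₀ (by linarith)]
      exact h4
    linarith
  have b3 : ∫ t in A..E, (e t + R t) ^ 2 ≤ 3 * (2 * (CE ^ 2 * C2) + K * MR) * T := by
    calc ∫ t in A..E, (e t + R t) ^ 2 ≤
        ∫ t in A..E, (3 * EE l Z (t + h) ^ 2 + 3 * EE l Z (t + 0) ^ 2 + 3 * R t ^ 2) := by
          refine intervalIntegral.integral_mono_on hAE i_eR
            (((i_e1.const_mul 3).add (i_e0.const_mul 3)).add (i_R2.const_mul 3)) fun t _ => ?_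
          rw [he]
          simp only
          nlinarith [sq_nonneg (EE l Z (t + h) + EE l Z (t + 0)), sq_nonneg (EE l Z (t + h) - R t),
            sq_nonneg (EE l Z (t + 0) + R t)]
      _ = 3 * (∫ t in A..E, EE l Z (t + h) ^ 2) + 3 * (∫ t in A..E, EE l Z (t + 0) ^ 2) +
          3 * ∫ t in A..E, R t ^ 2 := by
          rw [intervalIntegral.integral_add ((i_e1.const_mul 3).add (i_e0.const_mul 3))
            (i_R2.const_mul 3), intervalIntegral.integral_add (i_e1.const_mul 3)
            (i_e0.const_mul 3), intervalIntegral.integral_const_mul,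
            intervalIntegral.integral_const_mul, intervalIntegral.integral_const_mul]
      _ ≤ 3 * (CE ^ 2 * C2 * T) + 3 * (CE ^ 2 * C2 * T) + 3 * (K * MR * T) := by
          have g1 := hE2' h hh0 hh7
          have g2 := hE2' 0 le_rfl (by norm_num)
          gcongr
      _ = _ := by ring
  have b30 : 0 ≤ ∫ t in A..E, (e t + R t) ^ 2 :=
    intervalIntegral.integral_nonneg hAE fun t _ => sq_nonneg _
  rw [hdec]
  have c1 := abs_le.1 hD
  have c2 := abs_le.1 b1
  have c3 := abs_le.1 b2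
  have e9 : (C1 + 4 * C4 + (1 + C1) + K * MR + 3 * (2 * (CE ^ 2 * C2) + K * MR)) * T =
      C1 * T + 2 * (2 * C4 * T) + ((1 + C1) * T + K * MR * T) +
        3 * (2 * (CE ^ 2 * C2) + K * MR) * T := by ring
  rw [e9, abs_le]
  have hKM : 0 ≤ K * MR * T := by positivity
  have hCC : 0 ≤ 3 * (2 * (CE ^ 2 * C2) + K * MR) * T := by positivity
  constructor
  · linarith [c1.1, c2.2, c3.2]
  · linarith [c1.2, c2.1, c3.1]

end Pool.Agent.L5helper84.UV
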