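import Pool.Agent.L5helper84.UV.Pt

set_option autoImplicit false

/-! # The number variance in `[T, 2T]` -/

namespace Pool.Agent.L5helper84.UV

open Complex Filter Topology MeasureTheory Set
open H370 (mult Zf zset mem_Zf good_zeta zz NN NN_add NN_mono)
open Pool.Agent.TH850.UV

lemma cv_ii (Z : Finset ℂ) (h a A E : ℝ) :
    IntervalIntegrable (fun t => (cn Z t h - a) ^ 2) volume A E :=
  bdd_ii (((cn_meas Z h).sub_const a).pow_const 2)
    (M := ((∑ s ∈ Z, (mult riemannZeta s : ℝ)) + |a|) ^ 2) (fun t => by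
    rw [abs_pow]
    exact pow_le_pow_left₀ (abs_nonneg _) ((abs_sub _ _).trans
      (add_le_add (cn_bd Z t h) le_rfl)) 2) A E

theorem var_full (B : ℝ) (hB : 1 ≤ B) : ∃ C T0 : ℝ, 0 < C ∧ 10 ≤ T0 ∧ ∀ T : ℝ, T0 ≤ T →
    ∀ Z : Finset ℂ, (∀ s, s ∈ Z ↔ s ∈ zset riemannZeta 0 (2 * T + 8)) → ∀ a : ℝ, 1 ≤ a →
      a * Real.log a ≤ B * Real.log T →
      |(∫ t in T..(2 * T), (cn Z t (2 * Real.pi * a / Real.log T) - a) ^ 2) -
        T / Real.pi ^ 2 * Real.log a| ≤ C * T := by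
  obtain ⟨lam, hlam, -, hvar⟩ := var1
  obtain ⟨C1, hC1, hv⟩ := hvar B hB
  obtain ⟨C3, hC3, hcb⟩ := cn_bound
  have hpi := Real.pi_pos
  have hpi3 := Real.pi_gt_three
  obtain ⟨K, hK⟩ : ∃ K : ℝ, K = 3 * (512 * C3 ^ 2 + 2) + 7 := ⟨_, rfl⟩
  have hK0 : 0 < K := by rw [hK]; positivity
  have hlit : ∀ᶠ T : ℝ in atTop, K * Real.log T ^ 3 ≤ T := by
    have h1 := (Real.isLittleO_pow_log_id_atTop (n := 3)).bound (c := 1 / K) (by positivity)
    filter_upwards [h1, eventually_ge_atTop 1] with T h2 h3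
    rw [Real.norm_of_nonneg (pow_nonneg (Real.log_nonneg h3) 3)] at h2
    simp only [id, Real.norm_of_nonneg (show (0 : ℝ) ≤ T by linarith)] at h2
    rw [div_mul_eq_mul_div, one_mul, le_div_iff₀ hK0] at h2
    linarith
  have hev := (hv.and (hlit.and ((Real.tendsto_log_atTop.eventually_ge_atTop
    (max (max 8 (Real.exp B)) (lam ^ 2))).and
    (eventually_ge_atTop 10)))).exists_forall_of_atTop
  obtain ⟨T0, hT0⟩ := hev
  -- first for large `a`
  have hbig : ∀ T : ℝ, T0 ≤ T →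
    ∀ Z : Finset ℂ, (∀ s, s ∈ Z ↔ s ∈ zset riemannZeta 0 (2 * T + 8)) → ∀ a : ℝ, lam ≤ a →
      a * Real.log a ≤ B * Real.log T →
      |(∫ t in T..(2 * T), (cn Z t (2 * Real.pi * a / Real.log T) - a) ^ 2) -
        T / Real.pi ^ 2 * Real.log a| ≤ (C1 + 1) * T := by
    intro T hT Z hZ a hla hab
    obtain ⟨⟨U1, U2, hU1, hU2, hU3, hU4, hV⟩, hKL, hL8, hT10⟩ := hT0 T hT
    have hLB : Real.exp B ≤ Real.log T := (le_max_right _ _).trans ((le_max_left _ _).trans hL8)
    have hL88 : 8 ≤ Real.log T := (le_max_left _ _).trans ((le_max_left _ _).trans hL8)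
    have haL : a ≤ Real.log T := range_le (by linarith) (by linarith) hLB hab
    obtain ⟨L, hL⟩ : ∃ L : ℝ, L = Real.log T := ⟨_, rfl⟩
    obtain ⟨Y, hY⟩ : ∃ Y : Finset ℂ, Y = Zf riemannZeta U1 U2 := ⟨_, rfl⟩
    have hV1 := hV a hla hab
    obtain ⟨h, hh⟩ : ∃ h : ℝ, h = 2 * Real.pi * a / Real.log T := ⟨_, rfl⟩
    rw [← hh, ← hY, ← hL] at hV1
    rw [← hh]
    rw [← hL] at hh hKL hL88 haL
    have hL0 : 0 < L := by linarith
    have ha0 : 0 < a := by linarith
    have hh0 : 0 ≤ h := by rw [hh]; positivity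
    have hh7 : h ≤ 7 := by
      rw [hh, div_le_iff₀ hL0]
      have : 2 * Real.pi ≤ 7 := by linarith [Real.pi_lt_d2]
      nlinarith
    obtain ⟨A, hA⟩ : ∃ A : ℝ, A = T + L := ⟨_, rfl⟩
    obtain ⟨E, hE⟩ : ∃ E : ℝ, E = 2 * T - L - 7 := ⟨_, rfl⟩
    rw [← hA, ← hE] at hV1
    have hL3 : L ≤ L ^ 3 := by nlinarith [sq_nonneg L]
    have hL30 : 0 ≤ L ^ 3 := by positivity
    have hk2 : 3 * (512 * C3 ^ 2 + 2) * L ^ 3 + 7 * L ^ 3 ≤ T := by
      have : K * L ^ 3 = 3 * (512 * C3 ^ 2 + 2) * L ^ 3 + 7 * L ^ 3 := by rw [hK]; ring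
      linarith
    have p3 : 0 ≤ 3 * (512 * C3 ^ 2 + 2) * L ^ 3 := by positivity
    have h6L : 7 * L ≤ T := by linarith
    have hAE : A ≤ E := by rw [hA, hE]; linarith
    have hTA : T ≤ A := by rw [hA]; linarith
    have hE2 : E ≤ 2 * T := by rw [hE]; linarith
    have hagree : ∀ t ∈ Set.Icc A E, cn Z t h = cn Y t h := by
      intro t ht
      apply cn_congr
      intro s h1 h2
      rw [hZ, hY, mem_Zf good_zeta (by linarith)]
      have h3 := ht.1
      have h4 := ht.2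
      rw [hA] at h3
      rw [hE] at h4
      constructor
      · rintro ⟨a1, a2, a3, a4, a5⟩
        exact ⟨a1, a2, by linarith, by linarith, a5⟩
      · rintro ⟨a1, a2, a3, a4, a5⟩
        exact ⟨a1, a2, by linarith, by linarith, a5⟩
    have hmid : ∫ t in A..E, (cn Z t h - a) ^ 2 = ∫ t in A..E, (cn Y t h - a) ^ 2 := by
      refine intervalIntegral.integral_congr fun t ht => ?_
      rw [Set.uIcc_of_le hAE] at ht
      rw [hagree t ht]
    have hlX : Real.log (2 * T + 8) ≤ 2 * L := by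
      rw [hL, ← Real.log_rpow (by linarith)]
      apply Real.log_le_log (by linarith)
      rw [Real.rpow_two]
      nlinarith
    have hlX0 : 0 < Real.log (2 * T + 8) := Real.log_pos (by linarith)
    have hpt : ∀ t, (cn Z t h - a) ^ 2 ≤ (512 * C3 ^ 2 + 2) * L ^ 2 := by
      intro t
      have h1 := hcb (2 * T + 8) (by linarith) Z (fun s hs => (hZ s).1 hs) t h hh0
      have h2 : C3 * (h + 1) * Real.log (2 * T + 8) ≤ C3 * 8 * (2 * L) := by
        have : h + 1 ≤ 8 := by linarith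
        gcongr
      have h3 := cn_nonneg Z t h
      have h4 : cn Z t h ^ 2 ≤ (C3 * 8 * (2 * L)) ^ 2 := pow_le_pow_left₀ h3 (h1.trans h2) 2
      have h5 : a ^ 2 ≤ L ^ 2 := pow_le_pow_left₀ ha0.le haL 2
      nlinarith [sq_nonneg (cn Z t h + a)]
    have hed : ∀ p q : ℝ, p ≤ q → 0 ≤ (∫ t in p..q, (cn Z t h - a) ^ 2) ∧
        (∫ t in p..q, (cn Z t h - a) ^ 2) ≤ (512 * C3 ^ 2 + 2) * L ^ 2 * (q - p) := by
      intro p q hpq
      refine ⟨intervalIntegral.integral_nonneg hpq fun t _ => sq_nonneg _, ?_⟩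
      calc (∫ t in p..q, (cn Z t h - a) ^ 2) ≤ ∫ _t in p..q, (512 * C3 ^ 2 + 2) * L ^ 2 :=
            intervalIntegral.integral_mono_on hpq (cv_ii _ _ _ _ _)
              (continuous_const.intervalIntegrable _ _) fun t _ => hpt t
        _ = _ := by rw [intervalIntegral.integral_const, smul_eq_mul]; ring
    obtain ⟨r1, r2⟩ := hed T A hTA
    obtain ⟨r3, r4⟩ := hed E (2 * T) hE2
    have hsplit : ∫ t in T..(2 * T), (cn Z t h - a) ^ 2 = (∫ t in T..A, (cn Z t h - a) ^ 2) +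
        (∫ t in A..E, (cn Z t h - a) ^ 2) + ∫ t in E..(2 * T), (cn Z t h - a) ^ 2 := by
      rw [intervalIntegral.integral_add_adjacent_intervals (cv_ii _ _ _ _ _) (cv_ii _ _ _ _ _),
        intervalIntegral.integral_add_adjacent_intervals (cv_ii _ _ _ _ _) (cv_ii _ _ _ _ _)]
    have hsum : (512 * C3 ^ 2 + 2) * L ^ 2 * (A - T) + (512 * C3 ^ 2 + 2) * L ^ 2 * (2 * T - E) ≤
        T := by
      have e2 : (512 * C3 ^ 2 + 2) * L ^ 2 * (A - T) + (512 * C3 ^ 2 + 2) * L ^ 2 * (2 * T - E) =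
        (512 * C3 ^ 2 + 2) * L ^ 2 * (2 * L + 7) := by rw [hA, hE]; ring
      rw [e2]
      calc (512 * C3 ^ 2 + 2) * L ^ 2 * (2 * L + 7) ≤ (512 * C3 ^ 2 + 2) * L ^ 2 * (3 * L) := by
            gcongr
            linarith
        _ = 3 * (512 * C3 ^ 2 + 2) * L ^ 3 := by ring
        _ ≤ T := by linarith
    rw [hsplit, hmid]
    have hm2 := abs_le.1 hV1
    rw [abs_le]
    constructor
    · nlinarith [hm2.1]
    · nlinarith [hm2.2]
  -- small `a`
  obtain ⟨M, hM⟩ : ∃ M : ℝ, M = 2 * (2 * (C1 + 1 + lam) + 2 * lam ^ 2) + 2 * lam ^ 2 + lam := ⟨_, rfl⟩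
  have hM0 : 0 < M := by rw [hM]; positivity
  refine ⟨C1 + 1 + M, max T0 10, by positivity, le_max_right _ _, fun T hT Z hZ a ha hab => ?_⟩
  have hTT0 : T0 ≤ T := (le_max_left _ _).trans hT
  have hT10 : 10 ≤ T := (le_max_right _ _).trans hT
  have hT0' : 0 < T := by linarith
  rcases le_or_gt lam a with hla | hla
  · refine (hbig T hTT0 Z hZ a hla hab).trans ?_
    nlinarith
  · obtain ⟨-, -, hL8, -⟩ := hT0 T hTT0
    have hll : lam ^ 2 ≤ Real.log T := (le_max_right _ _).trans hL8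
    have hL0 : 0 < Real.log T := Real.log_pos (by linarith)
    have hl0 : 0 ≤ Real.log lam := Real.log_nonneg (by linarith)
    have hl1 : Real.log lam ≤ lam := by
      have := Real.log_le_sub_one_of_pos (show 0 < lam by linarith)
      linarith
    have h1 := hbig T hTT0 Z hZ lam le_rfl (by nlinarith)
    obtain ⟨h, hh⟩ : ∃ h : ℝ, h = 2 * Real.pi * a / Real.log T := ⟨_, rfl⟩
    obtain ⟨k, hk⟩ : ∃ k : ℝ, k = 2 * Real.pi * lam / Real.log T := ⟨_, rfl⟩
    rw [← hk] at h1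
    rw [← hh]
    have hhk : h ≤ k := by rw [hh, hk]; gcongr
    have hsm : ∀ b : ℝ, 1 ≤ b → b ≤ lam → 0 ≤ T / Real.pi ^ 2 * Real.log b ∧
        T / Real.pi ^ 2 * Real.log b ≤ lam * T := by
      intro b hb hb2
      have g1 : 0 ≤ Real.log b := Real.log_nonneg hb
      have g2 : Real.log b ≤ lam := (Real.log_le_log (by linarith) hb2).trans hl1
      refine ⟨by positivity, ?_⟩
      have g3 : T / Real.pi ^ 2 ≤ T := div_le_self hT0'.le (by nlinarith)
      calc T / Real.pi ^ 2 * Real.log b ≤ T * lam := mul_le_mul g3 g2 g1 hT0'.le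
        _ = lam * T := by ring
    obtain ⟨s1, s2⟩ := hsm lam (by linarith) le_rfl
    obtain ⟨s3, s4⟩ := hsm a ha hla.le
    have h2 : ∫ t in T..(2 * T), (cn Z t k - lam) ^ 2 ≤ (C1 + 1 + lam) * T := by
      have := (abs_le.1 h1).2
      linarith
    have h3 : ∫ t in T..(2 * T), (cn Z t h - a) ^ 2 ≤
        2 * (2 * (C1 + 1 + lam) * T + 2 * lam ^ 2 * T) + 2 * lam ^ 2 * T := by
      calc ∫ t in T..(2 * T), (cn Z t h - a) ^ 2 ≤
          ∫ t in T..(2 * T), (4 * (cn Z t k - lam) ^ 2 + 6 * lam ^ 2) := by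
            refine intervalIntegral.integral_mono_on (by linarith) (cv_ii _ _ _ _ _)
              (((cv_ii _ _ _ _ _).const_mul 4).add (continuous_const.intervalIntegrable _ _))
              fun t _ => ?_
            have g1 := cn_nonneg Z t h
            have g2 : cn Z t h ≤ cn Z t k := cn_mono hhk
            have g3 : cn Z t h ^ 2 ≤ cn Z t k ^ 2 := pow_le_pow_left₀ g1 g2 2
            have g4 : a ^ 2 ≤ lam ^ 2 := pow_le_pow_left₀ (by linarith) hla.le 2
            nlinarith [sq_nonneg (cn Z t h + a), sq_nonneg (cn Z t k - 2 * lam)]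
        _ = 4 * (∫ t in T..(2 * T), (cn Z t k - lam) ^ 2) + 6 * lam ^ 2 * T := by
            rw [intervalIntegral.integral_add ((cv_ii _ _ _ _ _).const_mul 4)
              (continuous_const.intervalIntegrable _ _), intervalIntegral.integral_const_mul,
              intervalIntegral.integral_const, smul_eq_mul]
            ring
        _ ≤ _ := by nlinarith
    have h4 : 0 ≤ ∫ t in T..(2 * T), (cn Z t h - a) ^ 2 :=
      intervalIntegral.integral_nonneg (by linarith) fun t _ => sq_nonneg _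
    have hMT : M * T = 2 * (2 * (C1 + 1 + lam) * T + 2 * lam ^ 2 * T) + 2 * lam ^ 2 * T + lam * T := by
      rw [hM]; ring
    have h5 : 0 ≤ (C1 + 1) * T := by positivity
    have h6 : 0 ≤ 2 * (2 * (C1 + 1 + lam) * T + 2 * lam ^ 2 * T) + 2 * lam ^ 2 * T := by positivity
    rw [abs_le]
    constructor <;> nlinarith

end Pool.Agent.L5helper84.UV
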